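import Pool.Agent.W969.MC.Avg4

/-!
# Circuits with small alternation number

`AltLe C A`: in each increasing sequence of inputs at most `A` steps change the value of some test of
the further gates. The chain argument of the library for this notion.
-/

set_option linter.unusedSectionVars false
set_option linter.unusedVariables false

namespace Pool.Agent.H10x.NL

open Finset Pool.Agent.W969.MC Pool.Agent.H560R2

open Classical in
/-- the alternation number is at most `A` -/
def AltLe {Inp : Type} (C : RC Inp) (A : ℕ) : Prop :=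
  ∀ (q : ℕ) (x : ℕ → Inp → Bool), Monotone x →
    ((range q).filter (fun i => C.chg (x (i + 1)) (x i))).card ≤ A

/-- the alternation number is smaller than the freedom -/
lemma altLe_free {Inp : Type} (C : RC Inp) : AltLe C (C.free - 1) := by
  classical
  intro q x hx
  have key : ∀ q : ℕ, ((range q).filter (fun i => C.chg (x (i + 1)) (x i))).card ≤ C.pot (x q) := by
    intro q
    induction q with
    | zero => simp
    | succ q ih =>
      rw [Finset.range_add_one, Finset.filter_insert]
      split_ifs with h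
      · have h1 := C.pot_chg (hx (Nat.le_succ q)) h
        have h2 := Finset.card_insert_le q ((range q).filter (fun i => C.chg (x (i + 1)) (x i)))
        exact h2.trans ((Nat.succ_le_succ ih).trans h1)
      · exact ih.trans (C.pot_le (hx (Nat.le_succ q)))
  have h1 := key q
  have h2 := C.pot_lt (x q)
  refine le_trans ?_ (h1.trans (Nat.le_sub_one_of_lt h2))
  apply Finset.card_le_card
  intro i hi
  simpa using hi

/-- the alternation number is at most the number of inputs -/
lemma altLe_card {Inp : Type} [Fintype Inp] (C : RC Inp) : AltLe C (Fintype.card Inp) := by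
  classical
  intro q x hx
  have key : ∀ q : ℕ, ((range q).filter (fun i => C.chg (x (i + 1)) (x i))).card ≤
      (univ.filter (fun p => x q p = true)).card := by
    intro q
    induction q with
    | zero => simp
    | succ q ih =>
      have hsub : univ.filter (fun p => x q p = true) ⊆ univ.filter (fun p => x (q + 1) p = true) := by
        intro p hp
        rw [Finset.mem_filter] at hp ⊢
        refine ⟨mem_univ _, ?_⟩
        have h1 := hx (Nat.le_succ q) p
        rw [hp.2] at h1
        exact top_le_iff.mp h1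
      rw [Finset.range_add_one, Finset.filter_insert]
      split_ifs with h
      · have hne : x (q + 1) ≠ x q := by
          intro he
          rw [he] at h
          obtain ⟨i, hi, j, hj⟩ := h
          exact hj Iff.rfl
        have hss : univ.filter (fun p => x q p = true) ⊂ univ.filter (fun p => x (q + 1) p = true) := by
          refine hsub.ssubset_of_ne ?_
          intro he
          apply hne
          funext p
          have h1 : p ∈ univ.filter (fun p => x q p = true) ↔
              p ∈ univ.filter (fun p => x (q + 1) p = true) := by rw [he]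
          simp only [Finset.mem_filter, Finset.mem_univ, true_and] at h1
          exact (Bool.eq_iff_iff.mpr h1).symm
        have h2 := Finset.card_insert_le q ((range q).filter (fun i => C.chg (x (i + 1)) (x i)))
        have h3 := Finset.card_lt_card hss
        exact h2.trans ((Nat.succ_le_succ ih).trans h3)
      · exact ih.trans (Finset.card_le_card hsub)
  refine le_trans ?_ ((key q).trans (Finset.card_le_univ _))
  apply Finset.card_le_card
  intro i hi
  simpa using hi

section

variable {R α Ωn Ωp Inp : Type} [Fintype R] [Nonempty R] [Fintype Ωn] [Nonempty Ωn]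
  [Fintype Ωp] [Nonempty Ωp]

open Classical in
/-- the next negative test of the chain -/
noncomputable def nxt (C : R → RC Inp) {m' : ℕ} (E : (Fin m' → Set α) → Inp → Bool)
    (Xn : Ωn → Set α) (η : ℝ) (y : Fin m' → Set α) (J : Fin m') : Ωn :=
  if h : ∃ ω : Ωn, η * Fintype.card R <
      ((univ.filter fun r : R => (C r).chg (E (Function.update y J (Xn ω))) (E y)).card : ℝ)
  then h.choose else Classical.arbitrary Ωn

open Classical in
/-- the chain -/
noncomputable def chn (C : R → RC Inp) {m' : ℕ} (E : (Fin m' → Set α) → Inp → Bool)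
    (Xn : Ωn → Set α) (η : ℝ) : ℕ → Fin m' → Set α
  | 0 => fun _ => ∅
  | k + 1 => if h : k < m' then
      Function.update (chn C E Xn η k) ⟨k, h⟩ (Xn (nxt C E Xn η (chn C E Xn η k) ⟨k, h⟩))
    else chn C E Xn η k

open Classical in
/-- at some point of the chain few circuits change their bits -/
theorem alt_chain (C : R → RC Inp) {m' : ℕ} (E : (Fin m' → Set α) → Inp → Bool)
    (hmono : ∀ y y', (∀ j, y j ⊆ y' j) → E y ≤ E y') (Xn : Ωn → Set α) (η : ℝ) (hη : 0 ≤ η)
    (hm' : 0 < m') (Al : R → ℕ) (hAl : ∀ r, AltLe (C r) (Al r))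
    (hfree : ∀ r, (Al r : ℝ) ≤ η * m') :
    ∃ (y : Fin m' → Set α) (J : Fin m'), (∀ j, y j = ∅ ∨ ∃ ω, y j = Xn ω) ∧ y J = ∅ ∧
      (∑ ω : Ωn, ((univ.filter fun r : R => (C r).chg (E (Function.update y J (Xn ω))) (E y)).card : ℝ))
        ≤ Fintype.card Ωn * (η * Fintype.card R) := by
  by_contra hcon
  push Not at hcon
  set Y := chn C E Xn η with hY
  have hsucc : ∀ k (h : k < m'), Y (k + 1) =
      Function.update (Y k) ⟨k, h⟩ (Xn (nxt C E Xn η (Y k) ⟨k, h⟩)) := by
    intro k h
    show chn C E Xn η (k + 1) = _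
    rw [chn, dif_pos h]
  have hsucc' : ∀ k, ¬ k < m' → Y (k + 1) = Y k := by
    intro k h
    show chn C E Xn η (k + 1) = _
    rw [chn, dif_neg h]
  have ha : ∀ k j, Y k j = ∅ ∨ ∃ ω, Y k j = Xn ω := by
    intro k
    induction k with
    | zero => exact fun j => Or.inl rfl
    | succ k ih =>
      intro j
      by_cases h : k < m'
      · rw [hsucc k h]
        by_cases hj : j = ⟨k, h⟩
        · rw [hj, Function.update_self]
          exact Or.inr ⟨_, rfl⟩
        · rw [Function.update_of_ne hj]
          exact ih j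
      · rw [hsucc' k h]
        exact ih j
  have hb : ∀ k (j : Fin m'), k ≤ (j : ℕ) → Y k j = ∅ := by
    intro k
    induction k with
    | zero => exact fun j _ => rfl
    | succ k ih =>
      intro j hj
      by_cases h : k < m'
      · rw [hsucc k h]
        have hj' : j ≠ ⟨k, h⟩ := by
          rintro rfl
          have : k + 1 ≤ k := hj
          omega
        rw [Function.update_of_ne hj']
        exact ih j (by omega)
      · rw [hsucc' k h]
        exact ih j (by omega)
  have hle : ∀ k j, Y k j ⊆ Y (k + 1) j := by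
    intro k j
    by_cases h : k < m'
    · rw [hsucc k h]
      by_cases hj : j = ⟨k, h⟩
      · subst hj
        rw [hb k ⟨k, h⟩ le_rfl]
        exact Set.empty_subset _
      · rw [Function.update_of_ne hj]
    · rw [hsucc' k h]
  have hmon : Monotone (fun k => E (Y k)) := monotone_nat_of_le_succ (fun k => hmono _ _ (hle k))
  have hchg : ∀ k, k < m' → η * Fintype.card R <
      ((univ.filter fun r : R => (C r).chg (E (Y (k + 1))) (E (Y k))).card : ℝ) := by
    intro k h
    have hex : ∃ ω : Ωn, η * Fintype.card R <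
        ((univ.filter fun r : R =>
          (C r).chg (E (Function.update (Y k) ⟨k, h⟩ (Xn ω))) (E (Y k))).card : ℝ) := by
      by_contra hno
      push Not at hno
      have h5 := Finset.sum_le_sum (fun (ω : Ωn) (_ : ω ∈ univ) => hno ω)
      rw [Finset.sum_const, nsmul_eq_mul, Finset.card_univ] at h5
      exact absurd (lt_of_lt_of_le (hcon (Y k) ⟨k, h⟩ (ha k) (hb k ⟨k, h⟩ le_rfl)) h5)
        (lt_irrefl _)
    rw [hsucc k h]
    unfold nxt
    rw [dif_pos hex]
    exact hex.choose_spec
  have h1 : ∑ k ∈ range m', (η * Fintype.card R) <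
      ∑ k ∈ range m', ((univ.filter fun r : R => (C r).chg (E (Y (k + 1))) (E (Y k))).card : ℝ) :=
    Finset.sum_lt_sum_of_nonempty (by rw [Finset.nonempty_range_iff]; omega)
      (fun k hk => hchg k (Finset.mem_range.mp hk))
  have h2 : ∑ k ∈ range m', ((univ.filter fun r : R => (C r).chg (E (Y (k + 1))) (E (Y k))).card : ℝ)
      = ∑ r : R, (((range m').filter (fun k => (C r).chg (E (Y (k + 1))) (E (Y k)))).card : ℝ) := by
    simp only [Finset.card_filter, Nat.cast_sum]
    rw [Finset.sum_comm]
  have h3 : ∑ r : R, (((range m').filter (fun k => (C r).chg (E (Y (k + 1))) (E (Y k)))).card : ℝ)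
      ≤ ∑ r : R, (η * m') := by
    apply Finset.sum_le_sum
    intro r _
    refine le_trans ?_ (hfree r)
    have h4 := hAl r m' (fun k => E (Y k)) hmon
    exact_mod_cast h4
  rw [Finset.sum_const, nsmul_eq_mul, Finset.card_range] at h1
  rw [Finset.sum_const, nsmul_eq_mul, Finset.card_univ] at h3
  rw [h2] at h1
  have h4 := lt_of_lt_of_le h1 h3
  have h5 : (m' : ℝ) * (η * Fintype.card R) = Fintype.card R * (η * m') := by ring
  rw [h5] at h4
  exact lt_irrefl _ h4

/-- the randomised core -/
theorem rand_core_alt (C : R → RC Inp) {m' : ℕ} (E : (Fin m' → Set α) → Inp → Bool)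
    (hmono : ∀ y y', (∀ j, y j ⊆ y' j) → E y ≤ E y') (Xn : Ωn → Set α) (Xp : Ωp → Set α)
    (A g : ℝ) (hg : 0 ≤ g)
    (hyes : ∀ (y : Fin m' → Set α) (J : Fin m') (p : Ωp), (∀ j, y j = ∅ ∨ ∃ ω, y j = Xn ω) →
      (A + g) * Fintype.card R ≤ ({r : R | (C r).acc (E (Function.update y J (Xp p)))}.ncard : ℝ))
    (hno : ∀ y : Fin m' → Set α, (∀ j, y j = ∅ ∨ ∃ ω, y j = Xn ω) →
      ({r : R | (C r).acc (E y)}.ncard : ℝ) ≤ A * Fintype.card R)
    (hm' : 0 < m') (Al : R → ℕ) (hAl : ∀ r, AltLe (C r) (Al r))
    (hfree : ∀ r, (Al r : ℝ) ≤ (g / 2) * m') :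
    ∃ (r : R) (y : Fin m' → Set α) (J : Fin m') (L : List (Set α → ℝ)) (G : Set α → ℝ),
      RProg {h | ∃ b ∈ RB Inp, h = fun X => b (E (Function.update y J X))} L ∧
      (G ∈ {h : Set α → ℝ | ∃ b ∈ RB Inp, h = fun X => b (E (Function.update y J X))} ∨ G ∈ L) ∧
      L.length ≤ (C r).size ∧
      ({ω : Ωn | (C r).τ ≤ G (Xn ω)}.ncard : ℝ) / Fintype.card Ωn + g / 2 ≤
        ({p : Ωp | (C r).τ ≤ G (Xp p)}.ncard : ℝ) / Fintype.card Ωp := by
  classical
  obtain ⟨y, J, hy, hyJ, hsum⟩ := alt_chain C E hmono Xn (g / 2) (by linarith) hm' Al hAl hfree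
  have hfl := fun r => flipR (C r).htop (C r).hmon (C r).hT (C r).hval (C r).o (C r).τ (E y)
  choose L G hL hlen hG hGx using hfl
  have hle : ∀ X, E y ≤ E (Function.update y J X) := by
    intro X
    apply hmono
    intro j
    by_cases hj : j = J
    · rw [hj, hyJ]
      exact Set.empty_subset _
    · rw [Function.update_of_ne hj]
  have hRpos : (0 : ℝ) < Fintype.card R := by exact_mod_cast Fintype.card_pos
  have hnpos : (0 : ℝ) < Fintype.card Ωn := by exact_mod_cast Fintype.card_pos
  have hppos : (0 : ℝ) < Fintype.card Ωp := by exact_mod_cast Fintype.card_pos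
  -- planted tests
  have h1 : Fintype.card Ωp * ((A + g) * Fintype.card R) ≤
      ∑ r : R, ({p : Ωp | (C r).τ ≤ G r (E (Function.update y J (Xp p)))}.ncard : ℝ) := by
    rw [sum_swap]
    have h2 : ∀ p : Ωp, (A + g) * Fintype.card R ≤
        ({r : R | (C r).τ ≤ G r (E (Function.update y J (Xp p)))}.ncard : ℝ) := by
      intro p
      refine (hyes y J p hy).trans ?_
      have : {r : R | (C r).acc (E (Function.update y J (Xp p)))} ⊆
          {r : R | (C r).τ ≤ G r (E (Function.update y J (Xp p)))} := by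
        intro r hr
        exact (hGx r _ (hle _)).mpr (Or.inr hr)
      exact_mod_cast Set.ncard_le_ncard this (Set.toFinite _)
    have h3 := Finset.sum_le_sum (fun (p : Ωp) (_ : p ∈ univ) => h2 p)
    rwa [Finset.sum_const, nsmul_eq_mul, Finset.card_univ] at h3
  -- random tests
  have h4 : ∑ r : R, ({ω : Ωn | (C r).τ ≤ G r (E (Function.update y J (Xn ω)))}.ncard : ℝ) ≤
      Fintype.card Ωn * ((A + g / 2) * Fintype.card R) := by
    rw [sum_swap]
    have h5 : ∀ ω : Ωn, ({r : R | (C r).τ ≤ G r (E (Function.update y J (Xn ω)))}.ncard : ℝ) ≤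
        ((univ.filter fun r : R => (C r).chg (E (Function.update y J (Xn ω))) (E y)).card : ℝ) +
          A * Fintype.card R := by
      intro ω
      have h6 : {r : R | (C r).τ ≤ G r (E (Function.update y J (Xn ω)))} ⊆
          {r : R | (C r).chg (E (Function.update y J (Xn ω))) (E y)} ∪
          {r : R | (C r).acc (E (Function.update y J (Xn ω)))} := by
        intro r hr
        exact (hGx r _ (hle _)).mp hr
      have h7 := (Set.ncard_le_ncard h6 (Set.toFinite _)).trans (Set.ncard_union_le _ _)
      have h8 : {r : R | (C r).chg (E (Function.update y J (Xn ω))) (E y)}.ncard =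
          (univ.filter fun r : R => (C r).chg (E (Function.update y J (Xn ω))) (E y)).card := by
        rw [Set.ncard_eq_toFinset_card']
        congr 1
        ext r
        simp
      rw [h8] at h7
      have h9 := hno (Function.update y J (Xn ω)) (by
        intro j
        by_cases hj : j = J
        · subst hj
          rw [Function.update_self]
          exact Or.inr ⟨ω, rfl⟩
        · rw [Function.update_of_ne hj]
          exact hy j)
      have h10 : ({r : R | (C r).τ ≤ G r (E (Function.update y J (Xn ω)))}.ncard : ℝ) ≤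
        ((univ.filter fun r : R => (C r).chg (E (Function.update y J (Xn ω))) (E y)).card : ℝ) +
          ({r : R | (C r).acc (E (Function.update y J (Xn ω)))}.ncard : ℝ) := by
        exact_mod_cast h7
      linarith
    have h11 := Finset.sum_le_sum (fun (ω : Ωn) (_ : ω ∈ univ) => h5 ω)
    rw [Finset.sum_add_distrib, Finset.sum_const, nsmul_eq_mul, Finset.card_univ] at h11
    refine h11.trans ?_
    have h12 : (Fintype.card Ωn : ℝ) * ((A + g / 2) * Fintype.card R) =
        Fintype.card Ωn * (g / 2 * Fintype.card R) + Fintype.card Ωn * (A * Fintype.card R) := by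
      ring
    rw [h12]
    exact add_le_add hsum le_rfl
  -- one circuit
  have h13 : ∃ r : R, ({ω : Ωn | (C r).τ ≤ G r (E (Function.update y J (Xn ω)))}.ncard : ℝ) /
      Fintype.card Ωn + g / 2 ≤
        ({p : Ωp | (C r).τ ≤ G r (E (Function.update y J (Xp p)))}.ncard : ℝ) /
          Fintype.card Ωp := by
    by_contra hcon
    push Not at hcon
    have h14 := Finset.sum_lt_sum_of_nonempty (s := (univ : Finset R)) Finset.univ_nonempty
      (fun r _ => hcon r)
    rw [Finset.sum_add_distrib, Finset.sum_const, nsmul_eq_mul, Finset.card_univ,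
      ← Finset.sum_div, ← Finset.sum_div] at h14
    have h15 : (A + g) * Fintype.card R ≤
        (∑ r : R, ({p : Ωp | (C r).τ ≤ G r (E (Function.update y J (Xp p)))}.ncard : ℝ)) /
          Fintype.card Ωp := by
      rw [le_div_iff₀ hppos, mul_comm]
      exact h1
    have h16 : (∑ r : R, ({ω : Ωn | (C r).τ ≤ G r (E (Function.update y J (Xn ω)))}.ncard : ℝ)) /
        Fintype.card Ωn ≤ (A + g / 2) * Fintype.card R := by
      rw [div_le_iff₀ hnpos, mul_comm]
      exact h4
    have h17 : (A + g / 2) * (Fintype.card R : ℝ) + Fintype.card R * (g / 2) =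
      (A + g) * Fintype.card R := by ring
    linarith
  obtain ⟨r, hr⟩ := h13
  refine ⟨r, y, J, (L r).map (fun f X => f (E (Function.update y J X))),
    fun X => G r (E (Function.update y J X)),
    (hL r).comp (B' := {h | ∃ b ∈ RB Inp, h = fun X => b (E (Function.update y J X))})
      (fun X => E (Function.update y J X)) (fun b hb => ⟨b, hb, rfl⟩), ?_, ?_, hr⟩
  · rcases hG r with h | h
    · exact Or.inl ⟨G r, h, rfl⟩
    · exact Or.inr (List.mem_map.mpr ⟨G r, h, rfl⟩)
  · rw [List.length_map]
    exact hlen r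

end


section

variable {V I A Λ : Type} [Fintype V] [DecidableEq V] [Fintype I] [DecidableEq I] [Fintype A]
  [DecidableEq A] [Nonempty A] [Fintype Λ] [DecidableEq Λ]
  {h : I → A → V} {R Inp : Type} [Fintype R] [Nonempty R]

/-- the randomised lower bound -/
theorem csp_rand_alt {b s w : ℕ} (hG : Good h Λ b s w) {m' : ℕ} (C : R → RC Inp)
    (E : (Fin m' → Set (I × (A → Λ))) → Inp → Bool)
    (hmono : ∀ y y', (∀ j, y j ⊆ y' j) → E y ≤ E y')
    (hnar : ∀ (y : Fin m' → Set (I × (A → Λ))) (J : Fin m') (p : Inp),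
      ∃ T' : Finset (I × (A → Λ)), T'.card ≤ 1 ∧
      ∀ x x' : Set (I × (A → Λ)), (∀ e ∈ T', e ∈ x → e ∈ x') →
        E (Function.update y J x) p = true → E (Function.update y J x') p = true)
    (A0 g : ℝ)
    (hyes : ∀ y : Fin m' → Set (I × (A → Λ)),
      (∃ j, ∃ p : V → Λ, (tu h (gr p) : Set (I × (A → Λ))) ⊆ y j) →
      (A0 + g) * Fintype.card R ≤ ({r : R | (C r).acc (E y)}.ncard : ℝ))
    (hno : ∀ y : Fin m' → Set (I × (A → Λ)),
      (¬ ∃ j, ∃ p : V → Λ, (tu h (gr p) : Set (I × (A → Λ))) ⊆ y j) →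
      ({r : R | (C r).acc (E y)}.ncard : ℝ) ≤ A0 * Fintype.card R)
    (hm' : 0 < m') (Al : R → ℕ) (hAl : ∀ r, AltLe (C r) (Al r))
    (hfree : ∀ r, (Al r : ℝ) ≤ (g / 2) * m')
    (hlen : ∀ r, (C r).size ≤ (Fintype.card Λ + 1) ^ Fintype.card V)
    (hq : 16 / (Fintype.card Λ : ℝ) ≤ g)
    (hlt : ∀ r, 16 * ((C r).size : ℝ) * 2 ^ (w / (2 * b) / b + 1) <
      g * (Fintype.card Λ : ℝ) ^ (w / (2 * b) / b + 1)) : False := by
  classical
  have hΛ : Nonempty Λ := by
    have := hG.hq
    exact Fintype.card_pos_iff.mp (by omega)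
  have hI : Nonempty I := by
    have := hG.hV
    have := hG.hI
    exact Fintype.card_pos_iff.mp (by omega)
  have hf0 : ∀ p : V → Λ, ¬ (tu h (gr p) : Set (I × (A → Λ))) ⊆ ∅ := by
    intro p hp
    obtain ⟨i⟩ := hI
    have : (i, fun j => p (h i j)) ∈ tu h (gr p) := by
      unfold tu
      rw [Finset.mem_filter]
      refine ⟨mem_univ _, fun j => ?_⟩
      rw [mem_gr]
    exact hp (Finset.mem_coe.mpr this)
  obtain ⟨Ωn, hfin, Xn, hpos, hXn, H⟩ := exists_tests hG
  letI : Fintype Ωn := Fintype.ofFinite Ωn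
  rw [Nat.card_eq_fintype_card] at hpos
  haveI : Nonempty Ωn := Fintype.card_pos_iff.mp hpos
  have hqpos : (0 : ℝ) < Fintype.card Λ := by
    have := hG.hq
    exact_mod_cast (by omega : 0 < Fintype.card Λ)
  have hgpos : 0 < g := lt_of_lt_of_le (by positivity) hq
  have hbad : ∀ y : Fin m' → Set (I × (A → Λ)), (∀ j, y j = ∅ ∨ ∃ ω, y j = Xn ω) →
      ¬ ∃ j, ∃ p : V → Λ, (tu h (gr p) : Set (I × (A → Λ))) ⊆ y j := by
    rintro y hy ⟨j, p, hp⟩
    rcases hy j with h1 | ⟨ω, h1⟩
    · rw [h1] at hp
      exact hf0 p hp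
    · rw [h1] at hp
      exact hXn ω p hp
  obtain ⟨r, y, J, L, G, h1, h2, h3, h4⟩ := rand_core_alt C E hmono Xn
    (fun p : V → Λ => (tu h (gr p) : Set (I × (A → Λ)))) A0 g hgpos.le
    (fun y J p hy => hyes _ ⟨J, p, by rw [Function.update_self]⟩)
    (fun y hy => hno y (hbad y hy)) hm' Al hAl hfree
  have h5 := H _ (leaf_aux (fun X => E (Function.update y J X)) (hnar y J)) h1
    (h3.trans (hlen r)) G h2 (C r).τ
  rw [Nat.card_eq_fintype_card] at h5
  set j0 := w / (2 * b) / b + 1 with hj0
  have h6 : g / 2 ≤ 4 / (Fintype.card Λ : ℝ) + 4 * L.length * (2 / (Fintype.card Λ : ℝ)) ^ j0 := by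
    linarith
  have h7 : 4 / (Fintype.card Λ : ℝ) ≤ g / 4 := by
    have : 4 / (Fintype.card Λ : ℝ) = (16 / (Fintype.card Λ : ℝ)) / 4 := by ring
    linarith
  have h8 : g / 4 ≤ 4 * ((C r).size : ℝ) * (2 / (Fintype.card Λ : ℝ)) ^ j0 := by
    have h9 : (L.length : ℝ) ≤ (C r).size := by exact_mod_cast h3
    have h10 : 4 * (L.length : ℝ) * (2 / (Fintype.card Λ : ℝ)) ^ j0 ≤
        4 * ((C r).size : ℝ) * (2 / (Fintype.card Λ : ℝ)) ^ j0 := by
      apply mul_le_mul_of_nonneg_right _ (by positivity)
      linarith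
    linarith
  have h11 : g * (Fintype.card Λ : ℝ) ^ j0 ≤ 16 * ((C r).size : ℝ) * 2 ^ j0 := by
    have h12 := mul_le_mul_of_nonneg_right h8 (show 0 ≤ 4 * (Fintype.card Λ : ℝ) ^ j0 by positivity)
    have e1 : g / 4 * (4 * (Fintype.card Λ : ℝ) ^ j0) = g * (Fintype.card Λ : ℝ) ^ j0 := by ring
    have e2 : 4 * ((C r).size : ℝ) * (2 / (Fintype.card Λ : ℝ)) ^ j0 *
        (4 * (Fintype.card Λ : ℝ) ^ j0) = 16 * ((C r).size : ℝ) * 2 ^ j0 := by
      rw [div_pow]
      field_simp
      ring
    rw [e1, e2] at h12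
    exact h12
  exact absurd (hlt r) (not_lt.mpr h11)


end

end Pool.Agent.H10x.NL
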