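import Pool.Agent.H10x.NL.Stm

/-!
# Negations are useless for the disjunction of many copies of a monotone function
-/

set_option linter.unusedSectionVars false
set_option linter.unusedVariables false

namespace Pool.Agent.H10x.NL.BB

open Finset Pool.Agent.H10x.NL

/-- Circuits (straight-line programs) over the inputs `E` with `s` AND and OR gates of fan-in two and
arbitrary further gates: a further gate computes any function `G` of any number of available
functions `a j`. `L` is the list of the functions computed at the gates, and `T` is the list of the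
functions read by further gates (for a NOT gate: its input). -/
inductive Prog {E : Type} : ℕ → List ((E → Bool) → Bool) → List ((E → Bool) → Bool) → Prop
  | nil : Prog 0 [] []
  | and {s L T f g} (hL : Prog s L T) (hf : Available L f) (hg : Available L g) :
      Prog (s + 1) ((fun x => f x && g x) :: L) T
  | or {s L T f g} (hL : Prog s L T) (hf : Available L f) (hg : Available L g) :
      Prog (s + 1) ((fun x => f x || g x) :: L) T
  | any {s L T} (hL : Prog s L T) (w : ℕ) (a : Fin w → (E → Bool) → Bool)
      (ha : ∀ j, Available L (a j)) (G : (Fin w → Bool) → Bool) :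
      Prog s ((fun x => G (fun j => a j x)) :: L) (List.ofFn a ++ T)

/-- In each increasing sequence of inputs at most `A` steps change the value of some member of `T`. -/
def AltLe {E : Type} (T : List ((E → Bool) → Bool)) (A : ℕ) : Prop :=
  ∀ (q : ℕ) (x : ℕ → E → Bool), Monotone x →
    {i : ℕ | i < q ∧ ∃ g ∈ T, g (x (i + 1)) ≠ g (x i)}.ncard ≤ A

section basics

variable {E : Type}

lemma avail_mono {L L' : List ((E → Bool) → Bool)} (h : ∀ f ∈ L, f ∈ L')
    {f : (E → Bool) → Bool} (hf : Available L f) : Available L' f := by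
  rcases hf with h1 | h1
  · exact Or.inl (h f h1)
  · exact Or.inr h1

lemma avail_cons {L : List ((E → Bool) → Bool)} {g f : (E → Bool) → Bool} (hf : Available L f) :
    Available (g :: L) f := avail_mono (fun _ h => List.mem_cons_of_mem _ h) hf

lemma avail_head {L : List ((E → Bool) → Bool)} {g : (E → Bool) → Bool} : Available (g :: L) g :=
  Or.inl List.mem_cons_self

/-- the functions of a circuit without further gates are monotone -/
lemma mono_of {s : ℕ} {L T : List ((E → Bool) → Bool)} (h : Prog s L T) (hT : T = []) :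
    ∀ f, Available L f → Monotone f := by
  induction h with
  | nil =>
    rintro f (h | ⟨c, rfl⟩ | ⟨e, rfl⟩)
    · exact absurd h (List.not_mem_nil)
    · exact fun _ _ _ => le_rfl
    · exact fun x y hxy => hxy e
  | @and s L T f g _ hf hg ih =>
    rintro f' (h | h)
    · rcases List.mem_cons.mp h with rfl | h
      · intro x y hxy
        have h1 := ih hT f hf hxy
        have h2 := ih hT g hg hxy
        show (f x && g x) ≤ (f y && g y)
        rw [Bool.le_iff_imp] at h1 h2 ⊢
        simp only [Bool.and_eq_true]
        exact fun h => ⟨h1 h.1, h2 h.2⟩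
      · exact ih hT f' (Or.inl h)
    · exact ih hT f' (Or.inr h)
  | @or s L T f g _ hf hg ih =>
    rintro f' (h | h)
    · rcases List.mem_cons.mp h with rfl | h
      · intro x y hxy
        have h1 := ih hT f hf hxy
        have h2 := ih hT g hg hxy
        show (f x || g x) ≤ (f y || g y)
        rw [Bool.le_iff_imp] at h1 h2 ⊢
        simp only [Bool.or_eq_true]
        exact fun h => h.elim (fun h => Or.inl (h1 h)) (fun h => Or.inr (h2 h))
      · exact ih hT f' (Or.inl h)
    · exact ih hT f' (Or.inr h)
  | @any s L T _ w a ha G ih =>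
    obtain ⟨h1, h2⟩ := List.append_eq_nil_iff.mp hT
    have hw : w = 0 := by
      have := congrArg List.length h1
      simpa using this
    subst hw
    rintro f' (h | h)
    · rcases List.mem_cons.mp h with rfl | h
      · intro x y hxy
        have : (fun j => a j x) = fun j => a j y := by
          funext j
          exact j.elim0
        show G (fun j => a j x) ≤ G (fun j => a j y)
        rw [this]
      · exact ih h2 f' (Or.inl h)
    · exact ih h2 f' (Or.inr h)

/-- OR gates are added -/
lemma add_or (l : List ((E → Bool) → Bool)) : ∀ {s : ℕ} {L : List ((E → Bool) → Bool)}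
    {c : (E → Bool) → Bool}, Prog s L [] → Available L c → (∀ f ∈ l, Available L f) →
    ∃ (s' : ℕ) (L' : List ((E → Bool) → Bool)) (c' : (E → Bool) → Bool), s' ≤ s + l.length ∧
      Prog s' L' [] ∧ (∀ f, Available L f → Available L' f) ∧ Available L' c' ∧
      ∀ x, (c' x = true ↔ c x = true ∨ ∃ f ∈ l, f x = true) := by
  induction l with
  | nil =>
    intro s L c hL hc _
    exact ⟨s, L, c, by simp, hL, fun f h => h, hc, fun x => by simp⟩
  | cons g l ih =>
    intro s L c hL hc hl
    obtain ⟨s', L', c', h1, h2, h3, h4, h5⟩ := ih (Prog.or hL hc (hl g List.mem_cons_self))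
      avail_head (fun f hf => avail_cons (hl f (List.mem_cons_of_mem _ hf)))
    refine ⟨s', L', c', ?_, h2, fun f h => h3 f (avail_cons h), h4, fun x => ?_⟩
    · rw [List.length_cons]
      omega
    · rw [h5 x]
      simp only [Bool.or_eq_true, List.mem_cons, exists_eq_or_imp]
      tauto

/-- The further gates are frozen at the input `y`. -/
lemma flip {s : ℕ} {L T : List ((E → Bool) → Bool)} (h : Prog s L T) (y : E → Bool) :
    ∃ (s' : ℕ) (L' : List ((E → Bool) → Bool)), s' ≤ s + T.length ∧ Prog s' L' [] ∧
      (∃ ch, Available L' ch ∧ ∀ x, y ≤ x → (ch x = true ↔ ∃ g ∈ T, g x ≠ g y)) ∧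
      ∀ f, Available L f → ∃ fb, Available L' fb ∧ ∀ x, y ≤ x → (∀ g ∈ T, g x = g y) →
        fb x = f x := by
  classical
  induction h with
  | nil =>
    refine ⟨0, [], by simp, Prog.nil, ⟨fun _ => false, Or.inr (Or.inl ⟨false, rfl⟩), ?_⟩, ?_⟩
    · intro x _
      simp
    · intro f hf
      exact ⟨f, hf, fun _ _ _ => rfl⟩
  | @and s L T f g _ hf hg ih =>
    obtain ⟨s', L', h1, h2, ⟨ch, h3, h4⟩, h5⟩ := ih
    obtain ⟨fb, h6, h7⟩ := h5 f hf
    obtain ⟨gb, h8, h9⟩ := h5 g hg
    refine ⟨s' + 1, _, by omega, Prog.and h2 h6 h8, ⟨ch, avail_cons h3, h4⟩, ?_⟩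
    rintro f' (h | h)
    · rcases List.mem_cons.mp h with rfl | h
      · refine ⟨_, avail_head, fun x hx hT => ?_⟩
        show (fb x && gb x) = (f x && g x)
        rw [h7 x hx hT, h9 x hx hT]
      · obtain ⟨fb', h10, h11⟩ := h5 f' (Or.inl h)
        exact ⟨fb', avail_cons h10, h11⟩
    · obtain ⟨fb', h10, h11⟩ := h5 f' (Or.inr h)
      exact ⟨fb', avail_cons h10, h11⟩
  | @or s L T f g _ hf hg ih =>
    obtain ⟨s', L', h1, h2, ⟨ch, h3, h4⟩, h5⟩ := ih
    obtain ⟨fb, h6, h7⟩ := h5 f hf
    obtain ⟨gb, h8, h9⟩ := h5 g hg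
    refine ⟨s' + 1, _, by omega, Prog.or h2 h6 h8, ⟨ch, avail_cons h3, h4⟩, ?_⟩
    rintro f' (h | h)
    · rcases List.mem_cons.mp h with rfl | h
      · refine ⟨_, avail_head, fun x hx hT => ?_⟩
        show (fb x || gb x) = (f x || g x)
        rw [h7 x hx hT, h9 x hx hT]
      · obtain ⟨fb', h10, h11⟩ := h5 f' (Or.inl h)
        exact ⟨fb', avail_cons h10, h11⟩
    · obtain ⟨fb', h10, h11⟩ := h5 f' (Or.inr h)
      exact ⟨fb', avail_cons h10, h11⟩
  | @any s L T _ w a ha G ih =>
    obtain ⟨s', L', h1, h2, ⟨ch, h3, h4⟩, h5⟩ := ih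
    have h6 := fun j => h5 (a j) (ha j)
    choose ab hab1 hab2 using h6
    set l : List ((E → Bool) → Bool) := (List.ofFn ab).filter (fun g => !(g y)) with hl
    have hlmem : ∀ g, g ∈ l ↔ ∃ j, ab j = g ∧ g y = false := by
      intro g
      rw [hl, List.mem_filter, List.mem_ofFn]
      simp only [Bool.not_eq_true']
      constructor
      · rintro ⟨⟨j, hj⟩, hg⟩
        exact ⟨j, hj, hg⟩
      · rintro ⟨j, hj, hg⟩
        exact ⟨⟨j, hj⟩, hg⟩
    have hllen : l.length ≤ w := by
      refine (List.length_filter_le _ _).trans ?_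
      rw [List.length_ofFn]
    obtain ⟨s'', L'', ch', g1, g2, g3, g4, g5⟩ := add_or l h2 h3 (fun f hf => by
      obtain ⟨j, rfl, -⟩ := (hlmem f).mp hf
      exact hab1 j)
    refine ⟨s'', L'', ?_, g2, ⟨ch', g4, ?_⟩, ?_⟩
    · rw [List.length_append, List.length_ofFn]
      omega
    · intro x hx
      rw [g5 x]
      have hy : ∀ j, ab j y = a j y := fun j => hab2 j y le_rfl (fun g _ => rfl)
      constructor
      · rintro (h | ⟨f, hf, hfx⟩)
        · obtain ⟨g, hg, hgx⟩ := (h4 x hx).mp h
          exact ⟨g, List.mem_append_right _ hg, hgx⟩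
        · by_cases hc : ∃ g ∈ T, g x ≠ g y
          · obtain ⟨g, hg, hgx⟩ := hc
            exact ⟨g, List.mem_append_right _ hg, hgx⟩
          · push Not at hc
            obtain ⟨j, rfl, hj⟩ := (hlmem f).mp hf
            refine ⟨a j, List.mem_append_left _ (List.mem_ofFn.mpr ⟨j, rfl⟩), ?_⟩
            rw [← hab2 j x hx hc, ← hy j, hj, hfx]
            decide
      · rintro ⟨g, hg, hgx⟩
        by_cases hc : ∃ g ∈ T, g x ≠ g y
        · exact Or.inl ((h4 x hx).mpr hc)
        · push Not at hc
          rcases List.mem_append.mp hg with hg | hg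
          · obtain ⟨j, rfl⟩ := List.mem_ofFn.mp hg
            right
            rw [← hab2 j x hx hc, ← hy j] at hgx
            have hm : ab j y ≤ ab j x := mono_of h2 rfl (ab j) (hab1 j) hx
            have h7 : ab j y = false := by
              rcases h8 : ab j y with _ | _
              · rfl
              · rw [h8] at hm hgx
                exact absurd (top_le_iff.mp hm) hgx
            refine ⟨ab j, (hlmem _).mpr ⟨j, rfl, h7⟩, ?_⟩
            rw [h7] at hgx
            exact Bool.eq_true_of_not_eq_false hgx
          · exact absurd (hc g hg) hgx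
    · rintro f' (h | h)
      · rcases List.mem_cons.mp h with rfl | h
        · refine ⟨fun _ => G (fun j => a j y), Or.inr (Or.inl ⟨_, rfl⟩), fun x hx hT => ?_⟩
          have : (fun j => a j x) = fun j => a j y := by
            funext j
            exact hT (a j) (List.mem_append_left _ (List.mem_ofFn.mpr ⟨j, rfl⟩))
          show G (fun j => a j y) = G (fun j => a j x)
          rw [this]
        · obtain ⟨fb', h10, h11⟩ := h5 f' (Or.inl h)
          exact ⟨fb', g3 _ h10, fun x hx hT => h11 x hx (fun g hg =>
            hT g (List.mem_append_right _ hg))⟩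
      · obtain ⟨fb', h10, h11⟩ := h5 f' (Or.inr h)
        exact ⟨fb', g3 _ h10, fun x hx hT => h11 x hx (fun g hg =>
          hT g (List.mem_append_right _ hg))⟩

/-- substitution -/
lemma avail_comp {E' : Type} (σ : (E → Bool) → (E' → Bool))
    (hσ : ∀ p : E', (∃ c : Bool, ∀ x, σ x p = c) ∨ ∃ e : E, ∀ x, σ x p = x e)
    {L : List ((E' → Bool) → Bool)} {f : (E' → Bool) → Bool} (hf : Available L f) :
    Available (L.map (fun g x => g (σ x))) (fun x => f (σ x)) := by
  rcases hf with h | ⟨c, rfl⟩ | ⟨p, rfl⟩
  · exact Or.inl (List.mem_map.mpr ⟨f, h, rfl⟩)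
  · exact Or.inr (Or.inl ⟨c, rfl⟩)
  · rcases hσ p with ⟨c, hc⟩ | ⟨e, he⟩
    · exact Or.inr (Or.inl ⟨c, funext hc⟩)
    · exact Or.inr (Or.inr ⟨e, funext he⟩)

lemma comp_of {E' : Type} (σ : (E → Bool) → (E' → Bool))
    (hσ : ∀ p : E', (∃ c : Bool, ∀ x, σ x p = c) ∨ ∃ e : E, ∀ x, σ x p = x e)
    {s : ℕ} {L T : List ((E' → Bool) → Bool)} (h : Prog s L T) :
    Prog s (L.map (fun g x => g (σ x))) (T.map (fun g x => g (σ x))) := by
  induction h with
  | nil => exact Prog.nil
  | and _ hf hg ih => exact Prog.and ih (avail_comp σ hσ hf) (avail_comp σ hσ hg)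
  | or _ hf hg ih => exact Prog.or ih (avail_comp σ hσ hf) (avail_comp σ hσ hg)
  | @any s L T _ w a ha G ih =>
    have h1 := Prog.any ih w (fun j x => a j (σ x)) (fun j => avail_comp σ hσ (ha j)) G
    rw [List.map_cons, List.map_append, List.map_ofFn]
    exact h1

end basics

section chain

variable {E : Type} {m : ℕ}

/-- the input for the blocks -/
def inp (y : Fin m → E → Bool) : Fin m × E → Bool := fun p => y p.1 p.2

open Classical in
/-- the next negative input of the chain -/
noncomputable def nxt (T : List ((Fin m × E → Bool) → Bool)) (f : (E → Bool) → Bool)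
    (y : Fin m → E → Bool) (J : Fin m) : E → Bool :=
  if h : ∃ z : E → Bool, f z = false ∧ ∃ g ∈ T, g (inp (Function.update y J z)) ≠ g (inp y)
  then h.choose else fun _ => false

/-- the chain -/
noncomputable def chn (T : List ((Fin m × E → Bool) → Bool)) (f : (E → Bool) → Bool) :
    ℕ → Fin m → E → Bool
  | 0 => fun _ _ => false
  | k + 1 => if h : k < m then
      Function.update (chn T f k) ⟨k, h⟩ (nxt T f (chn T f k) ⟨k, h⟩)
    else chn T f k

lemma exists_block {T : List ((Fin m × E → Bool) → Bool)} {f : (E → Bool) → Bool}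
    (hf0 : f (fun _ => false) = false) {A : ℕ} (hT : AltLe T A) (hA : A < m) :
    ∃ (y : Fin m → E → Bool) (J : Fin m), (∀ j, f (y j) = false) ∧ y J = (fun _ => false) ∧
      ∀ z : E → Bool, f z = false → ∀ g ∈ T, g (inp (Function.update y J z)) = g (inp y) := by
  classical
  by_contra hcon
  push Not at hcon
  set Y := chn T f with hY
  have hsucc : ∀ k (h : k < m), Y (k + 1) = Function.update (Y k) ⟨k, h⟩ (nxt T f (Y k) ⟨k, h⟩) := by
    intro k h
    show chn T f (k + 1) = _
    rw [chn, dif_pos h]
  have hsucc' : ∀ k, ¬ k < m → Y (k + 1) = Y k := by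
    intro k h
    show chn T f (k + 1) = _
    rw [chn, dif_neg h]
  have hnf : ∀ y J, f (nxt T f y J) = false := by
    intro y J
    unfold nxt
    split_ifs with h
    · exact h.choose_spec.1
    · exact hf0
  have ha : ∀ k j, f (Y k j) = false := by
    intro k
    induction k with
    | zero => exact fun j => hf0
    | succ k ih =>
      intro j
      by_cases h : k < m
      · rw [hsucc k h]
        by_cases hj : j = ⟨k, h⟩
        · rw [hj, Function.update_self]
          exact hnf _ _
        · rw [Function.update_of_ne hj]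
          exact ih j
      · rw [hsucc' k h]
        exact ih j
  have hb : ∀ k (j : Fin m), k ≤ (j : ℕ) → Y k j = fun _ => false := by
    intro k
    induction k with
    | zero => exact fun j _ => rfl
    | succ k ih =>
      intro j hj
      by_cases h : k < m
      · rw [hsucc k h]
        have hj' : j ≠ ⟨k, h⟩ := by
          rintro rfl
          have : k + 1 ≤ k := hj
          omega
        rw [Function.update_of_ne hj']
        exact ih j (by omega)
      · rw [hsucc' k h]
        exact ih j (by omega)
  have hmon : Monotone (fun k => inp (Y k)) := by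
    apply monotone_nat_of_le_succ
    intro k p
    show Y k p.1 p.2 ≤ Y (k + 1) p.1 p.2
    by_cases h : k < m
    · rw [hsucc k h]
      by_cases hj : p.1 = ⟨k, h⟩
      · rw [hj, hb k ⟨k, h⟩ le_rfl]
        exact Bool.false_le _
      · rw [Function.update_of_ne hj]
    · rw [hsucc' k h]
  have hchg : ∀ k, k < m → ∃ g ∈ T, g (inp (Y (k + 1))) ≠ g (inp (Y k)) := by
    intro k h
    have hex : ∃ z : E → Bool, f z = false ∧
        ∃ g ∈ T, g (inp (Function.update (Y k) ⟨k, h⟩ z)) ≠ g (inp (Y k)) :=
      hcon (Y k) ⟨k, h⟩ (ha k) (hb k ⟨k, h⟩ le_rfl)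
    rw [hsucc k h]
    unfold nxt
    rw [dif_pos hex]
    exact hex.choose_spec.2
  have h1 := hT m (fun k => inp (Y k)) hmon
  have h2 : {i : ℕ | i < m ∧ ∃ g ∈ T, g (inp (Y (i + 1))) ≠ g (inp (Y i))} = ↑(range m) := by
    ext i
    simp only [Set.mem_setOf_eq, Finset.coe_range, Set.mem_Iio]
    exact ⟨fun h => h.1, fun h => ⟨h, hchg i h⟩⟩
  rw [h2, Set.ncard_coe_finset, Finset.card_range] at h1
  omega

/-- Negations are useless. -/
theorem elim {f : (E → Bool) → Bool} (hf : Monotone f) {s : ℕ}
    {L T : List ((Fin m × E → Bool) → Bool)} {out : (Fin m × E → Bool) → Bool}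
    (hL : Prog s L T) (hout : Available L out)
    (hF : ∀ x, out x = true ↔ ∃ j, f (fun e => x (j, e)) = true) {A : ℕ} (hT : AltLe T A)
    (hA : A < m) :
    ∃ (s' : ℕ) (L' : List ((E → Bool) → Bool)), s' ≤ s + T.length + 1 ∧ Prog s' L' [] ∧
      Available L' f := by
  classical
  by_cases hf0 : f (fun _ => false) = true
  · refine ⟨0, [], by omega, Prog.nil, Or.inr (Or.inl ⟨true, ?_⟩)⟩
    funext x
    have h1 : f (fun _ => false) ≤ f x := hf (fun e => Bool.false_le _)
    rw [hf0] at h1
    exact top_le_iff.mp h1
  have hf0' : f (fun _ => false) = false := Bool.eq_false_of_not_eq_true hf0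
  obtain ⟨y, J, h1, h2, h3⟩ := exists_block hf0' hT hA
  obtain ⟨s', L', h4, h5, ⟨ch, h6, h7⟩, h8⟩ := flip hL (inp y)
  obtain ⟨ob, h9, h10⟩ := h8 out hout
  set σ : (E → Bool) → (Fin m × E → Bool) := fun x => inp (Function.update y J x) with hσ
  have hσ1 : ∀ p : Fin m × E, (∃ c : Bool, ∀ x, σ x p = c) ∨ ∃ e : E, ∀ x, σ x p = x e := by
    rintro ⟨j, e⟩
    by_cases hj : j = J
    · right
      refine ⟨e, fun x => ?_⟩
      show Function.update y J x j e = x e
      rw [hj, Function.update_self]
    · left
      refine ⟨y j e, fun x => ?_⟩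
      show Function.update y J x j e = y j e
      rw [Function.update_of_ne hj]
  have hle : ∀ x, inp y ≤ σ x := by
    rintro x ⟨j, e⟩
    show y j e ≤ Function.update y J x j e
    by_cases hj : j = J
    · rw [hj, Function.update_self, h2]
      exact Bool.false_le _
    · rw [Function.update_of_ne hj]
  have hblk : ∀ x, out (σ x) = f x := by
    intro x
    have h11 := hF (σ x)
    have h12 : ∀ j, (fun e => σ x (j, e)) = Function.update y J x j := fun j => rfl
    rcases hx : f x with _ | _
    · rw [Bool.eq_false_iff]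
      intro hc
      obtain ⟨j, hj⟩ := h11.mp hc
      rw [h12 j] at hj
      by_cases hjJ : j = J
      · rw [hjJ, Function.update_self, hx] at hj
        exact absurd hj (by decide)
      · rw [Function.update_of_ne hjJ, h1 j] at hj
        exact absurd hj (by decide)
    · apply h11.mpr
      refine ⟨J, ?_⟩
      rw [h12 J, Function.update_self]
      exact hx
  have h11 := comp_of σ hσ1 h5
  rw [List.map_nil] at h11
  refine ⟨s' + 1, _, by omega, Prog.or h11 (avail_comp σ hσ1 h6) (avail_comp σ hσ1 h9), ?_⟩
  have hres : (fun x => ch (σ x) || ob (σ x)) = f := by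
    funext x
    by_cases hc : ∃ g ∈ T, g (σ x) ≠ g (inp y)
    · have h12 : ch (σ x) = true := (h7 _ (hle x)).mpr hc
      rw [h12, Bool.true_or]
      rcases hx : f x with _ | _
      · exfalso
        obtain ⟨g, hg, hgx⟩ := hc
        exact hgx (h3 x hx g hg)
      · rfl
    · have h12 : ch (σ x) = false := by
        rw [Bool.eq_false_iff]
        exact fun h => hc ((h7 _ (hle x)).mp h)
      push Not at hc
      rw [h12, Bool.false_or, h10 _ (hle x) hc, hblk x]
  rw [← hres]
  exact avail_head

end chain

section bounds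

variable {E : Type}

/-- the alternation number is at most the number of inputs -/
lemma altLe_card [Fintype E] (T : List ((E → Bool) → Bool)) : AltLe T (Fintype.card E) := by
  classical
  intro q x hx
  have key : ∀ q : ℕ, ((range q).filter (fun i => ∃ g ∈ T, g (x (i + 1)) ≠ g (x i))).card ≤
      (univ.filter (fun p => x q p = true)).card := by
    intro q
    induction q with
    | zero => simp
    | succ q ih =>
      have hsub : univ.filter (fun p => x q p = true) ⊆ univ.filter (fun p => x (q + 1) p = true) := by
        intro p hp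
        rw [Finset.mem_filter] at hp ⊢
        refine ⟨mem_univ _, ?_⟩
        have h1 := hx (Nat.le_succ q) p
        rw [hp.2] at h1
        exact top_le_iff.mp h1
      rw [Finset.range_add_one, Finset.filter_insert]
      split_ifs with h
      · have hne : x (q + 1) ≠ x q := by
          intro he
          rw [he] at h
          obtain ⟨g, hg, hgx⟩ := h
          exact hgx rfl
        have hss : univ.filter (fun p => x q p = true) ⊂ univ.filter (fun p => x (q + 1) p = true) := by
          refine hsub.ssubset_of_ne ?_
          intro he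
          apply hne
          funext p
          have h1 : p ∈ univ.filter (fun p => x q p = true) ↔
              p ∈ univ.filter (fun p => x (q + 1) p = true) := by rw [he]
          simp only [Finset.mem_filter, Finset.mem_univ, true_and] at h1
          exact (Bool.eq_iff_iff.mpr h1).symm
        have h2 := Finset.card_insert_le q ((range q).filter (fun i => ∃ g ∈ T, g (x (i + 1)) ≠ g (x i)))
        have h3 := Finset.card_lt_card hss
        exact h2.trans ((Nat.succ_le_succ ih).trans h3)
      · exact ih.trans (Finset.card_le_card hsub)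
  have h1 : {i : ℕ | i < q ∧ ∃ g ∈ T, g (x (i + 1)) ≠ g (x i)} =
      ↑((range q).filter (fun i => ∃ g ∈ T, g (x (i + 1)) ≠ g (x i))) := by
    ext i
    simp
  rw [h1, Set.ncard_coe_finset]
  exact (key q).trans (Finset.card_le_univ _)

/-- a potential -/
lemma exists_pot {s : ℕ} {L T : List ((E → Bool) → Bool)} (h : Prog s L T) :
    ∃ pot : (E → Bool) → ℕ, (∀ x, pot x < 2 ^ T.length) ∧
      ∀ x y, x ≤ y → pot x ≤ pot y ∧ (pot x = pot y → (∀ g ∈ T, g y = g x) ∧
        ∀ f, Available L f → f x ≤ f y) := by
  classical
  have base : ∀ f : (E → Bool) → Bool, ((∃ c : Bool, f = fun _ => c) ∨ ∃ e : E, f = fun x => x e) →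
      ∀ x y, x ≤ y → f x ≤ f y := by
    rintro f (⟨c, rfl⟩ | ⟨e, rfl⟩) x y hxy
    · exact le_rfl
    · exact hxy e
  induction h with
  | nil =>
    refine ⟨fun _ => 0, fun x => by simp, fun x y hxy => ⟨le_rfl, fun _ => ⟨by simp, ?_⟩⟩⟩
    rintro f (h | h)
    · exact absurd h (List.not_mem_nil)
    · exact base f h x y hxy
  | @and s L T f g _ hf hg ih =>
    obtain ⟨pot, h1, h2⟩ := ih
    refine ⟨pot, h1, fun x y hxy => ⟨(h2 x y hxy).1, fun hp => ?_⟩⟩
    obtain ⟨h3, h4⟩ := (h2 x y hxy).2 hp
    refine ⟨h3, ?_⟩
    rintro f' (h | h)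
    · rcases List.mem_cons.mp h with rfl | h
      · have h5 := h4 f hf
        have h6 := h4 g hg
        show (f x && g x) ≤ (f y && g y)
        rw [Bool.le_iff_imp] at h5 h6 ⊢
        simp only [Bool.and_eq_true]
        exact fun h => ⟨h5 h.1, h6 h.2⟩
      · exact h4 f' (Or.inl h)
    · exact base f' h x y hxy
  | @or s L T f g _ hf hg ih =>
    obtain ⟨pot, h1, h2⟩ := ih
    refine ⟨pot, h1, fun x y hxy => ⟨(h2 x y hxy).1, fun hp => ?_⟩⟩
    obtain ⟨h3, h4⟩ := (h2 x y hxy).2 hp
    refine ⟨h3, ?_⟩
    rintro f' (h | h)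
    · rcases List.mem_cons.mp h with rfl | h
      · have h5 := h4 f hf
        have h6 := h4 g hg
        show (f x || g x) ≤ (f y || g y)
        rw [Bool.le_iff_imp] at h5 h6 ⊢
        simp only [Bool.or_eq_true]
        exact fun h => h.elim (fun h => Or.inl (h5 h)) (fun h => Or.inr (h6 h))
      · exact h4 f' (Or.inl h)
    · exact base f' h x y hxy
  | @any s L T _ w a ha G ih =>
    obtain ⟨pot, h1, h2⟩ := ih
    set cnt : (E → Bool) → ℕ := fun x => (univ.filter (fun j => a j x = true)).card with hcnt
    have hcw : ∀ x, cnt x < 2 ^ w := by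
      intro x
      refine lt_of_le_of_lt (Finset.card_le_univ _) ?_
      rw [Fintype.card_fin]
      exact Nat.lt_two_pow_self
    refine ⟨fun x => 2 ^ w * pot x + cnt x, ?_, ?_⟩
    · intro x
      rw [List.length_append, List.length_ofFn, pow_add]
      have h3 := h1 x
      have h4 := hcw x
      calc 2 ^ w * pot x + cnt x < 2 ^ w * pot x + 2 ^ w := by omega
        _ = 2 ^ w * (pot x + 1) := by ring
        _ ≤ 2 ^ w * 2 ^ T.length := Nat.mul_le_mul_left _ h3
    · intro x y hxy
      obtain ⟨h3, h4⟩ := h2 x y hxy
      rcases Nat.lt_or_ge (pot x) (pot y) with hlt | hge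
      · have h5 : 2 ^ w * pot x + cnt x < 2 ^ w * pot y + cnt y := by
          have h6 := hcw x
          calc 2 ^ w * pot x + cnt x < 2 ^ w * pot x + 2 ^ w := by omega
            _ = 2 ^ w * (pot x + 1) := by ring
            _ ≤ 2 ^ w * pot y := Nat.mul_le_mul_left _ hlt
            _ ≤ 2 ^ w * pot y + cnt y := Nat.le_add_right _ _
        exact ⟨h5.le, fun h => absurd h h5.ne⟩
      · have heq : pot x = pot y := le_antisymm h3 hge
        obtain ⟨h5, h6⟩ := h4 heq
        have hsub : univ.filter (fun j => a j x = true) ⊆ univ.filter (fun j => a j y = true) := by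
          intro j hj
          rw [Finset.mem_filter] at hj ⊢
          have h7 := h6 (a j) (ha j)
          rw [hj.2] at h7
          exact ⟨mem_univ _, top_le_iff.mp h7⟩
        have hc : cnt x ≤ cnt y := Finset.card_le_card hsub
        refine ⟨?_, fun h => ?_⟩
        · show 2 ^ w * pot x + cnt x ≤ 2 ^ w * pot y + cnt y
          rw [heq]
          omega
        · have h7 : cnt x = cnt y := by
            have h8 : 2 ^ w * pot x + cnt x = 2 ^ w * pot y + cnt y := h
            rw [heq] at h8
            omega
          have h8 : univ.filter (fun j => a j x = true) = univ.filter (fun j => a j y = true) :=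
            Finset.eq_of_subset_of_card_le hsub h7.ge
          have h9 : ∀ j, a j y = a j x := by
            intro j
            have h10 : j ∈ univ.filter (fun j => a j x = true) ↔
              j ∈ univ.filter (fun j => a j y = true) := by rw [h8]
            simp only [Finset.mem_filter, Finset.mem_univ, true_and] at h10
            exact (Bool.eq_iff_iff.mpr h10).symm
          refine ⟨?_, ?_⟩
          · intro g hg
            rcases List.mem_append.mp hg with hg | hg
            · obtain ⟨j, rfl⟩ := List.mem_ofFn.mp hg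
              exact h9 j
            · exact h5 g hg
          · rintro f' (h | h)
            · rcases List.mem_cons.mp h with rfl | h
              · have : (fun j => a j x) = fun j => a j y := by
                  funext j
                  exact (h9 j).symm
                show G (fun j => a j x) ≤ G (fun j => a j y)
                rw [this]
              · exact h6 f' (Or.inl h)
            · exact base f' h x y hxy

/-- with `t` NOT gates the alternation number is less than `2 ^ t` -/
lemma altLe_pow {s : ℕ} {L T : List ((E → Bool) → Bool)} (h : Prog s L T) :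
    AltLe T (2 ^ T.length - 1) := by
  classical
  obtain ⟨pot, h1, h2⟩ := exists_pot h
  intro q x hx
  have key : ∀ q : ℕ, ((range q).filter (fun i => ∃ g ∈ T, g (x (i + 1)) ≠ g (x i))).card ≤
      pot (x q) := by
    intro q
    induction q with
    | zero => simp
    | succ q ih =>
      obtain ⟨h3, h4⟩ := h2 _ _ (hx (Nat.le_succ q))
      rw [Finset.range_add_one, Finset.filter_insert]
      split_ifs with h
      · have hne : pot (x q) ≠ pot (x (q + 1)) := by
          intro he
          obtain ⟨g, hg, hgx⟩ := h
          exact hgx ((h4 he).1 g hg)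
        have h5 := Finset.card_insert_le q ((range q).filter (fun i => ∃ g ∈ T, g (x (i + 1)) ≠ g (x i)))
        have h6 : pot (x q) ≤ pot (x (q + 1)) := h3
        omega
      · exact ih.trans h3
  have h3 : {i : ℕ | i < q ∧ ∃ g ∈ T, g (x (i + 1)) ≠ g (x i)} =
      ↑((range q).filter (fun i => ∃ g ∈ T, g (x (i + 1)) ≠ g (x i))) := by
    ext i
    simp
  rw [h3, Set.ncard_coe_finset]
  have h4 := key q
  have h5 := h1 (x q)
  omega

end bounds

end Pool.Agent.H10x.NL.BB
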