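import Mathlib

/-!
# NOT gates: definitions and the statement of the converse (Markov, Fischer)
-/

namespace Pool.Agent.H10x.NL

/-- The functions that are available after the functions of the list `L` have been computed: the
members of `L`, the constants and the inputs. -/
def Available {E : Type} (L : List ((E → Bool) → Bool)) (f : (E → Bool) → Bool) : Prop :=
  f ∈ L ∨ (∃ c : Bool, f = fun _ => c) ∨ ∃ e : E, f = fun x => x e

/-- Boolean circuits (straight-line programs) with AND, OR and NOT gates of fan-in at most two, one
gate for each member of the list, `t` of them NOT gates. -/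
inductive BC {E : Type} : ℕ → List ((E → Bool) → Bool) → Prop
  | nil : BC 0 []
  | and {t L f g} (hL : BC t L) (hf : Available L f) (hg : Available L g) :
      BC t ((fun x => f x && g x) :: L)
  | or {t L f g} (hL : BC t L) (hf : Available L f) (hg : Available L g) :
      BC t ((fun x => f x || g x) :: L)
  | not {t L f} (hL : BC t L) (hf : Available L f) : BC (t + 1) ((fun x => !f x) :: L)

/-- PIECE FIS (Markov 1958, Fischer 1974): every circuit with at most `s` gates on the `N = card E`
inputs can be replaced by one with at most `⌈log₂ (N + 1)⌉` NOT gates and at most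
`2 s + 10 (N + 1) ^ 3` gates that makes all functions of the old circuit available (we only need the
output `f`).

Proof. Lemmas to prove first: programs can be appended (`BC t L → BC t' L' → BC (t + t') (L' ++ L)`,
`Available` is monotone in `L`).

(a) Thresholds. Enumerate the inputs as `x 0, ..., x (N-1)` (`Fintype.equivFin`). For a list `l` of
inputs let `T l i x = decide (i ≤ number of e in l with x e = true)`. `T (e :: l) (i+1) =
T l (i+1) ∨ (T l i ∧ x e)`, `T l 0 = true`, `T [] (i+1) = false`. So all the `T l i` with `i ≤ N` are
computed by a program without NOT gates and with at most `2 * N * l.length` gates (for each element of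
the list and each `1 ≤ i ≤ N`, one AND gate and one OR gate).

(b) The negations of the threshold functions. Let `y 1, y 2, ..., y (2^r - 1)` be functions with
`y (i+1) ≤ y i` pointwise (`2^r - 1 ≥ N`, put `y i = T univ i`, which is constant `false` for `i > N`;
`r = Nat.clog 2 (N + 1)`). Claim: if the `y i` are available in a program, it can be extended by `r`
NOT gates and at most `4 * 2^r` further gates such that all `!y i` are available. Induction on `r`:
`r = 0`: nothing to do. Step: let `u = y (2^(r-1))`, `v = !u` (one NOT gate), and for
`1 ≤ i < 2^(r-1)` let `w i = y (i + 2^(r-1)) ∨ (y i ∧ v)`. If `u x = 1` then `w i = y (i + 2^(r-1))`,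
otherwise `y (i + 2^(r-1)) = 0` and `w i = y i`; so `w` is again pointwise decreasing, and by induction
the `!w i` are available. Then `!y i = !w i ∧ v` for `i < 2^(r-1)` (if `u = 1` then `y i = 1`), and
`!y (i + 2^(r-1)) = !w i ∨ v`. The number of gates: `g r ≤ g (r-1) + 1 + 4 * 2^(r-1)`, so `g r ≤ 4 * 2^r`
(`≤ 8 (N + 1)`); of these exactly `r` are NOT gates.

(c) The negated inputs: `!x e = ⋀_{i=1..N} (!T univ i ∨ T (univ without e) i)`. (If `x e = 0` then
`T univ i = T (univ without e) i` and all clauses hold; if `x e = 1` and `i` is the number of ones of `x`
then `T univ i = 1` and `T (univ without e) i = 0`.) For each `e`: `2 N (N-1)` gates for the thresholds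
and `2 N` gates for this formula: together at most `N (2 N (N - 1) + 2 N) = 2 N ^ 3` gates, no NOT gates.

(d) De Morgan: if the `!x e` are available, then each program `L` with `s` gates (any number of NOT
gates) can be replaced by a program with at most `2 s` additional gates, without additional NOT gates,
that makes `f` and `!f` available for each `f` available in `L`: induction on the program; for an AND
gate `f ∧ g` add `f ∧ g` and `!f ∨ !g`; for a NOT gate nothing has to be added.

Total: `r` NOT gates, `2 s + 2 N^2 + 8 (N + 1) + 2 N^3 ≤ 2 s + 10 (N + 1)^3` gates. -/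
def S_FIS : Prop := ∀ (E : Type) [Fintype E] (t s : ℕ) (L : List ((E → Bool) → Bool))
  (f : (E → Bool) → Bool), BC t L → L.length ≤ s → Available L f →
  ∃ (t' : ℕ) (L' : List ((E → Bool) → Bool)), t' ≤ Nat.clog 2 (Fintype.card E + 1) ∧ BC t' L' ∧
    L'.length ≤ 2 * s + 10 * (Fintype.card E + 1) ^ 3 ∧ Available L' f

end Pool.Agent.H10x.NL
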