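import Pool.Agent.H10x.NL.Main
import Pool.Agent.H10x.NL.Stm
import Pool.Agent.HM94.NI.ToRC

/-!
# The lower bound for Boolean circuits
-/

set_option linter.unusedSectionVars false
set_option linter.unusedVariables false

namespace Pool.Agent.H10x.NL

open Finset Pool.Agent.W969.MC

lemma BC.toTProg {E : Type} {t : ℕ} {L : List ((E → Bool) → Bool)} (h : BC t L) :
    Pool.Agent.HM94.NI.TProg (Set.univ : Set E) t L := by
  induction h with
  | nil => exact .nil
  | and _ hf hg ih => exact .and ih hf hg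
  | or _ hf hg ih => exact .or ih hf hg
  | not _ hf ih => exact .freeNot ih hf

lemma BC.t_le {E : Type} {t : ℕ} {L : List ((E → Bool) → Bool)} (h : BC t L) : t ≤ L.length := by
  induction h with
  | nil => exact le_rfl
  | and _ hf hg ih => exact ih.trans (Nat.le_succ _)
  | or _ hf hg ih => exact ih.trans (Nat.le_succ _)
  | not _ hf ih => exact Nat.succ_le_succ ih

/-- a Boolean circuit followed by an arbitrary function of `W` of its bits -/
theorem nl_bool (ε : ℝ) (hε : 0 < ε) : ∃ δ : ℝ, 0 < δ ∧ ∃ k0 : ℕ, ∀ m n k : ℕ, k0 ≤ k → 2 * k ≤ n →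
    ∀ (t W : ℕ) (L : List ((Fin m × Edge n → Bool) → Bool))
      (out : Fin W → (Fin m × Edge n → Bool) → Bool) (D : (Fin W → Bool) → Prop),
      BC t L → (∀ j, Available L (out j)) →
      (∀ x, D (fun j => out j x) ↔ HasClqG m n k x) →
      (2 : ℝ) ^ t * (W + 1) ≤ m * (n : ℝ) ^ (2 - ε) →
      (n : ℝ) ^ (δ * min (k : ℝ) ((n : ℝ) ^ δ)) ≤ ((L.length + W : ℕ) : ℝ) := by
  classical
  obtain ⟨δ, hδ, k0, H⟩ := nl_rand ε hε
  obtain ⟨k1, hk1⟩ := ev_rpow (η := δ / 2) (by positivity) 4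
  refine ⟨δ / 2, by positivity, max (max k0 k1) 1, ?_⟩
  intro m n k hk hkn t W L out D hL hout hD hfree
  have hkk0 : k0 ≤ k := (le_max_left _ _).trans ((le_max_left _ _).trans hk)
  have hkk1 : k1 ≤ k := (le_max_right _ _).trans ((le_max_left _ _).trans hk)
  have hk1' : 1 ≤ k := (le_max_right _ _).trans hk
  have hnk1 : k1 ≤ n := by omega
  have hn1 : 1 ≤ n := by omega
  have hnR : (1 : ℝ) ≤ n := by exact_mod_cast hn1
  have hnpos : (0 : ℝ) < n := by linarith
  -- there is an input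
  have hn2 : 2 ≤ n := by omega
  have hm : 0 < m := by
    rcases Nat.eq_zero_or_pos m with h | h
    · exfalso
      rw [h, Nat.cast_zero, zero_mul] at hfree
      have : (0 : ℝ) < (2 : ℝ) ^ t * (W + 1) := by positivity
      linarith
    · exact h
  let e0 : Fin m × Edge n := (⟨0, hm⟩, ⟨{⟨0, by omega⟩, ⟨1, by omega⟩}, Finset.card_pair (by
    intro h
    have := congrArg Fin.val h
    simp at this)⟩)
  obtain ⟨C, h1, h2, h3⟩ := Pool.Agent.HM94.NI.to_rc (H := (Set.univ : Set (Fin m × Edge n)))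
    (fun _ => false) ⟨e0, trivial⟩ hL.toTProg out hout D
  have hacc : ∀ x : Fin m × Edge n → Bool, C.acc (fun e => x e.1) ↔ HasClqG m n k x :=
    fun x => (h3 x (fun e he => absurd trivial he)).trans (hD x)
  obtain ⟨u, hu⟩ := H m n k hkk0 hkn Unit ↥(Set.univ : Set (Fin m × Edge n)) (fun e => e.1)
    (fun _ => C) 0 (by
      intro x hx
      have h4 : {ρ : Unit | C.acc (fun i => x i.1)} = Set.univ := by
        ext ρ
        simp [(hacc x).mpr hx]
      rw [h4, Set.ncard_univ, Nat.card_eq_fintype_card, Fintype.card_unit, Nat.cast_one, mul_one,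
        zero_add]
      exact Real.rpow_le_one_of_one_le_of_nonpos hnR (by linarith)) (by
      intro x hx
      have h4 : {ρ : Unit | C.acc (fun i => x i.1)} = ∅ := by
        ext ρ
        simp only [Set.mem_setOf_eq, Set.mem_empty_iff_false, iff_false]
        exact fun h => hx ((hacc x).mp h)
      rw [h4, Set.ncard_empty]
      simp) (by
      intro ρ
      refine le_trans ?_ hfree
      exact_mod_cast h1)
  have h4 := hL.t_le
  have h5 : (C.size : ℝ) ≤ 2 * ((L.length + W : ℕ) : ℝ) + 1 := by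
    have : C.size ≤ 2 * (L.length + W) + 1 := by omega
    exact_mod_cast this
  have h6 := hu.trans h5
  set μ : ℝ := min (k : ℝ) ((n : ℝ) ^ δ) with hμ
  have hμ1 : 1 ≤ μ := le_min (by exact_mod_cast hk1') (Real.one_le_rpow hnR hδ.le)
  have hμ2 : min (k : ℝ) ((n : ℝ) ^ (δ / 2)) ≤ μ :=
    min_le_min le_rfl (Real.rpow_le_rpow_of_exponent_le hnR (by linarith))
  have hμ3 : 0 ≤ min (k : ℝ) ((n : ℝ) ^ (δ / 2)) := le_min (Nat.cast_nonneg _) (by positivity)
  have h7 : (n : ℝ) ^ (δ / 2 * min (k : ℝ) ((n : ℝ) ^ (δ / 2))) ≤ (n : ℝ) ^ (δ / 2 * μ) :=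
    Real.rpow_le_rpow_of_exponent_le hnR (mul_le_mul_of_nonneg_left hμ2 (by positivity))
  have h8 : (4 : ℝ) ≤ (n : ℝ) ^ (δ / 2 * μ) :=
    (hk1 n hnk1).trans (Real.rpow_le_rpow_of_exponent_le hnR (by nlinarith))
  have h9 : (n : ℝ) ^ (δ * μ) = (n : ℝ) ^ (δ / 2 * μ) * (n : ℝ) ^ (δ / 2 * μ) := by
    rw [← Real.rpow_add hnpos]
    congr 1
    ring
  rw [h9] at h6
  nlinarith

/-- polynomial size -/
theorem nl_poly (ε : ℝ) (hε : 0 < ε) (c : ℝ) : ∃ C : ℝ, ∃ k0 : ℕ, ∀ m n k : ℕ, k0 ≤ k →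
    (Real.log (m * n)) ^ C ≤ k → 2 * k ≤ n →
    ∀ (t W : ℕ) (L : List ((Fin m × Edge n → Bool) → Bool))
      (out : Fin W → (Fin m × Edge n → Bool) → Bool) (D : (Fin W → Bool) → Prop),
      BC t L → (∀ j, Available L (out j)) →
      (∀ x, D (fun j => out j x) ↔ HasClqG m n k x) →
      (2 : ℝ) ^ t * (W + 1) ≤ m * (n : ℝ) ^ (2 - ε) →
      ((m : ℝ) * n) ^ c < ((L.length + W : ℕ) : ℝ) := by
  classical
  obtain ⟨δ, hδ, k0, H⟩ := nl_bool ε hε
  obtain ⟨k1, hk1⟩ := ev_rpow (η := 1) one_pos (Real.exp (max 1 ((|c| + 1) / δ)))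
  refine ⟨2 / δ + 2, max (max k0 k1) 3, ?_⟩
  intro m n k hk hlog hkn t W L out D hL hout hD hfree
  have hkk0 : k0 ≤ k := (le_max_left _ _).trans ((le_max_left _ _).trans hk)
  have hkk1 : k1 ≤ k := (le_max_right _ _).trans ((le_max_left _ _).trans hk)
  have hk3 : 3 ≤ k := (le_max_right _ _).trans hk
  have hnk1 : k1 ≤ n := by omega
  have hn1 : 1 ≤ n := by omega
  have hnR : (1 : ℝ) ≤ n := by exact_mod_cast hn1
  have hnpos : (0 : ℝ) < n := by linarith
  have hm : 0 < m := by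
    rcases Nat.eq_zero_or_pos m with h | h
    · exfalso
      rw [h, Nat.cast_zero, zero_mul] at hfree
      have : (0 : ℝ) < (2 : ℝ) ^ t * (W + 1) := by positivity
      linarith
    · exact h
  have hmR : (1 : ℝ) ≤ m := by exact_mod_cast hm
  have hlogn : max 1 ((|c| + 1) / δ) ≤ Real.log n := by
    have h1 := hk1 n hnk1
    rw [Real.rpow_one] at h1
    rw [Real.le_log_iff_exp_le hnpos]
    exact h1
  set Λ : ℝ := Real.log (m * n) with hΛ
  have hlogΛ : Real.log n ≤ Λ := by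
    apply Real.log_le_log hnpos
    nlinarith
  have hΛ1 : 1 ≤ Λ := ((le_max_left _ _).trans hlogn).trans hlogΛ
  have hΛc : (|c| + 1) / δ ≤ Λ := ((le_max_right _ _).trans hlogn).trans hlogΛ
  have hmain := H m n k hkk0 hkn t W L out D hL hout hD hfree
  refine lt_of_lt_of_le ?_ hmain
  have hmin : Λ ^ (2 : ℝ) ≤ min (k : ℝ) ((n : ℝ) ^ δ) := by
    apply le_min
    · refine le_trans (Real.rpow_le_rpow_of_exponent_le hΛ1 ?_) hlog
      have : 0 < 2 / δ := by positivity
      linarith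
    · have h1 : (Λ ^ (2 / δ + 2)) ^ δ ≤ (n : ℝ) ^ δ := by
        apply Real.rpow_le_rpow (by positivity) _ hδ.le
        refine hlog.trans ?_
        exact_mod_cast (by omega : k ≤ n)
      refine le_trans ?_ h1
      rw [← Real.rpow_mul (by linarith)]
      apply Real.rpow_le_rpow_of_exponent_le hΛ1
      have : (2 / δ + 2) * δ = 2 + 2 * δ := by
        field_simp
      rw [this]
      linarith
  have hmn : (0 : ℝ) < (m : ℝ) * n := by positivity
  have h2 : ((m : ℝ) * n) ^ c = Real.exp (Λ * c) := by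
    rw [Real.rpow_def_of_pos hmn]
  have h3 : (n : ℝ) ^ (δ * min (k : ℝ) ((n : ℝ) ^ δ)) =
      Real.exp (Real.log n * (δ * min (k : ℝ) ((n : ℝ) ^ δ))) := by
    rw [Real.rpow_def_of_pos hnpos]
  rw [h2, h3, Real.exp_lt_exp]
  have h4 : Λ ^ (2 : ℝ) = Λ * Λ := by
    rw [show (2 : ℝ) = ((2 : ℕ) : ℝ) by norm_num, Real.rpow_natCast, pow_two]
  rw [h4] at hmin
  have h5 : |c| + 1 ≤ δ * Λ := by
    rw [div_le_iff₀ hδ] at hΛc
    linarith
  have hlogn1 : 1 ≤ Real.log n := (le_max_left _ _).trans hlogn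
  calc Λ * c ≤ Λ * |c| := mul_le_mul_of_nonneg_left (le_abs_self c) (by linarith)
    _ < Λ * (δ * Λ) := by
        apply mul_lt_mul_of_pos_left _ (by linarith)
        linarith
    _ = 1 * (δ * (Λ * Λ)) := by ring
    _ ≤ Real.log n * (δ * min (k : ℝ) ((n : ℝ) ^ δ)) := by
        apply mul_le_mul hlogn1 _ (by positivity) (by linarith)
        exact mul_le_mul_of_nonneg_left hmin hδ.le

end Pool.Agent.H10x.NL
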