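import Pool.Agent.H10x.NL.Stm3

/-!
# Piece CNT: the number of satisfying assignments of the 2-CNF formula of a graph
-/

set_option autoImplicit false

namespace Pool.Agent.H10x.NL

open Finset Pool.Agent.W969.MC

namespace CNT

variable {n b N : ℕ} (cp : Fin n × Fin b ↪ Fin N)

open Classical in
/-- the vertices of the variables of a clause -/
noncomputable def E (c : Cls N) : Finset (Fin n) :=
  univ.filter fun v => ∃ p ∈ c.1, ∃ i, cp (v, i) = p.1

theorem mem_E {c : Cls N} {v : Fin n} : v ∈ E cp c ↔ ∃ p ∈ c.1, ∃ i, cp (v, i) = p.1 := by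
  unfold E
  simp

open Classical in
/-- the bit of a clause -/
noncomputable def dd (c : Cls N) : Edg n ⊕ Bool :=
  if h : (∀ p ∈ c.1, p.2 = false) ∧ (E cp c).card = 2 then Sum.inl ⟨E cp c, h.2⟩
  else Sum.inr (decide (∃ w, c.1 = {(w, false)} ∧ ∀ q, cp q ≠ w))

/-- the formula of a graph -/
noncomputable def xx (y : Edg n → Bool) (c : Cls N) : Bool :=
  Sum.elim (fun e => !y e) (fun β => β) (dd cp c)

/-- the satisfying assignments -/
def Sat (y : Edg n → Bool) (α : Fin N → Bool) : Prop :=
  (∀ w, (∀ q, cp q ≠ w) → α w = false) ∧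
    ∀ u i v j, α (cp (u, i)) = true → α (cp (v, j)) = true →
      ∀ h : ({u, v} : Finset (Fin n)).card = 2, y ⟨{u, v}, h⟩ = true

theorem sat_iff (y : Edg n → Bool) (α : Fin N → Bool) :
    (∀ c : Cls N, xx cp y c = true → ∃ p ∈ c.1, α p.1 = p.2) ↔ Sat cp y α := by
  classical
  constructor
  · intro hα
    refine ⟨fun w hw => ?_, fun u i v j hu hv h => ?_⟩
    · have h1 := hα ⟨{(w, false)}, by simp⟩ (by
        unfold xx dd
        have hE : E cp ⟨{(w, false)}, by simp⟩ = ∅ := by
          ext v
          rw [mem_E]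
          simp only [mem_singleton, exists_eq_left, notMem_empty, iff_false, not_exists]
          intro i hi
          exact hw _ hi
        rw [dif_neg (by rw [hE]; simp)]
        simp only [Sum.elim_inr, decide_eq_true_eq]
        exact ⟨w, rfl, hw⟩)
      simpa using h1
    · by_contra hy
      have hy' : y ⟨{u, v}, h⟩ = false := by simpa using hy
      have hcard : ({(cp (u, i), false), (cp (v, j), false)} : Finset (Fin N × Bool)).card ≤ 2 :=
        card_le_two
      have hE : E cp ⟨{(cp (u, i), false), (cp (v, j), false)}, hcard⟩ = {u, v} := by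
        ext z
        rw [mem_E]
        simp only [mem_insert, mem_singleton, exists_eq_or_imp, exists_eq_left,
          EmbeddingLike.apply_eq_iff_eq, Prod.mk.injEq, exists_and_left]
        constructor
        · rintro (⟨h1, _⟩ | ⟨h1, _⟩)
          · exact Or.inl h1
          · exact Or.inr h1
        · rintro (h1 | h1)
          · exact Or.inl ⟨h1, i, rfl⟩
          · exact Or.inr ⟨h1, j, rfl⟩
      have h1 := hα ⟨{(cp (u, i), false), (cp (v, j), false)}, hcard⟩ (by
        unfold xx dd
        have hc : (∀ p ∈ ({(cp (u, i), false), (cp (v, j), false)} : Finset (Fin N × Bool)),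
            p.2 = false) ∧
            (E cp ⟨{(cp (u, i), false), (cp (v, j), false)}, hcard⟩).card = 2 := by
          refine ⟨?_, by rw [hE]; exact h⟩
          intro p hp
          simp only [mem_insert, mem_singleton] at hp
          rcases hp with rfl | rfl <;> rfl
        rw [dif_pos hc]
        simp only [Sum.elim_inl, Bool.not_eq_true']
        have hEE : (⟨E cp ⟨{(cp (u, i), false), (cp (v, j), false)}, hcard⟩, hc.2⟩ : Edg n) =
            ⟨{u, v}, h⟩ := Subtype.ext hE
        exact (congrArg y hEE).trans hy')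
      obtain ⟨p, hp, hp'⟩ := h1
      simp only [mem_insert, mem_singleton] at hp
      rcases hp with rfl | rfl
      · rw [hu] at hp'
        exact Bool.noConfusion hp'
      · rw [hv] at hp'
        exact Bool.noConfusion hp'
  · rintro ⟨h1, h2⟩ c hc
    unfold xx dd at hc
    split_ifs at hc with hd
    · simp only [Sum.elim_inl, Bool.not_eq_true'] at hc
      obtain ⟨u, v, huv, huv'⟩ := card_eq_two.1 hd.2
      have hu : u ∈ E cp c := by rw [huv']; simp
      have hv : v ∈ E cp c := by rw [huv']; simp
      rw [mem_E] at hu hv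
      obtain ⟨p, hp, i, hi⟩ := hu
      obtain ⟨p', hp', j, hj⟩ := hv
      by_contra hno
      push Not at hno
      have h3 : α (cp (u, i)) = true := by
        have := hno p hp
        rw [hd.1 p hp] at this
        rw [hi]
        simpa using this
      have h4 : α (cp (v, j)) = true := by
        have := hno p' hp'
        rw [hd.1 p' hp'] at this
        rw [hj]
        simpa using this
      have h5 := h2 u i v j h3 h4 (card_pair huv)
      have h6 : (⟨E cp c, hd.2⟩ : Edg n) = ⟨{u, v}, card_pair huv⟩ := Subtype.ext huv'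
      rw [h6, h5] at hc
      exact Bool.noConfusion hc
    · simp only [Sum.elim_inr, decide_eq_true_eq] at hc
      obtain ⟨w, hw, hw'⟩ := hc
      refine ⟨(w, false), by rw [hw]; simp, h1 w hw'⟩

open Classical in
theorem nSat_eq (y : Edg n → Bool) :
    nSat (fun c => Sum.elim (fun e => !y e) (fun β => β) (dd cp c)) =
      ((univ : Finset (Fin N → Bool)).filter fun α => Sat cp y α).card := by
  unfold nSat
  have h1 : {α : Fin N → Bool | ∀ c : Cls N,
      Sum.elim (fun e => !y e) (fun β => β) (dd cp c) = true → ∃ p ∈ c.1, α p.1 = p.2} =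
      (((univ : Finset (Fin N → Bool)).filter fun α => Sat cp y α : Finset (Fin N → Bool)) :
        Set (Fin N → Bool)) := by
    ext α
    simp only [Set.mem_ofPred_eq, coe_filter, mem_univ, true_and]
    exact sat_iff cp y α
  rw [h1, Set.ncard_coe_finset]

theorem lower {k : ℕ} {y : Edg n → Bool} (h : HasClq n 2 k y) :
    2 ^ (b * k) ≤ nSat (fun c => Sum.elim (fun e => !y e) (fun β => β) (dd cp c)) := by
  classical
  obtain ⟨K, hK, hK'⟩ := h
  rw [nSat_eq]
  have hcard : (K ×ˢ (univ : Finset (Fin b))).powerset.card = 2 ^ (b * k) := by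
    rw [card_powerset, card_product, hK, card_univ, Fintype.card_fin, mul_comm]
  rw [← hcard]
  refine card_le_card_of_injOn (fun T w => decide (∃ p ∈ T, cp p = w)) ?_ ?_
  · intro T hT
    have hT' : T ⊆ K ×ˢ (univ : Finset (Fin b)) := mem_powerset.1 (mem_coe.1 hT)
    simp only [coe_filter, mem_univ, true_and, Set.mem_ofPred_eq]
    refine ⟨fun w hw => ?_, fun u i v j hu hv hc => ?_⟩
    · simp only [decide_eq_false_iff_not, not_exists, not_and]
      intro p _
      exact hw p
    · simp only [EmbeddingLike.apply_eq_iff_eq, exists_eq_right, decide_eq_true_eq] at hu hv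
      refine hK' _ ?_
      intro z hz
      simp only [mem_insert, mem_singleton] at hz
      rcases hz with rfl | rfl
      · exact (mem_product.1 (hT' hu)).1
      · exact (mem_product.1 (hT' hv)).1
  · intro T _ T' _ hTT
    ext p
    have h1 := congrFun hTT (cp p)
    simp only [EmbeddingLike.apply_eq_iff_eq, exists_eq_right, decide_eq_decide] at h1
    exact h1

theorem upper {k : ℕ} (hk : 1 ≤ k) {y : Edg n → Bool} (h : ¬ HasClq n 2 k y) :
    nSat (fun c => Sum.elim (fun e => !y e) (fun β => β) (dd cp c)) ≤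
      (n + 1) ^ (k - 1) * 2 ^ (b * (k - 1)) := by
  classical
  rw [nSat_eq]
  have hcard : ((univ : Finset ((Fin (k - 1) → Option (Fin n)) ×
      (Fin (k - 1) → Fin b → Bool)))).card = (n + 1) ^ (k - 1) * 2 ^ (b * (k - 1)) := by
    rw [card_univ, Fintype.card_prod, Fintype.card_fun, Fintype.card_fun, Fintype.card_fun,
      Fintype.card_option, Fintype.card_fin, Fintype.card_fin, Fintype.card_fin,
      Fintype.card_bool, ← pow_mul]
  rw [← hcard]
  refine card_le_card_of_surjOn (fun p : (Fin (k - 1) → Option (Fin n)) ×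
      (Fin (k - 1) → Fin b → Bool) => fun w : Fin N =>
        decide (∃ j v i, p.1 j = some v ∧ w = cp (v, i) ∧ p.2 j i = true)) ?_
  intro α hα
  simp only [coe_filter, mem_univ, true_and, Set.mem_ofPred_eq] at hα
  obtain ⟨h1, h2⟩ := hα
  set S : Finset (Fin n) := univ.filter fun v => ∃ i, α (cp (v, i)) = true with hS
  have hSk : S.card ≤ k - 1 := by
    by_contra hlt
    have hlt' : k ≤ S.card := by omega
    obtain ⟨K, hKS, hK⟩ := exists_subset_card_eq hlt'
    refine h ⟨K, hK, fun e he => ?_⟩
    obtain ⟨u, v, huv, huv'⟩ := card_eq_two.1 e.2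
    have hu : u ∈ S := hKS (he (by rw [huv']; simp))
    have hv : v ∈ S := hKS (he (by rw [huv']; simp))
    rw [hS, mem_filter] at hu hv
    obtain ⟨_, i, hi⟩ := hu
    obtain ⟨_, j, hj⟩ := hv
    have h3 := h2 u i v j hi hj (card_pair huv)
    have h4 : e = ⟨{u, v}, card_pair huv⟩ := Subtype.ext huv'
    rw [h4]
    exact h3
  refine ⟨(fun j => S.toList[(j : ℕ)]?, fun j i => match S.toList[(j : ℕ)]? with
    | some v => α (cp (v, i))
    | none => false), by simp, ?_⟩
  funext w
  rw [Bool.eq_iff_iff, decide_eq_true_iff]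
  constructor
  · rintro ⟨j, v, i, hj, rfl, hi⟩
    dsimp only at hj hi
    rw [hj] at hi
    exact hi
  · intro hw
    have hw' : ∃ q, cp q = w := by
      by_contra hno
      push Not at hno
      rw [h1 w hno] at hw
      exact Bool.noConfusion hw
    obtain ⟨⟨v, i⟩, rfl⟩ := hw'
    have hv : v ∈ S.toList := by
      rw [mem_toList, hS, mem_filter]
      exact ⟨mem_univ _, i, hw⟩
    obtain ⟨j, hj⟩ := List.mem_iff_getElem?.1 hv
    have hjk : j < k - 1 := by
      obtain ⟨hlt, _⟩ := List.getElem?_eq_some_iff.1 hj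
      rw [length_toList] at hlt
      omega
    refine ⟨⟨j, hjk⟩, v, i, hj, rfl, ?_⟩
    dsimp only
    rw [hj]
    exact hw

end CNT

theorem t_CNT : S_CNT := by
  intro n b N k hb hk hN
  have h1 : Nonempty (Fin n × Fin b ↪ Fin N) := by
    refine Function.Embedding.nonempty_of_card_le ?_
    rw [Fintype.card_prod, Fintype.card_fin, Fintype.card_fin, Fintype.card_fin]
    exact hN
  obtain ⟨cp⟩ := h1
  exact ⟨CNT.dd cp, fun y => ⟨CNT.lower cp, CNT.upper cp hk⟩⟩

end Pool.Agent.H10x.NL
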