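import Pool.Agent.H10x.NL.Stm2

/-!
# Piece PACK of project NL (helper61 for helper10): dense packings of blocks
-/

set_option autoImplicit false
set_option linter.all false

namespace Pool.Agent.H10x.NL

open Finset

namespace PK

theorem card_bad {Λ : Type} [Fintype Λ] [DecidableEq Λ] (Q : ℕ) (A : Finset Λ) (c : Fin Q) :
    (univ.filter fun f : Λ → Fin Q => ∀ l ∈ A, f l = c).card * Q ^ A.card = Q ^ Fintype.card Λ := by
  have h : (univ.filter fun f : Λ → Fin Q => ∀ l ∈ A, f l = c) =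
      Fintype.piFinset fun l => if l ∈ A then {c} else univ := by
    ext f
    rw [mem_filter, Fintype.mem_piFinset]
    constructor
    · intro hf l
      by_cases hl : l ∈ A
      · rw [if_pos hl, mem_singleton]; exact hf.2 l hl
      · rw [if_neg hl]; exact mem_univ _
    · intro hf
      refine ⟨mem_univ _, fun l hl => ?_⟩
      have := hf l
      rw [if_pos hl, mem_singleton] at this
      exact this
  rw [h, Fintype.card_piFinset]
  have h1 : Q ^ A.card = ∏ l : Λ, if l ∈ A then Q else 1 := by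
    rw [Finset.prod_ite_mem, univ_inter, prod_const]
  rw [h1, ← prod_mul_distrib]
  have h2 : ∀ l : Λ, ((if l ∈ A then ({c} : Finset (Fin Q)) else univ).card *
      if l ∈ A then Q else 1) = Q := by
    intro l
    by_cases hl : l ∈ A
    · rw [if_pos hl, if_pos hl, card_singleton, one_mul]
    · rw [if_neg hl, if_neg hl, card_univ, Fintype.card_fin, mul_one]
  rw [prod_congr rfl fun l _ => h2 l, prod_const, card_univ]

theorem union_bound {Λ ι : Type} [Fintype Λ] [DecidableEq Λ] (Q : ℕ) (hQ : 0 < Q) (I : Finset ι)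
    (A : ι → Finset Λ) (h : ∑ i ∈ I, (Q : ℝ) / (Q : ℝ) ^ (A i).card < 1) :
    ∃ f : Λ → Fin Q, ∀ i ∈ I, ∀ c, ∃ l ∈ A i, f l ≠ c := by
  classical
  by_contra hcon
  push Not at hcon
  have hQ' : (0 : ℝ) < Q := by exact_mod_cast hQ
  have h1 : (univ : Finset (Λ → Fin Q)) ⊆
      I.biUnion fun i => univ.biUnion fun c : Fin Q => univ.filter fun f => ∀ l ∈ A i, f l = c := by
    intro f _
    obtain ⟨i, hi, c, hc⟩ := hcon f
    rw [mem_biUnion]
    refine ⟨i, hi, ?_⟩
    rw [mem_biUnion]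
    exact ⟨c, mem_univ _, by rw [mem_filter]; exact ⟨mem_univ _, hc⟩⟩
  have h2 := (card_le_card h1).trans (card_biUnion_le.trans
    (sum_le_sum fun i _ => card_biUnion_le))
  rw [card_univ, Fintype.card_fun, Fintype.card_fin] at h2
  have h3 : ((Q : ℝ) ^ Fintype.card Λ) ≤ ∑ i ∈ I, ∑ c : Fin Q,
      ((univ.filter fun f : Λ → Fin Q => ∀ l ∈ A i, f l = c).card : ℝ) := by
    exact_mod_cast h2
  have h4 : ∀ i ∈ I, ∑ c : Fin Q,
      ((univ.filter fun f : Λ → Fin Q => ∀ l ∈ A i, f l = c).card : ℝ) =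
      (Q : ℝ) ^ Fintype.card Λ * ((Q : ℝ) / (Q : ℝ) ^ (A i).card) := by
    intro i _
    have h5 : ∀ c : Fin Q, ((univ.filter fun f : Λ → Fin Q => ∀ l ∈ A i, f l = c).card : ℝ) =
        (Q : ℝ) ^ Fintype.card Λ / (Q : ℝ) ^ (A i).card := by
      intro c
      rw [eq_div_iff (by positivity)]
      exact_mod_cast card_bad Q (A i) c
    rw [sum_congr rfl fun c _ => h5 c, sum_const, card_univ, Fintype.card_fin, nsmul_eq_mul]
    ring
  rw [sum_congr rfl h4, ← mul_sum] at h3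
  have h6 : (0 : ℝ) < (Q : ℝ) ^ Fintype.card Λ := by positivity
  nlinarith [mul_lt_mul_of_pos_left h h6]

/-- the colouring -/
theorem colour {n B : ℕ} {Λ : Type} [Fintype Λ] [DecidableEq Λ] (pt : Λ → Fin B → Fin n)
    (hB : 2 ≤ B) (hn : 0 < n) (hΛ : Fintype.card Λ ≤ n ^ 2) (lt : Fin n → Fin n → Λ) :
    ∃ f : Λ → Fin (B ^ 2),
      (∀ (c : Fin (B ^ 2)) (x : Fin n) (ℓ : Λ) (b : Fin (3 * Nat.log 2 n + 7) → Fin B),
        (univ.image fun i => lt x (pt ℓ (b i))).card = 3 * Nat.log 2 n + 7 →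
        ∃ i, f (lt x (pt ℓ (b i))) ≠ c) ∧
      ∀ (c : Fin (B ^ 2)) (z : Fin (Nat.log 2 n + 4) → Fin n),
        ((univ.filter fun q : Fin (Nat.log 2 n + 4) × Fin (Nat.log 2 n + 4) => q.1 < q.2).image
          fun q => lt (z q.1) (z q.2)).card = (Nat.log 2 n + 4) * (Nat.log 2 n + 3) / 2 →
        ∃ i j, i < j ∧ f (lt (z i) (z j)) ≠ c := by
  classical
  set L := Nat.log 2 n with hL
  have hn2 : n < B ^ (L + 1) := by
    have h1 : n < 2 ^ (L + 1) := Nat.lt_pow_succ_log_self (by norm_num) n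
    exact h1.trans_le (Nat.pow_le_pow_left hB _)
  have hB0 : 0 < B := by omega
  have hB4 : 4 ≤ B ^ 2 := by nlinarith
  -- the two families
  let ι₁ := Fin n × Λ × (Fin (3 * L + 7) → Fin B)
  let ι₂ := Fin (L + 4) → Fin n
  let A₁ : ι₁ → Finset Λ := fun w => univ.image fun i => lt w.1 (pt w.2.1 (w.2.2 i))
  let A₂ : ι₂ → Finset Λ := fun z =>
    (univ.filter fun q : Fin (L + 4) × Fin (L + 4) => q.1 < q.2).image fun q => lt (z q.1) (z q.2)
  let I₁ : Finset ι₁ := univ.filter fun w => (A₁ w).card = 3 * L + 7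
  let I₂ : Finset ι₂ := univ.filter fun z => (A₂ z).card = (L + 4) * (L + 3) / 2
  have hQ : 0 < B ^ 2 := by positivity
  have hQr : (0 : ℝ) < ((B ^ 2 : ℕ) : ℝ) := by exact_mod_cast hQ
  have hodd : (L + 4) * (L + 3) / 2 * 2 = (L + 4) * (L + 3) := by
    apply Nat.div_mul_cancel
    have : Even ((L + 3) * (L + 3 + 1)) := Nat.even_mul_succ_self (L + 3)
    rw [mul_comm]
    exact this.two_dvd
  have c1 : 4 * (n * n ^ 2 * B ^ (3 * L + 7)) * B ^ 2 ≤ (B ^ 2) ^ (3 * L + 7) := by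
    have h1 : n * n ^ 2 ≤ B ^ (3 * (L + 1)) := by
      calc n * n ^ 2 = n ^ 3 := by ring
        _ ≤ (B ^ (L + 1)) ^ 3 := Nat.pow_le_pow_left hn2.le 3
        _ = B ^ (3 * (L + 1)) := by rw [← pow_mul]; congr 1; ring
    calc 4 * (n * n ^ 2 * B ^ (3 * L + 7)) * B ^ 2
        ≤ B ^ 2 * (B ^ (3 * (L + 1)) * B ^ (3 * L + 7)) * B ^ 2 := by gcongr
      _ = (B ^ 2) ^ (3 * L + 7) := by
          rw [← pow_add, ← pow_add, ← pow_add, ← pow_mul]
          congr 1
          ring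
  have c2 : 4 * n ^ (L + 4) * B ^ 2 ≤ (B ^ 2) ^ ((L + 4) * (L + 3) / 2) := by
    calc 4 * n ^ (L + 4) * B ^ 2 ≤ B ^ 2 * (B ^ (L + 1)) ^ (L + 4) * B ^ 2 := by gcongr
      _ = B ^ (4 + (L + 1) * (L + 4)) := by
          rw [← pow_mul, ← pow_add, ← pow_add]
          congr 1
          ring
      _ ≤ B ^ ((L + 4) * (L + 3)) := by
          apply Nat.pow_le_pow_right hB0
          nlinarith
      _ = (B ^ 2) ^ ((L + 4) * (L + 3) / 2) := by
          rw [← pow_mul, mul_comm 2, hodd]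
  have s1 : ∑ w ∈ I₁, ((B ^ 2 : ℕ) : ℝ) / ((B ^ 2 : ℕ) : ℝ) ^ (A₁ w).card ≤ 1 / 4 := by
    have h1 : ∀ w ∈ I₁, ((B ^ 2 : ℕ) : ℝ) / ((B ^ 2 : ℕ) : ℝ) ^ (A₁ w).card =
        ((B ^ 2 : ℕ) : ℝ) / ((B ^ 2 : ℕ) : ℝ) ^ (3 * L + 7) := by
      intro w hw
      rw [(mem_filter.1 hw).2]
    rw [sum_congr rfl h1, sum_const, nsmul_eq_mul, ← mul_div_assoc, div_le_iff₀ (by positivity)]
    have h2 : I₁.card ≤ n * n ^ 2 * B ^ (3 * L + 7) := by
      refine (card_le_univ _).trans ?_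
      simp only [ι₁, Fintype.card_prod, Fintype.card_fin, Fintype.card_fun]
      rw [mul_assoc]
      gcongr
    have h3 : 4 * I₁.card * B ^ 2 ≤ (B ^ 2) ^ (3 * L + 7) := le_trans (by gcongr) c1
    have h4 : (4 : ℝ) * I₁.card * ((B ^ 2 : ℕ) : ℝ) ≤ ((B ^ 2 : ℕ) : ℝ) ^ (3 * L + 7) := by
      exact_mod_cast h3
    linarith
  have s2 : ∑ w ∈ I₂, ((B ^ 2 : ℕ) : ℝ) / ((B ^ 2 : ℕ) : ℝ) ^ (A₂ w).card ≤ 1 / 4 := by
    have h1 : ∀ w ∈ I₂, ((B ^ 2 : ℕ) : ℝ) / ((B ^ 2 : ℕ) : ℝ) ^ (A₂ w).card =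
        ((B ^ 2 : ℕ) : ℝ) / ((B ^ 2 : ℕ) : ℝ) ^ ((L + 4) * (L + 3) / 2) := by
      intro w hw
      rw [(mem_filter.1 hw).2]
    rw [sum_congr rfl h1, sum_const, nsmul_eq_mul, ← mul_div_assoc, div_le_iff₀ (by positivity)]
    have h2 : I₂.card ≤ n ^ (L + 4) := by
      refine (card_le_univ _).trans ?_
      simp only [ι₂, Fintype.card_fin, Fintype.card_fun]
      exact le_refl _
    have h3 : 4 * I₂.card * B ^ 2 ≤ (B ^ 2) ^ ((L + 4) * (L + 3) / 2) := le_trans (by gcongr) c2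
    have h4 : (4 : ℝ) * I₂.card * ((B ^ 2 : ℕ) : ℝ) ≤
        ((B ^ 2 : ℕ) : ℝ) ^ ((L + 4) * (L + 3) / 2) := by
      exact_mod_cast h3
    linarith
  obtain ⟨f, hf⟩ := union_bound (Λ := Λ) (B ^ 2) hQ (I₁.disjSum I₂) (Sum.elim A₁ A₂) (by
    rw [sum_disjSum]
    simp only [Sum.elim_inl, Sum.elim_inr]
    linarith)
  refine ⟨f, ?_, ?_⟩
  · intro c x ℓ b hcard
    obtain ⟨l, hl, hlc⟩ := hf (Sum.inl (x, ℓ, b)) (by
      rw [inl_mem_disjSum, mem_filter]
      exact ⟨mem_univ _, hcard⟩) c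
    simp only [Sum.elim_inl, A₁, mem_image, mem_univ, true_and] at hl
    obtain ⟨i, rfl⟩ := hl
    exact ⟨i, hlc⟩
  · intro c z hcard
    obtain ⟨l, hl, hlc⟩ := hf (Sum.inr z) (by
      rw [inr_mem_disjSum, mem_filter]
      exact ⟨mem_univ _, hcard⟩) c
    simp only [Sum.elim_inr, A₂, mem_image, mem_filter, mem_univ, true_and] at hl
    obtain ⟨⟨i, j⟩, hij, rfl⟩ := hl
    exact ⟨i, j, hij, hlc⟩

/-- the greedy choice of points in general position -/
theorem greedy {V I : Type} [DecidableEq V] (inc : I → V → Prop) [∀ i v, Decidable (inc i v)]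
    (hu : ∀ i j v w, v ≠ w → inc i v → inc i w → inc j v → inc j w → i = j)
    (T : Finset V) (s c0 : ℕ) (hc0 : c0 ≤ 4 * s) (hT : 4 * s ^ 3 ≤ T.card)
    (hb : ∀ i, (T.filter fun v => inc i v).card ≤ c0) :
    ∀ m ≤ s, ∃ Z : Finset V, Z ⊆ T ∧ Z.card = m ∧
      ∀ i, ∀ x ∈ Z, ∀ y ∈ Z, ∀ z ∈ Z, x ≠ y → x ≠ z → y ≠ z → inc i x → inc i y → ¬ inc i z := by
  classical
  intro m
  induction m with
  | zero => exact fun _ => ⟨∅, by simp, by simp, by simp⟩
  | succ m ih =>
    intro hm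
    obtain ⟨Z, hZT, hZc, hZ⟩ := ih (by omega)
    -- the forbidden points
    let F : V × V → Finset V := fun q => T.filter fun v => q.1 ≠ q.2 ∧ ∃ i, inc i q.1 ∧ inc i q.2 ∧ inc i v
    have hF : ∀ q, (F q).card ≤ c0 := by
      intro q
      by_cases hq : q.1 ≠ q.2 ∧ ∃ i, inc i q.1 ∧ inc i q.2
      · obtain ⟨hq, i, h1, h2⟩ := hq
        refine le_trans (card_le_card ?_) (hb i)
        intro v hv
        rw [mem_filter] at hv ⊢
        obtain ⟨hvT, -, j, h3, h4, h5⟩ := hv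
        have : i = j := hu i j q.1 q.2 hq h1 h2 h3 h4
        exact ⟨hvT, this ▸ h5⟩
      · have : F q = ∅ := by
          rw [filter_eq_empty_iff]
          rintro v - ⟨h1, i, h2, h3, -⟩
          exact hq ⟨h1, i, h2, h3⟩
        rw [this, card_empty]
        exact Nat.zero_le _
    let U : Finset V := Z ∪ (Z ×ˢ Z).biUnion F
    have hU : U.card < T.card := by
      have h1 : U.card ≤ m + m * m * c0 := by
        refine (card_union_le _ _).trans ?_
        rw [hZc]
        refine Nat.add_le_add_left (card_biUnion_le.trans ?_) _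
        refine (sum_le_sum fun q _ => hF q).trans ?_
        rw [sum_const, card_product, hZc, smul_eq_mul]
      have hms : m + 1 ≤ s := hm
      have h2 : m + m * m * c0 < 4 * s ^ 3 := by
        have h3 : m * m * c0 ≤ m * m * (4 * s) := Nat.mul_le_mul_left _ hc0
        have h4 : m * m ≤ (s - 1) * (s - 1) := Nat.mul_le_mul (by omega) (by omega)
        obtain ⟨t, rfl⟩ : ∃ t, s = t + 1 := ⟨s - 1, by omega⟩
        simp only [Nat.add_sub_cancel] at h4
        have h5 : m * m * (4 * (t + 1)) ≤ t * t * (4 * (t + 1)) := Nat.mul_le_mul_right _ h4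
        have h6 : m ≤ t := by omega
        nlinarith
      omega
    obtain ⟨w, hwT, hwU⟩ := exists_mem_notMem_of_card_lt_card hU
    have hwZ : w ∉ Z := fun h => hwU (mem_union_left _ h)
    have hwF : ∀ x ∈ Z, ∀ y ∈ Z, x ≠ y → ∀ i, inc i x → inc i y → ¬ inc i w := by
      intro x hx y hy hxy i h1 h2 h3
      apply hwU
      refine mem_union_right _ ?_
      rw [mem_biUnion]
      refine ⟨(x, y), mem_product.2 ⟨hx, hy⟩, ?_⟩
      rw [mem_filter]
      exact ⟨hwT, hxy, i, h1, h2, h3⟩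
    refine ⟨insert w Z, ?_, ?_, ?_⟩
    · intro v hv
      rcases mem_insert.1 hv with rfl | hv
      · exact hwT
      · exact hZT hv
    · rw [card_insert_of_notMem hwZ, hZc]
    · intro i x hx y hy z hz hxy hxz hyz h1 h2 h3
      rcases mem_insert.1 hx with ex | hx'
      · rcases mem_insert.1 hy with ey | hy'
        · exact hxy (ex.trans ey.symm)
        · rcases mem_insert.1 hz with ez | hz'
          · exact hxz (ex.trans ez.symm)
          · exact hwF y hy' z hz' hyz i h2 h3 (ex ▸ h1)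
      · rcases mem_insert.1 hy with ey | hy'
        · rcases mem_insert.1 hz with ez | hz'
          · exact hyz (ey.trans ez.symm)
          · exact hwF x hx' z hz' hxz i h1 h3 (ey ▸ h2)
        · rcases mem_insert.1 hz with ez | hz'
          · exact hwF x hx' y hy' hxy i h1 h2 (ez ▸ h3)
          · exact hZ i x hx' y hy' z hz' hxy hxz hyz h1 h2 h3

/-- the points on the lines of an affine plane -/
theorem geometry {n B p : ℕ} [hp : Fact p.Prime] (hBp : B ≤ p) (hn : B * p ≤ n) :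
    ∃ pt : ZMod p × ZMod p → Fin B → Fin n, (∀ ℓ, Function.Injective (pt ℓ)) ∧
      ∀ ℓ ℓ' a b a' b', a ≠ b → pt ℓ a = pt ℓ' a' → pt ℓ b = pt ℓ' b' → ℓ = ℓ' := by
  have hp0 : 0 < p := hp.out.pos
  haveI : NeZero p := ⟨hp0.ne'⟩
  have hlt : ∀ (a : Fin B) (y : ZMod p), (a : ℕ) * p + y.val < n := by
    intro a y
    have h1 : (a : ℕ) + 1 ≤ B := a.2
    have h2 := ZMod.val_lt y
    have h3 : ((a : ℕ) + 1) * p ≤ B * p := Nat.mul_le_mul_right _ h1
    have h4 : ((a : ℕ) + 1) * p = (a : ℕ) * p + p := by ring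
    omega
  have hinj : ∀ (a a' : Fin B) (y y' : ZMod p), (a : ℕ) * p + y.val = (a' : ℕ) * p + y'.val →
      a = a' ∧ y = y' := by
    intro a a' y y' h
    have h1 := ZMod.val_lt y
    have h2 := ZMod.val_lt y'
    have h3 : ((a : ℕ) * p + y.val) / p = (a : ℕ) := by
      rw [mul_comm, Nat.mul_add_div hp0, Nat.div_eq_of_lt h1, add_zero]
    have h4 : ((a' : ℕ) * p + y'.val) / p = (a' : ℕ) := by
      rw [mul_comm, Nat.mul_add_div hp0, Nat.div_eq_of_lt h2, add_zero]
    have h5 : (a : ℕ) = a' := by rw [← h3, ← h4, h]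
    refine ⟨Fin.ext h5, ?_⟩
    rw [h5] at h
    exact ZMod.val_injective p (Nat.add_left_cancel h)
  refine ⟨fun ℓ a => ⟨(a : ℕ) * p + (ℓ.1 * ((a : ℕ) : ZMod p) + ℓ.2).val, hlt a _⟩, ?_, ?_⟩
  · intro ℓ a a' h
    exact (hinj _ _ _ _ (congrArg Fin.val h)).1
  · intro ℓ ℓ' a b a' b' hab h1 h2
    obtain ⟨e1, e2⟩ := hinj _ _ _ _ (congrArg Fin.val h1)
    obtain ⟨e3, e4⟩ := hinj _ _ _ _ (congrArg Fin.val h2)
    subst e1
    subst e3
    have hne : (((a : ℕ) : ZMod p) - ((b : ℕ) : ZMod p)) ≠ 0 := by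
      intro h
      have h5 : ((a : ℕ) : ZMod p) = ((b : ℕ) : ZMod p) := sub_eq_zero.1 h
      rw [ZMod.natCast_eq_natCast_iff'] at h5
      rw [Nat.mod_eq_of_lt (a.2.trans_le hBp), Nat.mod_eq_of_lt (b.2.trans_le hBp)] at h5
      exact hab (Fin.ext h5)
    have h6 : (ℓ.1 - ℓ'.1) * (((a : ℕ) : ZMod p) - ((b : ℕ) : ZMod p)) = 0 := by
      linear_combination e2 - e4
    have h7 : ℓ.1 = ℓ'.1 := sub_eq_zero.1 ((mul_eq_zero.1 h6).resolve_right hne)
    refine Prod.ext h7 ?_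
    rw [h7] at e2
    exact add_left_cancel e2

end PK

theorem t_PACK : S_PACK := by
  classical
  intro n B K hB hn hK
  have hB0 : 0 < B := by omega
  have hn0 : 0 < n := by nlinarith
  -- the prime
  have hq0 : n / (2 * B) ≠ 0 := by
    have : 1 ≤ n / (2 * B) := by
      rw [Nat.one_le_div_iff (by omega)]
      nlinarith
    omega
  obtain ⟨p, hp, hp1, hp2⟩ := Nat.exists_prime_lt_and_le_two_mul (n / (2 * B)) hq0
  haveI : Fact p.Prime := ⟨hp⟩
  have hdiv : 2 * B * (n / (2 * B)) ≤ n := Nat.mul_div_le n (2 * B)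
  have hBpn : B * p ≤ n := by
    calc B * p ≤ B * (2 * (n / (2 * B))) := Nat.mul_le_mul_left _ hp2
      _ = 2 * B * (n / (2 * B)) := by ring
      _ ≤ n := hdiv
  have hnp : n < 2 * B * p := by
    have h1 := Nat.lt_mul_div_succ n (show 0 < 2 * B by omega)
    have h2 : 2 * B * (n / (2 * B) + 1) ≤ 2 * B * p := Nat.mul_le_mul_left _ hp1
    exact lt_of_lt_of_le h1 h2
  have hBp : B ≤ p := by
    by_contra h
    push Not at h
    nlinarith
  have hpn : p ≤ n := le_trans (by nlinarith) hBpn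
  obtain ⟨pt, hinj, huniq⟩ := PK.geometry (n := n) (B := B) (p := p) hBp hBpn
  -- the line through two points
  let lt : Fin n → Fin n → ZMod p × ZMod p := fun v w =>
    if h : ∃ ℓ, (∃ a, pt ℓ a = v) ∧ ∃ b, pt ℓ b = w then h.choose else 0
  have hlt : ∀ v w ℓ, v ≠ w → (∃ a, pt ℓ a = v) → (∃ b, pt ℓ b = w) → lt v w = ℓ := by
    intro v w ℓ hvw hv hw
    have h : ∃ ℓ, (∃ a, pt ℓ a = v) ∧ ∃ b, pt ℓ b = w := ⟨ℓ, hv, hw⟩
    have h1 : lt v w = h.choose := dif_pos h
    rw [h1]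
    obtain ⟨⟨a, ha⟩, ⟨b, hb⟩⟩ := h.choose_spec
    obtain ⟨a', ha'⟩ := hv
    obtain ⟨b', hb'⟩ := hw
    refine huniq _ _ a b a' b' ?_ (ha.trans ha'.symm) (hb.trans hb'.symm)
    rintro rfl
    exact hvw (ha.symm.trans hb)
  have hcardΛ : Fintype.card (ZMod p × ZMod p) = p * p := by
    rw [Fintype.card_prod, ZMod.card]
  obtain ⟨f, hf1, hf2⟩ := PK.colour pt hB hn0 (by rw [hcardΛ]; nlinarith) lt
  set L := Nat.log 2 n with hL
  -- the most frequent colour
  obtain ⟨c, hc⟩ : ∃ c : Fin (B ^ 2), p * p ≤ B ^ 2 * Fintype.card {ℓ // f ℓ = c} := by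
    by_contra hcon
    push Not at hcon
    have h1 : ∑ c : Fin (B ^ 2), Fintype.card {ℓ // f ℓ = c} = p * p := by
      rw [← hcardΛ, ← Fintype.card_sigma]
      exact Fintype.card_congr (Equiv.sigmaFiberEquiv f)
    have hB2 : 0 < B ^ 2 := by positivity
    have h2 : ∑ c : Fin (B ^ 2), B ^ 2 * Fintype.card {ℓ // f ℓ = c} <
        ∑ _c : Fin (B ^ 2), p * p := by
      apply sum_lt_sum_of_nonempty
      · exact ⟨⟨0, hB2⟩, mem_univ _⟩
      · exact fun c _ => hcon c
    rw [← mul_sum, h1, sum_const, card_univ, Fintype.card_fin, smul_eq_mul] at h2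
    exact lt_irrefl _ h2
  let e := Fintype.equivFin {ℓ // f ℓ = c}
  refine ⟨Fintype.card {ℓ // f ℓ = c}, fun i => pt (e.symm i).1, ?_, fun i => hinj _, ?_, ?_⟩
  · calc n ^ 2 ≤ (2 * B * p) ^ 2 := Nat.pow_le_pow_left hnp.le 2
      _ = 4 * B ^ 2 * (p * p) := by ring
      _ ≤ 4 * B ^ 2 * (B ^ 2 * Fintype.card {ℓ // f ℓ = c}) := Nat.mul_le_mul_left _ hc
      _ = 4 * B ^ 4 * Fintype.card {ℓ // f ℓ = c} := by ring
      _ ≤ 16 * B ^ 4 * Fintype.card {ℓ // f ℓ = c} := by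
          apply Nat.mul_le_mul_right
          nlinarith [Nat.zero_le (B ^ 4)]
  · intro i i' a b a' b' hab h1 h2
    have h3 := huniq _ _ a b a' b' hab h1 h2
    exact e.symm.injective (Subtype.ext h3)
  · intro T hT hpair
    by_contra hcon
    push Not at hcon
    -- the incidence relation
    let inc : {ℓ // f ℓ = c} → Fin n → Prop := fun i v => ∃ a, pt i.1 a = v
    have hu : ∀ i j v w, v ≠ w → inc i v → inc i w → inc j v → inc j w → i = j := by
      intro i j v w hvw h1 h2 h3 h4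
      exact Subtype.ext ((hlt v w i.1 hvw h1 h2).symm.trans (hlt v w j.1 hvw h3 h4))
    have hpair' : ∀ v ∈ T, ∀ w ∈ T, v ≠ w → ∃ i, inc i v ∧ inc i w := by
      intro v hv w hw hvw
      obtain ⟨i, a, b, h1, h2⟩ := hpair v hv w hw hvw
      exact ⟨e.symm i, ⟨a, h1⟩, ⟨b, h2⟩⟩
    have hlc : ∀ i v w, v ≠ w → inc i v → inc i w → f (lt v w) = c := by
      intro i v w hvw h1 h2
      rw [hlt v w i.1 hvw h1 h2]
      exact i.2
    -- few points on a block
    have ha : ∀ i, (T.filter fun v => inc i v).card ≤ 3 * L + 7 := by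
      intro i
      by_contra h
      push Not at h
      obtain ⟨x, hxT, hx⟩ : ∃ x ∈ T, ¬ inc i x := by
        obtain ⟨x, hxT, hx⟩ := hcon (e i)
        refine ⟨x, hxT, ?_⟩
        rintro ⟨a, ha⟩
        exact hx a (by rw [e.symm_apply_apply]; exact ha)
      obtain ⟨S, hS, hSc⟩ := exists_subset_card_eq h.le
      let g : Fin (3 * L + 7) ≃ S := (Fintype.equivFinOfCardEq (by rw [Fintype.card_coe, hSc])).symm
      have hgS : ∀ j, (g j).1 ∈ T ∧ inc i (g j).1 := fun j => mem_filter.1 (hS (g j).2)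
      choose b hb using fun j => (hgS j).2
      have hxg : ∀ j, x ≠ (g j).1 := fun j h' => hx (h' ▸ (hgS j).2)
      have hcardim : (univ.image fun j => lt x (pt i.1 (b j))).card = 3 * L + 7 := by
        rw [card_image_of_injective, card_univ, Fintype.card_fin]
        intro j j' hjj
        simp only [hb] at hjj
        by_contra hne
        have hgne : (g j).1 ≠ (g j').1 := fun h' => hne (g.injective (Subtype.ext h'))
        obtain ⟨k, hk1, hk2⟩ := hpair' x hxT _ (hgS j).1 (hxg j)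
        obtain ⟨k', hk1', hk2'⟩ := hpair' x hxT _ (hgS j').1 (hxg j')
        have h1 := hlt x _ k.1 (hxg j) hk1 hk2
        have h2 := hlt x _ k'.1 (hxg j') hk1' hk2'
        have h3 : k = k' := Subtype.ext (by rw [← h1, ← h2, hjj])
        subst h3
        have h4 : k = i := hu k i _ _ hgne hk2 hk2' (hgS j).2 (hgS j').2
        subst h4
        exact hx hk1
      obtain ⟨j, hj⟩ := hf1 c x i.1 b hcardim
      apply hj
      rw [hb]
      obtain ⟨k, hk1, hk2⟩ := hpair' x hxT _ (hgS j).1 (hxg j)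
      exact hlc k _ _ (hxg j) hk1 hk2
    -- points in general position
    obtain ⟨Z, hZT, hZc, hZ⟩ := PK.greedy inc hu T (L + 4) (3 * L + 7) (by omega)
      (hK.trans hT) ha (L + 4) le_rfl
    let g : Fin (L + 4) ≃ Z := (Fintype.equivFinOfCardEq (by rw [Fintype.card_coe, hZc])).symm
    have hgZ : ∀ j, (g j).1 ∈ Z := fun j => (g j).2
    have hgi : ∀ j j', j ≠ j' → (g j).1 ≠ (g j').1 := fun j j' h h' => h (g.injective (Subtype.ext h'))
    have hline : ∀ j j', j ≠ j' → ∃ k, inc k (g j).1 ∧ inc k (g j').1 ∧ lt (g j).1 (g j').1 = k.1 := by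
      intro j j' h
      obtain ⟨k, h1, h2⟩ := hpair' _ (hZT (hgZ j)) _ (hZT (hgZ j')) (hgi j j' h)
      exact ⟨k, h1, h2, hlt _ _ k.1 (hgi j j' h) h1 h2⟩
    have hcardim : ((univ.filter fun q : Fin (L + 4) × Fin (L + 4) => q.1 < q.2).image
        fun q => lt (g q.1).1 (g q.2).1).card = (L + 4) * (L + 3) / 2 := by
      rw [card_image_of_injOn]
      · have h1 : (univ.filter fun q : Fin (L + 4) × Fin (L + 4) => q.1 < q.2).card =
            ∑ j : Fin (L + 4), (j : ℕ) := by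
          rw [card_filter, ← univ_product_univ, sum_product_right]
          refine sum_congr rfl fun j _ => ?_
          rw [← card_filter]
          have h2 : (univ.filter fun i : Fin (L + 4) => i < j) = Iio j := by
            ext i; simp
          rw [h2, Fin.card_Iio]
        rw [h1, Fin.sum_univ_eq_sum_range (fun i => i) (L + 4), sum_range_id]
        rfl
      · rintro ⟨i, j⟩ hij ⟨i', j'⟩ hij' h
        simp only [coe_filter, mem_univ, true_and, Set.mem_ofPred_eq] at hij hij' h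
        obtain ⟨k, k1, k2, k3⟩ := hline i j hij.ne
        obtain ⟨k', k1', k2', k3'⟩ := hline i' j' hij'.ne
        have hkk : k = k' := Subtype.ext (by rw [← k3, ← k3', h])
        subst hkk
        -- at most two of the points are on the block
        have h3 : ∀ l, inc k (g l).1 → l = i ∨ l = j := by
          intro l hl
          by_contra hne
          push Not at hne
          exact hZ k _ (hgZ i) _ (hgZ j) _ (hgZ l) (hgi i j hij.ne) (hgi i l hne.1.symm)
            (hgi j l hne.2.symm) k1 k2 hl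
        have h4 := h3 i' k1'
        have h5 := h3 j' k2'
        have h6 : (i : ℕ) < j := hij
        have h7 : (i' : ℕ) < j' := hij'
        rcases h4 with rfl | rfl <;> rcases h5 with rfl | rfl
        · omega
        · rfl
        · omega
        · omega
    obtain ⟨i, j, hij, hc'⟩ := hf2 c (fun i => (g i).1) hcardim
    apply hc'
    obtain ⟨k, k1, k2, -⟩ := hline i j hij.ne
    exact hlc k _ _ (hgi i j hij.ne) k1 k2

end Pool.Agent.H10x.NL
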