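import Pool.Agent.H10x.NL.Main2
import Pool.Agent.H10x.NL.Pack

/-!
# Boolean circuits with few NOT gates: the bounds in terms of the number of vertices
-/

set_option linter.unusedSectionVars false
set_option linter.unusedVariables false

namespace Pool.Agent.H10x.NL.G2

open Finset Pool.Agent.W969.MC Filter

/-- Boolean circuits -/
theorem sharp_bool : ∃ δ : ℝ, 0 < δ ∧ ∃ C : ℝ, 0 < C ∧ ∃ l0 : ℕ, ∀ n k l : ℕ,
    l0 ≤ l → l ≤ k → 2 * k ≤ n → (Real.log n) ^ (4 : ℕ) ≤ l → (l : ℝ) ^ C ≤ n →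
    ∀ (t W : ℕ) (L : List ((Edge n → Bool) → Bool)) (out : Fin W → (Edge n → Bool) → Bool)
      (D : (Fin W → Bool) → Prop),
      BC t L → (∀ j, Available L (out j)) → (∀ x, D (fun j => out j x) ↔ HasClq n 2 k x) →
      (2 : ℝ) ^ t * (W + 1) ≤ (n : ℝ) ^ (2 : ℕ) / (l : ℝ) ^ C →
      (l : ℝ) ^ (δ * l) ≤ 2 * (L.length : ℝ) + (W + 1) := by
  classical
  obtain ⟨δ, hδ, C, hC, l0, H⟩ := alt_rand t_PACK
  refine ⟨δ, hδ, C, hC, max l0 1, ?_⟩
  intro n k l hl hlk hkn hlog hln t W L out D hL hout hD hfree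
  have hl0 : l0 ≤ l := (le_max_left _ _).trans hl
  have hl1 : 1 ≤ l := (le_max_right _ _).trans hl
  have hlR : (1 : ℝ) ≤ l := by exact_mod_cast hl1
  have hn2 : 2 ≤ n := by omega
  let e0 : Edge n := ⟨{⟨0, by omega⟩, ⟨1, by omega⟩}, Finset.card_pair (by
    intro h
    have := congrArg Fin.val h
    simp at this)⟩
  obtain ⟨C', h1, h2, h3⟩ := Pool.Agent.HM94.NI.to_rc (H := (Set.univ : Set (Edge n)))
    (fun _ => false) ⟨e0, trivial⟩ hL.toTProg out hout D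
  have hacc : ∀ x : Edge n → Bool, C'.acc (fun e => x e.1) ↔ HasClq n 2 k x :=
    fun x => (h3 x (fun e he => absurd trivial he)).trans (hD x)
  obtain ⟨u, hu⟩ := H n k l hl0 hlk hkn hlog hln Unit ↥(Set.univ : Set (Edge n)) (fun e => e.1)
    (fun _ => C') 0 (fun _ => C'.free - 1) (fun _ => altLe_free C')
    (by
      intro _
      refine le_trans ?_ hfree
      have h5 : C'.free - 1 ≤ 2 ^ t * (W + 1) := by omega
      exact_mod_cast h5)
    (by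
      intro x hx
      have h4 : {ρ : Unit | C'.acc (fun i => x i.1)} = Set.univ := by
        ext ρ
        simp [(hacc x).mpr hx]
      rw [h4, Set.ncard_univ, Nat.card_eq_fintype_card, Fintype.card_unit, Nat.cast_one, mul_one,
        zero_add]
      exact Real.rpow_le_one_of_one_le_of_nonpos hlR (by linarith))
    (by
      intro x hx
      have h4 : {ρ : Unit | C'.acc (fun i => x i.1)} = ∅ := by
        ext ρ
        simp only [Set.mem_ofPred_eq, Set.mem_empty_iff_false, iff_false]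
        exact fun h => hx ((hacc x).mp h)
      rw [h4, Set.ncard_empty]
      simp)
  have h4 := hL.t_le
  refine hu.trans ?_
  have : C'.size ≤ 2 * L.length + (W + 1) := by omega
  exact_mod_cast this

/-- eventually -/
lemma ev_log (j : ℕ) {η : ℝ} (hη : 0 < η) (B : ℝ) : ∃ n0 : ℕ, ∀ n : ℕ, n0 ≤ n →
    B * (Real.log n) ^ j + B ≤ (n : ℝ) ^ η := by
  have h1 : Tendsto (fun x : ℝ => Real.log x ^ j / x ^ η) atTop (nhds 0) := by
    have := isLittleO_log_rpow_rpow_atTop (s := η) (j : ℝ) hη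
    have h2 := this.tendsto_div_nhds_zero
    simpa [Real.rpow_natCast] using h2
  have h2 : Tendsto (fun x : ℝ => (1 : ℝ) / x ^ η) atTop (nhds 0) :=
    (tendsto_rpow_atTop hη).const_div_atTop 1
  have h3 : Tendsto (fun x : ℝ => B * (Real.log x ^ j / x ^ η) + B * (1 / x ^ η)) atTop
      (nhds (B * 0 + B * 0)) := (h1.const_mul B).add (h2.const_mul B)
  rw [mul_zero, add_zero] at h3
  have h4 := (h3.comp (tendsto_natCast_atTop_atTop (R := ℝ))).eventually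
    (gt_mem_nhds (zero_lt_one : (0 : ℝ) < 1))
  obtain ⟨n0, hn0⟩ := eventually_atTop.mp h4
  refine ⟨max n0 1, fun n hn => ?_⟩
  have h5 := hn0 n ((le_max_left _ _).trans hn)
  have hn1 : 1 ≤ n := (le_max_right _ _).trans hn
  have hnp : (0 : ℝ) < n := by exact_mod_cast hn1
  have h6 : (0 : ℝ) < (n : ℝ) ^ η := Real.rpow_pos_of_pos hnp η
  simp only [Function.comp_apply] at h5
  have h7 : B * (Real.log n ^ j / (n : ℝ) ^ η) + B * (1 / (n : ℝ) ^ η) =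
      (B * Real.log n ^ j + B) / (n : ℝ) ^ η := by
    field_simp
  rw [h7, div_lt_one h6] at h5
  exact h5.le

/-- exponential bound: `(1 - ε) log₂ N` NOT gates -/
theorem sharp_exp (ε κ : ℝ) (hε : 0 < ε) (hκ : 0 < κ) : ∃ δ : ℝ, 0 < δ ∧ ∃ n0 : ℕ, ∀ n k : ℕ,
    n0 ≤ n → (n : ℝ) ^ κ ≤ k → 2 * k ≤ n →
    ∀ (t W : ℕ) (L : List ((Edge n → Bool) → Bool)) (out : Fin W → (Edge n → Bool) → Bool)
      (D : (Fin W → Bool) → Prop),
      BC t L → (∀ j, Available L (out j)) → (∀ x, D (fun j => out j x) ↔ HasClq n 2 k x) →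
      (2 : ℝ) ^ t * (W + 1) ≤ (n : ℝ) ^ (2 - ε) →
      (2 : ℝ) ^ ((n : ℝ) ^ δ) < L.length := by
  obtain ⟨δ0, hδ0, C, hC, l0, H⟩ := sharp_bool
  set δ' : ℝ := min κ (min (ε / 2) 1 / C) with hδ'
  have hδ'pos : 0 < δ' := lt_min hκ (by positivity)
  obtain ⟨n1, hn1⟩ := ev_log 4 hδ'pos 1
  obtain ⟨n2, hn2⟩ := ev_rpow hδ'pos (max (l0 : ℝ) (2 ^ (1 / δ0)) + 1)
  obtain ⟨n3, hn3⟩ := ev_rpow (η := δ' / 2) (by positivity) 3
  obtain ⟨n4, hn4⟩ := ev_log 1 (η := δ' / 2) (by positivity) 4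
  refine ⟨δ' / 2, by positivity, max (max n1 n2) (max (max n3 n4) 1), ?_⟩
  intro n k hn hkk hkn t W L out D hL hout hD ht
  have g1 : n1 ≤ n := (le_max_left _ _).trans ((le_max_left _ _).trans hn)
  have g2 : n2 ≤ n := (le_max_right _ _).trans ((le_max_left _ _).trans hn)
  have g3 : n3 ≤ n :=
    (le_max_left _ _).trans ((le_max_left _ _).trans ((le_max_right _ _).trans hn))
  have g4 : n4 ≤ n :=
    (le_max_right _ _).trans ((le_max_left _ _).trans ((le_max_right _ _).trans hn))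
  have g5 : 1 ≤ n := (le_max_right _ _).trans ((le_max_right _ _).trans hn)
  have hnR : (1 : ℝ) ≤ n := by exact_mod_cast g5
  have hnp : (0 : ℝ) < n := by linarith
  have e1 := hn1 n g1
  have e2 := hn2 n g2
  have e3 := hn3 n g3
  have e4 := hn4 n g4
  set y : ℝ := (n : ℝ) ^ δ' with hy
  have hy0 : 0 ≤ y := by positivity
  set l : ℕ := ⌊y⌋₊ with hl
  have hly : (l : ℝ) ≤ y := Nat.floor_le hy0
  have hly2 : y < l + 1 := Nat.lt_floor_add_one y
  have h2 : (l0 : ℝ) ≤ l := by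
    have := le_max_left (l0 : ℝ) (2 ^ (1 / δ0))
    linarith
  have h3 : (2 : ℝ) ^ (1 / δ0) ≤ l := by
    have := le_max_right (l0 : ℝ) (2 ^ (1 / δ0))
    linarith
  have hlk : (l : ℝ) ≤ k := by
    refine hly.trans (le_trans ?_ hkk)
    exact Real.rpow_le_rpow_of_exponent_le hnR (min_le_left _ _)
  have hlog : (Real.log n) ^ (4 : ℕ) ≤ l := by linarith
  have hlC : (l : ℝ) ^ C ≤ (n : ℝ) ^ (min (ε / 2) 1) := by
    calc (l : ℝ) ^ C ≤ y ^ C := Real.rpow_le_rpow (Nat.cast_nonneg _) hly hC.le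
      _ = (n : ℝ) ^ (δ' * C) := by rw [hy, ← Real.rpow_mul hnp.le]
      _ ≤ (n : ℝ) ^ (min (ε / 2) 1) := by
        apply Real.rpow_le_rpow_of_exponent_le hnR
        have : δ' ≤ min (ε / 2) 1 / C := min_le_right _ _
        calc δ' * C ≤ min (ε / 2) 1 / C * C := mul_le_mul_of_nonneg_right this hC.le
          _ = min (ε / 2) 1 := div_mul_cancel₀ _ hC.ne'
  have hln : (l : ℝ) ^ C ≤ n := by
    refine hlC.trans ?_
    calc (n : ℝ) ^ (min (ε / 2) 1) ≤ (n : ℝ) ^ (1 : ℝ) :=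
          Real.rpow_le_rpow_of_exponent_le hnR (min_le_right _ _)
      _ = n := Real.rpow_one _
  have hl1 : (1 : ℝ) ≤ l := by
    refine le_trans ?_ h3
    exact Real.one_le_rpow (by norm_num) (by positivity)
  have hlCpos : (0 : ℝ) < (l : ℝ) ^ C := Real.rpow_pos_of_pos (by linarith) C
  have hfree : (2 : ℝ) ^ t * (W + 1) ≤ (n : ℝ) ^ (2 : ℕ) / (l : ℝ) ^ C := by
    rw [le_div_iff₀ hlCpos]
    have h5 : (l : ℝ) ^ C ≤ (n : ℝ) ^ ε :=
      hlC.trans (Real.rpow_le_rpow_of_exponent_le hnR ((min_le_left _ _).trans (by linarith)))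
    calc (2 : ℝ) ^ t * (W + 1) * (l : ℝ) ^ C ≤ (n : ℝ) ^ (2 - ε) * (n : ℝ) ^ ε :=
          mul_le_mul ht h5 hlCpos.le (by positivity)
      _ = (n : ℝ) ^ (2 : ℕ) := by
          rw [← Real.rpow_add hnp, ← Real.rpow_natCast]
          congr 1
          push_cast
          ring
  have hWn : (W : ℝ) + 1 ≤ (n : ℝ) ^ (2 : ℕ) := by
    have h1 : (1 : ℝ) ≤ (2 : ℝ) ^ t := one_le_pow₀ (by norm_num)
    have h2 : (W : ℝ) + 1 ≤ (2 : ℝ) ^ t * (W + 1) := by
      have : (0 : ℝ) ≤ W := Nat.cast_nonneg _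
      nlinarith
    refine h2.trans (ht.trans ?_)
    rw [← Real.rpow_natCast]
    apply Real.rpow_le_rpow_of_exponent_le hnR
    push_cast
    linarith
  have hmain := H n k l (by exact_mod_cast h2) (by exact_mod_cast hlk) hkn hlog hln t W L out D hL
    hout hD hfree
  have h6 : (2 : ℝ) ≤ (l : ℝ) ^ δ0 := by
    calc (2 : ℝ) = ((2 : ℝ) ^ (1 / δ0)) ^ δ0 := by
          rw [← Real.rpow_mul (by norm_num), one_div, inv_mul_cancel₀ hδ0.ne', Real.rpow_one]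
      _ ≤ (l : ℝ) ^ δ0 := Real.rpow_le_rpow (by positivity) h3 hδ0.le
  have h7 : (2 : ℝ) ^ (l : ℝ) ≤ (l : ℝ) ^ (δ0 * l) := by
    rw [Real.rpow_mul (by linarith)]
    exact Real.rpow_le_rpow (by norm_num) h6 (by linarith)
  have h8 : (n : ℝ) ^ (δ' / 2) + 2 ≤ l := by
    have h9 : y = (n : ℝ) ^ (δ' / 2) * (n : ℝ) ^ (δ' / 2) := by
      rw [hy, ← Real.rpow_add hnp]
      congr 1
      ring
    nlinarith
  have h9 : (2 : ℝ) ^ ((n : ℝ) ^ (δ' / 2)) * 4 ≤ (2 : ℝ) ^ (l : ℝ) := by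
    calc (2 : ℝ) ^ ((n : ℝ) ^ (δ' / 2)) * 4 = (2 : ℝ) ^ ((n : ℝ) ^ (δ' / 2) + 2) := by
          rw [Real.rpow_add (by norm_num)]
          norm_num
      _ ≤ _ := Real.rpow_le_rpow_of_exponent_le (by norm_num) h8
  have h10 : (1 : ℝ) < (2 : ℝ) ^ ((n : ℝ) ^ (δ' / 2)) :=
    Real.one_lt_rpow (by norm_num) (by positivity)
  have h11 : (n : ℝ) ^ (2 : ℕ) ≤ (2 : ℝ) ^ ((n : ℝ) ^ (δ' / 2)) := by
    have hlog0 : 0 ≤ Real.log n := Real.log_nonneg hnR
    rw [← Real.rpow_natCast, Real.rpow_def_of_pos hnp, Real.rpow_def_of_pos (by norm_num)]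
    apply Real.exp_le_exp.mpr
    have h12 : (1 : ℝ) / 2 ≤ Real.log 2 := by
      have := Real.log_two_gt_d9
      linarith
    rw [pow_one] at e4
    push_cast
    have h13 : (0 : ℝ) ≤ (n : ℝ) ^ (δ' / 2) := by positivity
    nlinarith
  linarith

/-- superpolynomial bound: `log₂ N - O (log log N)` NOT gates -/
theorem sharp_poly : ∃ C : ℝ, 0 < C ∧ ∀ a : ℝ, ∃ n0 : ℕ, ∀ n k : ℕ,
    n0 ≤ n → (Real.log n) ^ (5 : ℕ) ≤ k → 2 * k ≤ n →
    ∀ (t W : ℕ) (L : List ((Edge n → Bool) → Bool)) (out : Fin W → (Edge n → Bool) → Bool)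
      (D : (Fin W → Bool) → Prop),
      BC t L → (∀ j, Available L (out j)) → (∀ x, D (fun j => out j x) ↔ HasClq n 2 k x) →
      (2 : ℝ) ^ t * (W + 1) ≤ (n : ℝ) ^ (2 : ℕ) / (Real.log n) ^ C →
      (n : ℝ) ^ a < L.length := by
  obtain ⟨δ0, hδ0, C, hC, l0, H⟩ := sharp_bool
  refine ⟨5 * C, by positivity, fun a => ?_⟩
  -- conditions on `u = log n`
  have hu : ∀ᶠ u : ℝ in atTop, (1 : ℝ) ≤ u ∧ (l0 : ℝ) ≤ u ∧ (2 : ℝ) ^ (1 / δ0) ≤ u ∧
      (2 : ℝ) ^ (C + 1) ≤ u ^ C ∧ u ^ (5 * C) ≤ Real.exp u ∧ 2 ≤ u ∧ |a| * 2 + 10 ≤ u := by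
    refine (eventually_ge_atTop _).and ((eventually_ge_atTop _).and ((eventually_ge_atTop _).and
      (((tendsto_rpow_atTop hC).eventually_ge_atTop _).and (Filter.Eventually.and ?_
      ((eventually_ge_atTop _).and (eventually_ge_atTop _))))))
    have h := (isLittleO_rpow_exp_atTop (5 * C)).bound (zero_lt_one : (0 : ℝ) < 1)
    filter_upwards [h, eventually_ge_atTop (0 : ℝ)] with u h1 h2
    rw [one_mul, Real.norm_of_nonneg (by positivity), Real.norm_of_nonneg (Real.exp_pos _).le] at h1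
    exact h1
  have hn := (Real.tendsto_log_atTop.comp (tendsto_natCast_atTop_atTop (R := ℝ))).eventually hu
  obtain ⟨n0, hn0⟩ := eventually_atTop.mp hn
  refine ⟨max n0 1, ?_⟩
  intro n k hnn hkk hkn t W L out D hL hout hD ht
  obtain ⟨u1, u2, u3, u4, u5, u6, u7⟩ := hn0 n ((le_max_left _ _).trans hnn)
  simp only [Function.comp_apply] at u1 u2 u3 u4 u5 u6 u7
  have hn1 : 1 ≤ n := (le_max_right _ _).trans hnn
  have hnR : (1 : ℝ) ≤ n := by exact_mod_cast hn1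
  have hnp : (0 : ℝ) < n := by linarith
  rw [Real.exp_log hnp] at u5
  set u : ℝ := Real.log n with hudef
  have hup : 0 < u := by linarith
  have hu4 : u ≤ u ^ 4 := le_self_pow₀ u1 (by norm_num)
  have hu41 : (1 : ℝ) ≤ u ^ 4 := one_le_pow₀ u1
  set l : ℕ := ⌈u ^ 4⌉₊ with hl
  have hly : u ^ 4 ≤ l := Nat.le_ceil _
  have hly2 : (l : ℝ) < u ^ 4 + 1 := Nat.ceil_lt_add_one (by positivity)
  have hl5 : (l : ℝ) ≤ u ^ 5 := by
    have : u ^ 5 = u * u ^ 4 := by ring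
    nlinarith
  have hlpos : (0 : ℝ) < l := by linarith
  have hlC1 : (l : ℝ) ^ C ≤ u ^ (5 * C) := by
    calc (l : ℝ) ^ C ≤ (u ^ 5) ^ C := Real.rpow_le_rpow hlpos.le hl5 hC.le
      _ = u ^ (5 * C) := by
        rw [← Real.rpow_natCast, ← Real.rpow_mul hup.le]
        norm_num
  have hlC2 : 2 * (l : ℝ) ^ C ≤ u ^ (5 * C) := by
    have h1 : (l : ℝ) ≤ 2 * u ^ 4 := by linarith
    have h2 : (l : ℝ) ^ C ≤ (2 : ℝ) ^ C * u ^ (4 * C) := by
      calc (l : ℝ) ^ C ≤ (2 * u ^ 4) ^ C := Real.rpow_le_rpow hlpos.le h1 hC.le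
        _ = (2 : ℝ) ^ C * u ^ (4 * C) := by
          rw [Real.mul_rpow (by norm_num) (by positivity), ← Real.rpow_natCast,
            ← Real.rpow_mul hup.le]
          norm_num
    calc 2 * (l : ℝ) ^ C ≤ 2 * ((2 : ℝ) ^ C * u ^ (4 * C)) := by linarith
      _ = (2 : ℝ) ^ (C + 1) * u ^ (4 * C) := by
        rw [Real.rpow_add (by norm_num), Real.rpow_one]
        ring
      _ ≤ u ^ C * u ^ (4 * C) := mul_le_mul_of_nonneg_right u4 (by positivity)
      _ = u ^ (5 * C) := by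
        rw [← Real.rpow_add hup]
        congr 1
        ring
  have hlCpos : (0 : ℝ) < (l : ℝ) ^ C := Real.rpow_pos_of_pos hlpos C
  have hfree : (2 : ℝ) ^ t * (W + 1) ≤ (n : ℝ) ^ (2 : ℕ) / (l : ℝ) ^ C := by
    rw [le_div_iff₀ hlCpos]
    rw [le_div_iff₀ (Real.rpow_pos_of_pos hup _)] at ht
    calc (2 : ℝ) ^ t * (W + 1) * (l : ℝ) ^ C ≤ 2 ^ t * (W + 1) * u ^ (5 * C) :=
          mul_le_mul_of_nonneg_left hlC1 (by positivity)
      _ ≤ _ := ht
  have hWn : (W : ℝ) + 1 ≤ (n : ℝ) ^ (2 : ℕ) := by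
    have h1 : (1 : ℝ) ≤ (2 : ℝ) ^ t := one_le_pow₀ (by norm_num)
    have h2 : (W : ℝ) + 1 ≤ (2 : ℝ) ^ t * (W + 1) := by
      have : (0 : ℝ) ≤ W := Nat.cast_nonneg _
      nlinarith
    refine h2.trans (ht.trans ?_)
    exact div_le_self (by positivity) (Real.one_le_rpow u1 (by positivity))
  have hl0 : (l0 : ℝ) ≤ l := by linarith
  have hlk : (l : ℝ) ≤ k := hl5.trans hkk
  have hmain := H n k l (by exact_mod_cast hl0) (by exact_mod_cast hlk) hkn hly (hlC1.trans u5)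
    t W L out D hL hout hD hfree
  have h3 : (2 : ℝ) ^ (1 / δ0) ≤ l := by linarith
  have h6 : (2 : ℝ) ≤ (l : ℝ) ^ δ0 := by
    calc (2 : ℝ) = ((2 : ℝ) ^ (1 / δ0)) ^ δ0 := by
          rw [← Real.rpow_mul (by norm_num), one_div, inv_mul_cancel₀ hδ0.ne', Real.rpow_one]
      _ ≤ (l : ℝ) ^ δ0 := Real.rpow_le_rpow (by positivity) h3 hδ0.le
  have h7 : (2 : ℝ) ^ (l : ℝ) ≤ (l : ℝ) ^ (δ0 * l) := by
    rw [Real.rpow_mul hlpos.le]
    exact Real.rpow_le_rpow (by norm_num) h6 hlpos.le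
  have h8 : Real.exp ((|a| + 2) * u + 3) ≤ (2 : ℝ) ^ (l : ℝ) := by
    rw [Real.rpow_def_of_pos (by norm_num)]
    apply Real.exp_le_exp.mpr
    have h9 : (1 : ℝ) / 2 ≤ Real.log 2 := by
      have := Real.log_two_gt_d9
      linarith
    have h10 : u * u ≤ l := by
      have : u ^ 4 = u * u * (u * u) := by ring
      nlinarith
    have h11 : (|a| * 2 + 10) * u ≤ l := by nlinarith
    nlinarith [abs_nonneg a]
  have h9 : Real.exp ((|a| + 2) * u + 3) = (n : ℝ) ^ |a| * (n : ℝ) ^ (2 : ℕ) * Real.exp 3 := by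
    rw [Real.exp_add, ← Real.rpow_natCast (n : ℝ) 2, ← Real.rpow_add hnp, Real.rpow_def_of_pos hnp,
      mul_comm (Real.log n)]
    push_cast
    rfl
  have h10 : (4 : ℝ) ≤ Real.exp 3 := by
    have := Real.add_one_le_exp (3 : ℝ)
    linarith
  have h11 : (n : ℝ) ^ a ≤ (n : ℝ) ^ |a| := Real.rpow_le_rpow_of_exponent_le hnR (le_abs_self a)
  have h12 : (1 : ℝ) ≤ (n : ℝ) ^ |a| := Real.one_le_rpow hnR (abs_nonneg a)
  have h12' : (1 : ℝ) ≤ (n : ℝ) ^ (2 : ℕ) := one_le_pow₀ hnR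
  have h13 : (n : ℝ) ^ |a| * (n : ℝ) ^ (2 : ℕ) * 4 ≤ 2 * (L.length : ℝ) + (W + 1) := by
    calc (n : ℝ) ^ |a| * (n : ℝ) ^ (2 : ℕ) * 4 ≤ (n : ℝ) ^ |a| * (n : ℝ) ^ (2 : ℕ) * Real.exp 3 :=
          mul_le_mul_of_nonneg_left h10 (by positivity)
      _ = Real.exp ((|a| + 2) * u + 3) := h9.symm
      _ ≤ _ := h8.trans (h7.trans hmain)
  have h14 : (n : ℝ) ^ |a| ≤ (n : ℝ) ^ |a| * (n : ℝ) ^ (2 : ℕ) := by nlinarith
  have h15 : (n : ℝ) ^ (2 : ℕ) ≤ (n : ℝ) ^ |a| * (n : ℝ) ^ (2 : ℕ) := by nlinarith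
  by_contra hcon
  push Not at hcon
  linarith

end Pool.Agent.H10x.NL.G2
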