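import Pool.Agent.H10x.NL.Main3
import Pool.Agent.H10x.NL.Sharp

/-!
# The lower bound for approximate counting of satisfying assignments of 2-CNF formulas
-/

set_option linter.unusedSectionVars false
set_option linter.unusedVariables false

namespace Pool.Agent.H10x.NL.G2

open Finset Pool.Agent.W969.MC Filter

/-- the numbers -/
theorem cnt_num (C0 : ℝ) (hC0 : 0 < C0) (l1 : ℕ) : ∃ l0 : ℕ, ∀ N l G : ℕ, l0 ≤ l → l ^ 2 ≤ G →
    (Real.log N) ^ (4 : ℕ) ≤ l → (G : ℝ) * (l : ℝ) ^ (C0 + 4) ≤ N →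
    l1 ≤ l ∧ 2 * l ≤ N / (2 * G) ∧ (Real.log (N / (2 * G) : ℕ)) ^ (4 : ℕ) ≤ l ∧
    (l : ℝ) ^ C0 ≤ (N / (2 * G) : ℕ) ∧
    (N : ℝ) ^ 2 / ((G : ℝ) ^ 2 * (l : ℝ) ^ (C0 + 4)) ≤
      ((N / (2 * G) : ℕ) : ℝ) ^ (2 : ℕ) / (l : ℝ) ^ C0 ∧
    (l - 1) * Nat.clog 2 (N / (2 * G) + 1) ≤ G := by
  refine ⟨max l1 16, ?_⟩
  intro N l G hl hG hlog hN
  have hl1 : l1 ≤ l := (le_max_left _ _).trans hl
  have hl16 : 16 ≤ l := (le_max_right _ _).trans hl
  have hlR : (16 : ℝ) ≤ l := by exact_mod_cast hl16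
  have hlp : (0 : ℝ) < l := by linarith
  have hGl : (l : ℝ) ^ 2 ≤ G := by exact_mod_cast hG
  have hG1 : (1 : ℝ) ≤ G := by nlinarith
  have hGp : (0 : ℝ) < G := by linarith
  have hp4 : (l : ℝ) ^ (C0 + 4) = (l : ℝ) ^ C0 * (l : ℝ) ^ (4 : ℕ) := by
    rw [Real.rpow_add hlp, ← Real.rpow_natCast (l : ℝ) 4]
    norm_num
  have hC1 : (1 : ℝ) ≤ (l : ℝ) ^ C0 := Real.one_le_rpow (by linarith) hC0.le
  have hCp : (0 : ℝ) < (l : ℝ) ^ C0 := by linarith
  set n : ℕ := N / (2 * G) with hn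
  have hdiv : (N : ℝ) < 2 * G * (n + 1) := by
    have h2G : 0 < 2 * G := by
      have : 0 < G := by exact_mod_cast hGp
      omega
    have h1 := Nat.lt_div_mul_add (a := N) h2G
    have h2 : N < (n + 1) * (2 * G) := by
      have : (n + 1) * (2 * G) = n * (2 * G) + 2 * G := by ring
      rw [this]
      exact h1
    have h3 : (N : ℝ) < ((n + 1 : ℕ) : ℝ) * ((2 * G : ℕ) : ℝ) := by exact_mod_cast h2
    push_cast at h3
    linarith
  have hdiv2 : 2 * (G : ℝ) * n ≤ N := by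
    have h1 := Nat.div_mul_le_self N (2 * G)
    have h2 : ((n * (2 * G) : ℕ) : ℝ) ≤ N := by exact_mod_cast h1
    push_cast at h2
    linarith
  have hl4 : (16 : ℝ) ^ 3 * l ≤ (l : ℝ) ^ (4 : ℕ) := by
    have h1 : (16 : ℝ) ^ 3 ≤ (l : ℝ) ^ 3 := pow_le_pow_left₀ (by norm_num) hlR 3
    have h2 : (l : ℝ) ^ (4 : ℕ) = (l : ℝ) ^ 3 * l := by ring
    rw [h2]
    exact mul_le_mul_of_nonneg_right h1 hlp.le
  have hl4' : (4096 : ℝ) * 16 ≤ (l : ℝ) ^ (4 : ℕ) := by nlinarith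
  -- `n` is large
  have hnbig : (l : ℝ) ^ C0 * (l : ℝ) ^ (4 : ℕ) ≤ 2 * (n + 1) := by
    rw [hp4] at hN
    have h1 : (G : ℝ) * ((l : ℝ) ^ C0 * (l : ℝ) ^ (4 : ℕ)) < G * (2 * (n + 1)) := by
      calc (G : ℝ) * ((l : ℝ) ^ C0 * (l : ℝ) ^ (4 : ℕ)) ≤ N := hN
        _ < 2 * G * (n + 1) := hdiv
        _ = G * (2 * (n + 1)) := by ring
    exact (lt_of_mul_lt_mul_left h1 hGp.le).le
  have hn1 : (1 : ℝ) ≤ n := by nlinarith
  have hnp : (0 : ℝ) < n := by linarith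
  have hnN : (n : ℝ) ≤ N := by nlinarith
  have hlogn : 0 ≤ Real.log n := Real.log_nonneg hn1
  have hlognN : Real.log n ≤ Real.log N := Real.log_le_log hnp hnN
  have hlog' : (Real.log n) ^ (4 : ℕ) ≤ l := (pow_le_pow_left₀ hlogn hlognN 4).trans hlog
  refine ⟨hl1, ?_, hlog', ?_, ?_, ?_⟩
  · have : (2 : ℝ) * l ≤ n := by nlinarith
    exact_mod_cast this
  · nlinarith
  · -- the alternation number
    rw [div_le_div_iff₀ (by positivity) hCp, hp4]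
    have h1 : (N : ℝ) ≤ 4 * G * n := by nlinarith
    have hN0 : (0 : ℝ) ≤ N := Nat.cast_nonneg _
    have h2 : (N : ℝ) ^ 2 ≤ (4 * G * n) ^ 2 := pow_le_pow_left₀ hN0 h1 2
    have h3 : (4 * (G : ℝ) * n) ^ 2 = 16 * ((G : ℝ) ^ 2 * (n : ℝ) ^ 2) := by ring
    calc (N : ℝ) ^ 2 * (l : ℝ) ^ C0 ≤ 16 * ((G : ℝ) ^ 2 * (n : ℝ) ^ 2) * (l : ℝ) ^ C0 := by
          rw [← h3]
          exact mul_le_mul_of_nonneg_right h2 hCp.le
      _ ≤ (l : ℝ) ^ (4 : ℕ) * ((G : ℝ) ^ 2 * (n : ℝ) ^ 2) * (l : ℝ) ^ C0 := by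
          apply mul_le_mul_of_nonneg_right _ hCp.le
          apply mul_le_mul_of_nonneg_right _ (by positivity)
          linarith
      _ = (n : ℝ) ^ (2 : ℕ) * ((G : ℝ) ^ 2 * ((l : ℝ) ^ C0 * (l : ℝ) ^ (4 : ℕ))) := by ring
  · -- the logarithm
    have h1 : (Nat.clog 2 (n + 1) : ℝ) ≤ l := by
      have hn0 : 1 ≤ n := by exact_mod_cast hn1
      have h2 : Nat.clog 2 (n + 1) ≤ Nat.log 2 n + 1 := by
        apply Nat.clog_le_of_le_pow
        have := Nat.lt_pow_succ_log_self (b := 2) (by norm_num) n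
        exact this
      have h3 : (Nat.log 2 n : ℝ) ≤ Real.log n / Real.log 2 := by
        have h4 : 2 ^ Nat.log 2 n ≤ n := Nat.pow_log_le_self 2 (by omega)
        have h5 : ((2 : ℝ) ^ Nat.log 2 n) ≤ n := by exact_mod_cast h4
        have h6 := Real.log_le_log (by positivity) h5
        rw [Real.log_pow] at h6
        rw [le_div_iff₀ (Real.log_pos (by norm_num))]
        exact h6
      have h4 : Real.log n / Real.log 2 ≤ 2 * Real.log n := by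
        rw [div_le_iff₀ (Real.log_pos (by norm_num))]
        have h5 : (1 : ℝ) / 2 ≤ Real.log 2 := by
          have := Real.log_two_gt_d9
          linarith
        nlinarith
      have h5 : (Nat.clog 2 (n + 1) : ℝ) ≤ 2 * Real.log n + 1 := by
        have : (Nat.clog 2 (n + 1) : ℝ) ≤ (Nat.log 2 n : ℝ) + 1 := by exact_mod_cast h2
        linarith
      refine h5.trans ?_
      rcases le_or_gt (Real.log n) 2 with h6 | h6
      · linarith
      · have h7 : (Real.log n) ^ (4 : ℕ) = Real.log n * (Real.log n) ^ 3 := by ring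
        have h8 : (2 : ℝ) ^ 3 ≤ (Real.log n) ^ 3 := pow_le_pow_left₀ (by norm_num) h6.le 3
        nlinarith
    have h2 : Nat.clog 2 (n + 1) ≤ l := by exact_mod_cast h1
    calc (l - 1) * Nat.clog 2 (n + 1) ≤ l * l := Nat.mul_le_mul (Nat.sub_le _ _) h2
      _ = l ^ 2 := by ring
      _ ≤ G := hG

/-- randomised circuits -/
theorem cnt_rand (hD : S_DUAL) (hC : S_CNT) : ∃ δ : ℝ, 0 < δ ∧ ∃ C : ℝ, 0 < C ∧ ∃ l0 : ℕ,
    ∀ N l G : ℕ, l0 ≤ l → l ^ 2 ≤ G → (Real.log N) ^ (4 : ℕ) ≤ l → (G : ℝ) * (l : ℝ) ^ C ≤ N →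
    ∃ A : ℕ, ∀ (R Inp : Type) [Fintype R] [Nonempty R] [Finite Inp] (ι : Inp → Cls N)
      (Ci : R → RC Inp) (α : ℝ) (Al : R → ℕ), (∀ ρ, AltLe (Ci ρ) (Al ρ)) →
      (∀ ρ, (Al ρ : ℝ) ≤ (N : ℝ) ^ 2 / ((G : ℝ) ^ 2 * (l : ℝ) ^ C)) →
      (∀ x, nSat x ≤ 2 ^ A →
        (α + (l : ℝ) ^ (-δ)) * Fintype.card R ≤ ({ρ : R | (Ci ρ).acc (fun i => x (ι i))}.ncard : ℝ)) →
      (∀ x, 2 ^ (A + G) ≤ nSat x →
        ({ρ : R | (Ci ρ).acc (fun i => x (ι i))}.ncard : ℝ) ≤ α * Fintype.card R) →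
      ∃ ρ, (l : ℝ) ^ (δ * l) ≤ ((Ci ρ).size : ℝ) := by
  classical
  obtain ⟨δ, hδ, C0, hC0, l1, H⟩ := alt_rand' t_PACK
  obtain ⟨l0, hnum⟩ := cnt_num C0 hC0 l1
  refine ⟨δ, hδ, C0 + 4, by positivity, max l0 1, ?_⟩
  intro N l G hl hG hlog hN
  have hl1' : 1 ≤ l := (le_max_right _ _).trans hl
  obtain ⟨g1, g2, g3, g4, g5, g6⟩ := hnum N l G ((le_max_left _ _).trans hl) hG hlog hN
  set n : ℕ := N / (2 * G) with hn
  set Λ : ℕ := Nat.clog 2 (n + 1) with hΛ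
  have hG1 : 1 ≤ G := le_trans (Nat.one_le_pow _ _ hl1') hG
  obtain ⟨d, hd⟩ := hC n (2 * G) N l (by omega) hl1' (Nat.div_mul_le_self N (2 * G))
  refine ⟨2 * G * (l - 1) + (l - 1) * Λ, ?_⟩
  intro R Inp _ _ _ ι Ci α Al hAl hAl2 hyes hno
  choose Ds h1 h2 h3 using fun ρ => hD Inp (Ci ρ)
  have hpow : (n + 1) ^ (l - 1) * 2 ^ (2 * G * (l - 1)) ≤ 2 ^ (2 * G * (l - 1) + (l - 1) * Λ) := by
    rw [pow_add, mul_comm ((n + 1) ^ (l - 1)), mul_comm (l - 1) Λ, pow_mul 2 Λ]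
    apply Nat.mul_le_mul_left
    apply Nat.pow_le_pow_left
    exact Nat.le_pow_clog (by norm_num) _
  have hexp : 2 * G * (l - 1) + (l - 1) * Λ + G ≤ 2 * G * l := by
    obtain ⟨l', rfl⟩ : ∃ l', l = l' + 1 := ⟨l - 1, by omega⟩
    rw [Nat.add_sub_cancel] at g6 ⊢
    have : 2 * G * (l' + 1) = 2 * G * l' + 2 * G := by ring
    omega
  set φ : (Edge n → Bool) → Cls N → Bool :=
    fun y c => Sum.elim (fun e => !y e) (fun β => β) (d c) with hφ
  set dd : Inp → Edge n ⊕ Bool := fun i => Sum.map id (fun β => !β) (d (ι i)) with hdd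
  have hz : ∀ (y : Edge n → Bool) (i : Inp),
      (!(Sum.elim y (fun β => β) (dd i))) = φ y (ι i) := by
    intro y i
    simp only [hφ, hdd]
    rcases d (ι i) with e | β <;> simp
  have hacc : ∀ (ρ : R) (y : Edge n → Bool),
      (Ds ρ).acc (fun i => Sum.elim y (fun β => β) (dd i)) ↔
        ¬ (Ci ρ).acc (fun i => φ y (ι i)) := by
    intro ρ y
    rw [h1 ρ]
    have : (fun i => !(Sum.elim y (fun β => β) (dd i))) = fun i => φ y (ι i) := by
      funext i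
      exact hz y i
    rw [this]
  have hcount : ∀ y : Edge n → Bool,
      ({ρ : R | (Ds ρ).acc (fun i => Sum.elim y (fun β => β) (dd i))}.ncard : ℝ) =
        Fintype.card R - ({ρ : R | (Ci ρ).acc (fun i => φ y (ι i))}.ncard : ℝ) := by
    intro y
    have e1 : {ρ : R | (Ds ρ).acc (fun i => Sum.elim y (fun β => β) (dd i))} =
        {ρ : R | (Ci ρ).acc (fun i => φ y (ι i))}ᶜ := by
      ext ρ
      exact hacc ρ y
    have e2 := Set.ncard_add_ncard_compl {ρ : R | (Ci ρ).acc (fun i => φ y (ι i))}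
    rw [Nat.card_eq_fintype_card] at e2
    rw [e1, ← e2]
    push_cast
    ring
  obtain ⟨ρ, hρ⟩ := H n l l g1 le_rfl g2 g3 g4 R Inp dd Ds (1 - α - (l : ℝ) ^ (-δ)) Al
    (fun ρ => h3 ρ _ (hAl ρ)) (fun ρ => (hAl2 ρ).trans g5)
    (by
      intro y hy
      rw [hcount y]
      have e1 := (hd y).1 hy
      have e2 := hno (φ y) ((Nat.pow_le_pow_right (by norm_num) hexp).trans e1)
      linarith)
    (by
      intro y hy
      rw [hcount y]
      have e1 := (hd y).2 hy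
      have e2 := hyes (φ y) (e1.trans hpow)
      linarith)
  refine ⟨ρ, ?_⟩
  rw [h2 ρ] at hρ
  exact hρ

/-- Boolean circuits -/
theorem cnt_bool (hD : S_DUAL) (hC : S_CNT) : ∃ δ : ℝ, 0 < δ ∧ ∃ C : ℝ, 0 < C ∧ ∃ l0 : ℕ,
    ∀ N l G : ℕ, l0 ≤ l → l ^ 2 ≤ G → (Real.log N) ^ (4 : ℕ) ≤ l → (G : ℝ) * (l : ℝ) ^ C ≤ N →
    ∃ A : ℕ, ∀ (t W : ℕ) (L : List ((Cls N → Bool) → Bool)) (out : Fin W → (Cls N → Bool) → Bool)
      (D : (Fin W → Bool) → Prop),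
      BC t L → (∀ j, Available L (out j)) →
      (∀ x, nSat x ≤ 2 ^ A → D (fun j => out j x)) →
      (∀ x, 2 ^ (A + G) ≤ nSat x → ¬ D (fun j => out j x)) →
      (2 : ℝ) ^ t * (W + 1) ≤ (N : ℝ) ^ 2 / ((G : ℝ) ^ 2 * (l : ℝ) ^ C) →
      (l : ℝ) ^ (δ * l) ≤ 2 * (L.length : ℝ) + (W + 1) := by
  classical
  obtain ⟨δ, hδ, C, hCp, l0, H⟩ := cnt_rand hD hC
  refine ⟨δ, hδ, C, hCp, max l0 1, ?_⟩
  intro N l G hl hG hlog hN
  have hl1 : 1 ≤ l := (le_max_right _ _).trans hl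
  have hlR : (1 : ℝ) ≤ l := by exact_mod_cast hl1
  obtain ⟨A, hA⟩ := H N l G ((le_max_left _ _).trans hl) hG hlog hN
  refine ⟨A, ?_⟩
  intro t W L out D hL hout hyes hno hfree
  let e0 : Cls N := ⟨∅, by simp⟩
  obtain ⟨C', h1, h2, h3⟩ := Pool.Agent.HM94.NI.to_rc (H := (Set.univ : Set (Cls N)))
    (fun _ => false) ⟨e0, trivial⟩ hL.toTProg out hout D
  have hacc : ∀ x : Cls N → Bool, C'.acc (fun e => x e.1) ↔ D (fun j => out j x) :=
    fun x => h3 x (fun e he => absurd trivial he)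
  obtain ⟨u, hu⟩ := hA Unit ↥(Set.univ : Set (Cls N)) (fun e => e.1)
    (fun _ => C') 0 (fun _ => C'.free - 1) (fun _ => altLe_free C')
    (by
      intro _
      refine le_trans ?_ hfree
      have h5 : C'.free - 1 ≤ 2 ^ t * (W + 1) := by omega
      exact_mod_cast h5)
    (by
      intro x hx
      have h4 : {ρ : Unit | C'.acc (fun i => x i.1)} = Set.univ := by
        ext ρ
        simp [(hacc x).mpr (hyes x hx)]
      rw [h4, Set.ncard_univ, Nat.card_eq_fintype_card, Fintype.card_unit, Nat.cast_one, mul_one,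
        zero_add]
      exact Real.rpow_le_one_of_one_le_of_nonpos hlR (by linarith))
    (by
      intro x hx
      have h4 : {ρ : Unit | C'.acc (fun i => x i.1)} = ∅ := by
        ext ρ
        simp only [Set.mem_ofPred_eq, Set.mem_empty_iff_false, iff_false]
        exact fun h => hno x hx ((hacc x).mp h)
      rw [h4, Set.ncard_empty]
      simp)
  have h4 := hL.t_le
  refine hu.trans ?_
  have : C'.size ≤ 2 * L.length + (W + 1) := by omega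
  exact_mod_cast this

end Pool.Agent.H10x.NL.G2
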