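import Pool.Agent.H10x.NL.Stm3

/-!
# Piece DUAL: the dual of a real circuit
-/

set_option autoImplicit false
set_option linter.unusedSectionVars false
set_option linter.unusedVariables false

namespace Pool.Agent.H10x.NL

open Finset Pool.Agent.W969.MC Pool.Agent.H560R2

namespace DUALx

theorem exists_gap {s : Set ℝ} (hs : s.Finite) (θ : ℝ) :
    ∃ ε : ℝ, 0 < ε ∧ ∀ v ∈ s, v < θ → v ≤ θ - ε := by
  induction s, hs using Set.Finite.induction_on with
  | empty => exact ⟨1, one_pos, fun v hv => absurd hv (Set.notMem_empty v)⟩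
  | insert _ _ ih =>
    rename_i a s _ _
    obtain ⟨ε, h0, h⟩ := ih
    by_cases ha : a < θ
    · refine ⟨min ε (θ - a), lt_min h0 (by linarith), fun v hv hvθ => ?_⟩
      rcases hv with rfl | hv
      · have := min_le_right ε (θ - v)
        linarith
      · have := min_le_left ε (θ - a)
        have := h v hv hvθ
        linarith
    · refine ⟨ε, h0, fun v hv hvθ => ?_⟩
      rcases hv with rfl | hv
      · exact absurd hvθ ha
      · exact h v hv hvθ

theorem exists_thr {s : Set ℝ} (hs : s.Finite) (θ : ℝ) :
    ∃ θ' : ℝ, ∀ v ∈ s, (θ' ≤ 1 - v ↔ ¬ θ ≤ v) := by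
  obtain ⟨ε, h0, h⟩ := exists_gap hs θ
  refine ⟨1 - θ + ε, fun v hv => ⟨fun h1 h2 => by linarith, fun h1 => ?_⟩⟩
  have := h v hv (not_le.1 h1)
  linarith

variable {Inp : Type}

/-- the negated input -/
def ngx (x : Inp → Bool) : Inp → Bool := fun i => !x i

theorem bit_ngx (x : Inp → Bool) (p : Inp) : bit (ngx x) p = 1 - bit x p := by
  unfold bit ngx
  cases x p <;> simp

theorem wire_ngx {S : ℕ} (v : (Inp → Bool) → Fin S → ℝ) (x : Inp → Bool) (w : Inp ⊕ Fin S) :
    Sum.elim (bit x) (fun i => 1 - v (ngx x) i) w = 1 - Sum.elim (bit (ngx x)) (v (ngx x)) w := by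
  rcases w with p | i
  · simp only [Sum.elim_inl]
    rw [bit_ngx]
    ring
  · simp only [Sum.elim_inr]

end DUALx

open DUALx

theorem t_DUAL : S_DUAL := by
  classical
  intro Inp _ C
  have hfin : ∀ (i : Fin C.S) (j : Fin (C.wd i)),
      (Set.range fun x : Inp → Bool => Sum.elim (bit x) (C.val x) (C.a i j)).Finite :=
    fun i j => Set.finite_range _
  choose θ' hθ' using fun (i : Fin C.S) (j : Fin (C.wd i)) => exists_thr (hfin i j) (C.θ i j)
  obtain ⟨τ', hτ'⟩ := exists_thr (Set.finite_range fun x : Inp → Bool => C.val x C.o) C.τ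
  have key : ∀ (i : Fin C.S) (j : Fin (C.wd i)) (x : Inp → Bool),
      θ' i j ≤ Sum.elim (bit x) (fun i => 1 - C.val (ngx x) i) (C.a i j) ↔
        ¬ C.θ i j ≤ Sum.elim (bit (ngx x)) (C.val (ngx x)) (C.a i j) := by
    intro i j x
    rw [wire_ngx]
    exact hθ' i j _ ⟨ngx x, rfl⟩
  let op' : ∀ i : Fin C.S, (Fin (C.wd i) → ℝ) → ℝ := fun i z =>
    if i ∈ C.T then 1 - C.op i (fun j => if θ' i j ≤ z j then C.θ i j - 1 else C.θ i j)
    else 1 - C.op i (fun j => 1 - z j)
  let C' : RC Inp :=
    { S := C.S
      T := C.T
      wd := C.wd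
      a := C.a
      op := op'
      θ := θ'
      val := fun x i => 1 - C.val (ngx x) i
      o := C.o
      τ := τ'
      htop := C.htop
      hmon := by
        intro i hi
        refine ⟨(C.hmon i hi).1, fun z z' hz => ?_⟩
        show op' i z ≤ op' i z'
        simp only [op', if_neg hi]
        have h1 : (fun j => 1 - z' j) ≤ fun j => 1 - z j := fun j => by
          have := hz j
          simp only
          linarith
        have h2 := (C.hmon i hi).2 h1
        linarith
      hT := by
        intro i hi z z' hz
        show op' i z = op' i z'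
        simp only [op', if_pos hi, hz]
      hval := by
        intro x i
        show 1 - C.val (ngx x) i = op' i _
        rw [C.hval (ngx x) i]
        by_cases hi : i ∈ C.T
        · simp only [op', if_pos hi]
          congr 1
          refine C.hT i hi _ _ fun j => ?_
          by_cases hc : C.θ i j ≤ Sum.elim (bit (ngx x)) (C.val (ngx x)) (C.a i j)
          · rw [if_neg]
            · exact ⟨fun _ => le_rfl, fun _ => hc⟩
            · rw [key i j x, not_not]
              exact hc
          · rw [if_pos ((key i j x).2 hc)]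
            constructor
            · intro h
              exact absurd h hc
            · intro h
              linarith
        · simp only [op', if_neg hi]
          congr 2
          funext j
          rw [wire_ngx]
          ring }
  refine ⟨C', fun x => ?_, rfl, fun A hA => ?_⟩
  · show τ' ≤ 1 - C.val (ngx x) C.o ↔ ¬ C.τ ≤ C.val (ngx x) C.o
    exact hτ' _ ⟨ngx x, rfl⟩
  · have hchg : ∀ x y, C'.chg x y ↔ C.chg (ngx x) (ngx y) := by
      intro x y
      show (∃ i ∈ C.T, ∃ j, ¬ (θ' i j ≤ Sum.elim (bit x) (fun i => 1 - C.val (ngx x) i) (C.a i j) ↔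
        θ' i j ≤ Sum.elim (bit y) (fun i => 1 - C.val (ngx y) i) (C.a i j))) ↔
        ∃ i ∈ C.T, ∃ j, ¬ (C.θ i j ≤ Sum.elim (bit (ngx x)) (C.val (ngx x)) (C.a i j) ↔
          C.θ i j ≤ Sum.elim (bit (ngx y)) (C.val (ngx y)) (C.a i j))
      refine exists_congr fun i => and_congr_right fun _ => exists_congr fun j => ?_
      rw [key i j x, key i j y, not_iff_not, not_iff_not]
    have hsym : ∀ x y, C.chg x y → C.chg y x := by
      rintro x y ⟨i, hi, j, h⟩
      exact ⟨i, hi, j, fun h' => h h'.symm⟩
    intro q x hx
    set y : ℕ → Inp → Bool := fun i => ngx (x (q - i)) with hy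
    have hym : Monotone y := by
      intro i j hij p
      have h1 := hx (show q - j ≤ q - i by omega) p
      show (!x (q - i) p) ≤ !x (q - j) p
      revert h1
      cases x (q - i) p <;> cases x (q - j) p <;> simp
    refine le_trans ?_ (hA q y hym)
    refine Finset.card_le_card_of_injOn (fun i => q - 1 - i) (fun i hi => ?_) ?_
    · have hi' := Finset.mem_filter.1 hi
      have hiq := Finset.mem_range.1 hi'.1
      refine Finset.mem_filter.2 ⟨Finset.mem_range.2 (by simp only; omega), ?_⟩
      have h1 := (hchg _ _).1 hi'.2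
      have e1 : y (q - 1 - i + 1) = ngx (x i) := by
        rw [hy]
        simp only
        rw [show q - (q - 1 - i + 1) = i by omega]
      have e2 : y (q - 1 - i) = ngx (x (i + 1)) := by
        rw [hy]
        simp only
        rw [show q - (q - 1 - i) = i + 1 by omega]
      simp only
      rw [e1, e2]
      exact hsym _ _ h1
    · intro i hi j hj hij
      have hi' := Finset.mem_range.1 (Finset.mem_filter.1 hi).1
      have hj' := Finset.mem_range.1 (Finset.mem_filter.1 hj).1
      simp only at hij
      omega

end Pool.Agent.H10x.NL
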