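import Pool.Agent.H10x.NL.Cnt2
import Pool.Agent.H10x.NL.Dual
import Pool.Agent.H10x.NL.Cnt

/-!
# Boolean circuits with few NOT gates for approximate counting: the bounds in terms of `N`
-/

set_option linter.unusedSectionVars false
set_option linter.unusedVariables false

namespace Pool.Agent.H10x.NL.G2

open Finset Pool.Agent.W969.MC Filter

/-- exponential bound -/
theorem cnt_exp (ε : ℝ) (hε : 0 < ε) : ∃ δ : ℝ, 0 < δ ∧ ∃ n0 : ℕ, ∀ N : ℕ, n0 ≤ N → ∃ A : ℕ,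
    ∀ (t W : ℕ) (L : List ((Cls N → Bool) → Bool)) (out : Fin W → (Cls N → Bool) → Bool)
      (D : (Fin W → Bool) → Prop),
      BC t L → (∀ j, Available L (out j)) →
      (∀ x, nSat x ≤ 2 ^ A → D (fun j => out j x)) →
      (∀ x, 2 ^ (A + ⌊(N : ℝ) ^ δ⌋₊) ≤ nSat x → ¬ D (fun j => out j x)) →
      (2 : ℝ) ^ t * (W + 1) ≤ (N : ℝ) ^ (2 - ε) →
      (2 : ℝ) ^ ((N : ℝ) ^ δ) < L.length := by
  obtain ⟨δ0, hδ0, C, hC, l0, H⟩ := cnt_bool t_DUAL t_CNT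
  set δ' : ℝ := min 1 ε / (C + 4) with hδ'
  have hmp : 0 < min 1 ε := lt_min one_pos hε
  have hδ'pos : 0 < δ' := by positivity
  obtain ⟨n1, hn1⟩ := ev_log 4 hδ'pos 1
  obtain ⟨n2, hn2⟩ := ev_rpow hδ'pos (max (l0 : ℝ) (2 ^ (1 / δ0)) + 1)
  obtain ⟨n3, hn3⟩ := ev_rpow (η := δ' / 2) (by positivity) 3
  obtain ⟨n4, hn4⟩ := ev_log 1 (η := δ' / 2) (by positivity) 4
  refine ⟨δ' / 2, by positivity, max (max n1 n2) (max (max n3 n4) 1), ?_⟩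
  intro N hn
  have g1 : n1 ≤ N := (le_max_left _ _).trans ((le_max_left _ _).trans hn)
  have g2 : n2 ≤ N := (le_max_right _ _).trans ((le_max_left _ _).trans hn)
  have g3 : n3 ≤ N :=
    (le_max_left _ _).trans ((le_max_left _ _).trans ((le_max_right _ _).trans hn))
  have g4 : n4 ≤ N :=
    (le_max_right _ _).trans ((le_max_left _ _).trans ((le_max_right _ _).trans hn))
  have g5 : 1 ≤ N := (le_max_right _ _).trans ((le_max_right _ _).trans hn)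
  have hnR : (1 : ℝ) ≤ N := by exact_mod_cast g5
  have hnp : (0 : ℝ) < N := by linarith
  have e1 := hn1 N g1
  have e2 := hn2 N g2
  have e3 := hn3 N g3
  have e4 := hn4 N g4
  set y : ℝ := (N : ℝ) ^ δ' with hy
  have hy0 : 0 ≤ y := by positivity
  set l : ℕ := ⌊y⌋₊ with hl
  have hly : (l : ℝ) ≤ y := Nat.floor_le hy0
  have hly2 : y < l + 1 := Nat.lt_floor_add_one y
  have h2 : (l0 : ℝ) ≤ l := by
    have := le_max_left (l0 : ℝ) (2 ^ (1 / δ0))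
    linarith
  have h3 : (2 : ℝ) ^ (1 / δ0) ≤ l := by
    have := le_max_right (l0 : ℝ) (2 ^ (1 / δ0))
    linarith
  have hlog : (Real.log N) ^ (4 : ℕ) ≤ l := by linarith
  have hl1 : (1 : ℝ) ≤ l := by
    refine le_trans ?_ h3
    exact Real.one_le_rpow (by norm_num) (by positivity)
  have hlp : (0 : ℝ) < l := by linarith
  have hlC : (l : ℝ) ^ (C + 4) ≤ (N : ℝ) ^ (min 1 ε) := by
    calc (l : ℝ) ^ (C + 4) ≤ y ^ (C + 4) := Real.rpow_le_rpow hlp.le hly (by linarith)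
      _ = (N : ℝ) ^ (δ' * (C + 4)) := by rw [hy, ← Real.rpow_mul hnp.le]
      _ = (N : ℝ) ^ (min 1 ε) := by
        rw [hδ', div_mul_cancel₀ _ (by positivity : C + 4 ≠ 0)]
  have hG4 : (((l ^ 2 : ℕ) : ℝ)) ^ 2 * (l : ℝ) ^ C = (l : ℝ) ^ (C + 4) := by
    rw [Real.rpow_add hlp]
    have : (l : ℝ) ^ (4 : ℝ) = (l : ℝ) ^ (4 : ℕ) := by
      rw [← Real.rpow_natCast]
      norm_num
    rw [this]
    push_cast
    ring
  have hG2 : (((l ^ 2 : ℕ) : ℝ)) * (l : ℝ) ^ C ≤ N := by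
    have h5 : (((l ^ 2 : ℕ) : ℝ)) * (l : ℝ) ^ C ≤ (((l ^ 2 : ℕ) : ℝ)) ^ 2 * (l : ℝ) ^ C := by
      apply mul_le_mul_of_nonneg_right _ (by positivity)
      have h6 : (1 : ℝ) ≤ ((l ^ 2 : ℕ) : ℝ) := by
        push_cast
        exact one_le_pow₀ hl1
      nlinarith
    rw [hG4] at h5
    refine h5.trans (hlC.trans ?_)
    calc (N : ℝ) ^ (min 1 ε) ≤ (N : ℝ) ^ (1 : ℝ) :=
          Real.rpow_le_rpow_of_exponent_le hnR (min_le_left _ _)
      _ = N := Real.rpow_one _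
  obtain ⟨A, hA⟩ := H N l (l ^ 2) (by exact_mod_cast h2) le_rfl hlog hG2
  refine ⟨A, ?_⟩
  intro t W L out D hL hout hyes hno ht
  have hfree : (2 : ℝ) ^ t * (W + 1) ≤ (N : ℝ) ^ 2 / ((((l ^ 2 : ℕ) : ℝ)) ^ 2 * (l : ℝ) ^ C) := by
    rw [hG4, le_div_iff₀ (Real.rpow_pos_of_pos hlp _)]
    have h5 : (l : ℝ) ^ (C + 4) ≤ (N : ℝ) ^ ε :=
      hlC.trans (Real.rpow_le_rpow_of_exponent_le hnR (min_le_right _ _))
    calc (2 : ℝ) ^ t * (W + 1) * (l : ℝ) ^ (C + 4) ≤ (N : ℝ) ^ (2 - ε) * (N : ℝ) ^ ε :=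
          mul_le_mul ht h5 (by positivity) (by positivity)
      _ = (N : ℝ) ^ 2 := by
          rw [← Real.rpow_add hnp, ← Real.rpow_natCast]
          congr 1
          push_cast
          ring
  have hWn : (W : ℝ) + 1 ≤ (N : ℝ) ^ (2 : ℕ) := by
    have h1 : (1 : ℝ) ≤ (2 : ℝ) ^ t := one_le_pow₀ (by norm_num)
    have h2 : (W : ℝ) + 1 ≤ (2 : ℝ) ^ t * (W + 1) := by
      have : (0 : ℝ) ≤ W := Nat.cast_nonneg _
      nlinarith
    refine h2.trans (ht.trans ?_)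
    rw [← Real.rpow_natCast]
    apply Real.rpow_le_rpow_of_exponent_le hnR
    push_cast
    linarith
  have h8 : (N : ℝ) ^ (δ' / 2) + 2 ≤ l := by
    have h9 : y = (N : ℝ) ^ (δ' / 2) * (N : ℝ) ^ (δ' / 2) := by
      rw [hy, ← Real.rpow_add hnp]
      congr 1
      ring
    nlinarith
  have hgap : ⌊(N : ℝ) ^ (δ' / 2)⌋₊ ≤ l ^ 2 := by
    have h5 : ((⌊(N : ℝ) ^ (δ' / 2)⌋₊ : ℕ) : ℝ) ≤ l :=
      (Nat.floor_le (by positivity)).trans (by linarith)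
    have h6 : ⌊(N : ℝ) ^ (δ' / 2)⌋₊ ≤ l := by exact_mod_cast h5
    have h7 : 1 ≤ l := by exact_mod_cast hl1
    calc ⌊(N : ℝ) ^ (δ' / 2)⌋₊ ≤ l := h6
      _ ≤ l ^ 2 := Nat.le_self_pow (by norm_num) l
  have hmain := hA t W L out D hL hout hyes (fun x hx => hno x
    ((Nat.pow_le_pow_right (by norm_num) (by omega)).trans hx)) hfree
  have h6 : (2 : ℝ) ≤ (l : ℝ) ^ δ0 := by
    calc (2 : ℝ) = ((2 : ℝ) ^ (1 / δ0)) ^ δ0 := by
          rw [← Real.rpow_mul (by norm_num), one_div, inv_mul_cancel₀ hδ0.ne', Real.rpow_one]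
      _ ≤ (l : ℝ) ^ δ0 := Real.rpow_le_rpow (by positivity) h3 hδ0.le
  have h7 : (2 : ℝ) ^ (l : ℝ) ≤ (l : ℝ) ^ (δ0 * l) := by
    rw [Real.rpow_mul (by linarith)]
    exact Real.rpow_le_rpow (by norm_num) h6 (by linarith)
  have h9 : (2 : ℝ) ^ ((N : ℝ) ^ (δ' / 2)) * 4 ≤ (2 : ℝ) ^ (l : ℝ) := by
    calc (2 : ℝ) ^ ((N : ℝ) ^ (δ' / 2)) * 4 = (2 : ℝ) ^ ((N : ℝ) ^ (δ' / 2) + 2) := by
          rw [Real.rpow_add (by norm_num)]
          norm_num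
      _ ≤ _ := Real.rpow_le_rpow_of_exponent_le (by norm_num) h8
  have h10 : (1 : ℝ) < (2 : ℝ) ^ ((N : ℝ) ^ (δ' / 2)) :=
    Real.one_lt_rpow (by norm_num) (by positivity)
  have h11 : (N : ℝ) ^ (2 : ℕ) ≤ (2 : ℝ) ^ ((N : ℝ) ^ (δ' / 2)) := by
    have hlog0 : 0 ≤ Real.log N := Real.log_nonneg hnR
    rw [← Real.rpow_natCast, Real.rpow_def_of_pos hnp, Real.rpow_def_of_pos (by norm_num)]
    apply Real.exp_le_exp.mpr
    have h12 : (1 : ℝ) / 2 ≤ Real.log 2 := by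
      have := Real.log_two_gt_d9
      linarith
    rw [pow_one] at e4
    push_cast
    have h13 : (0 : ℝ) ≤ (N : ℝ) ^ (δ' / 2) := by positivity
    nlinarith
  linarith

/-- superpolynomial bound -/
theorem cnt_poly (B : ℕ) : ∃ C : ℝ, 0 < C ∧ ∀ a : ℝ, ∃ n0 : ℕ, ∀ N : ℕ, n0 ≤ N → ∃ A : ℕ,
    ∀ (t W : ℕ) (L : List ((Cls N → Bool) → Bool)) (out : Fin W → (Cls N → Bool) → Bool)
      (D : (Fin W → Bool) → Prop),
      BC t L → (∀ j, Available L (out j)) →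
      (∀ x, nSat x ≤ 2 ^ A → D (fun j => out j x)) →
      (∀ x, 2 ^ (A + ⌊(Real.log N) ^ B⌋₊) ≤ nSat x → ¬ D (fun j => out j x)) →
      (2 : ℝ) ^ t * (W + 1) ≤ (N : ℝ) ^ 2 / (Real.log N) ^ C →
      (N : ℝ) ^ a < L.length := by
  obtain ⟨δ0, hδ0, C, hC, l0, H⟩ := cnt_bool t_DUAL t_CNT
  set C' : ℝ := 2 * B + 22 + 5 * C with hC'
  refine ⟨C', by positivity, fun a => ?_⟩
  have hu : ∀ᶠ u : ℝ in atTop, (1 : ℝ) ≤ u ∧ (l0 : ℝ) ≤ u ∧ (2 : ℝ) ^ (1 / δ0) ≤ u ∧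
      u ^ C' ≤ Real.exp u ∧ 2 ≤ u ∧ |a| * 2 + 10 ≤ u := by
    refine (eventually_ge_atTop _).and ((eventually_ge_atTop _).and ((eventually_ge_atTop _).and
      (Filter.Eventually.and ?_ ((eventually_ge_atTop _).and (eventually_ge_atTop _)))))
    have h := (isLittleO_rpow_exp_atTop C').bound (zero_lt_one : (0 : ℝ) < 1)
    filter_upwards [h, eventually_ge_atTop (0 : ℝ)] with u h1 h2
    rw [one_mul, Real.norm_of_nonneg (by positivity), Real.norm_of_nonneg (Real.exp_pos _).le] at h1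
    exact h1
  have hn := (Real.tendsto_log_atTop.comp (tendsto_natCast_atTop_atTop (R := ℝ))).eventually hu
  obtain ⟨n0, hn0⟩ := eventually_atTop.mp hn
  refine ⟨max n0 1, ?_⟩
  intro N hnn
  obtain ⟨u1, u2, u3, u5, u6, u7⟩ := hn0 N ((le_max_left _ _).trans hnn)
  simp only [Function.comp_apply] at u1 u2 u3 u5 u6 u7
  have hn1 : 1 ≤ N := (le_max_right _ _).trans hnn
  have hnR : (1 : ℝ) ≤ N := by exact_mod_cast hn1
  have hnp : (0 : ℝ) < N := by linarith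
  rw [Real.exp_log hnp] at u5
  set u : ℝ := Real.log N with hudef
  have hup : 0 < u := by linarith
  have hu4 : u ≤ u ^ 4 := le_self_pow₀ u1 (by norm_num)
  have hu41 : (1 : ℝ) ≤ u ^ 4 := one_le_pow₀ u1
  set l : ℕ := ⌈u ^ 4⌉₊ with hl
  have hly : u ^ 4 ≤ l := Nat.le_ceil _
  have hly2 : (l : ℝ) < u ^ 4 + 1 := Nat.ceil_lt_add_one (by positivity)
  have hl5 : (l : ℝ) ≤ u ^ 5 := by
    have : u ^ 5 = u * u ^ 4 := by ring
    nlinarith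
  have hlpos : (0 : ℝ) < l := by linarith
  have hlC1 : (l : ℝ) ^ C ≤ u ^ (5 * C) := by
    calc (l : ℝ) ^ C ≤ (u ^ 5) ^ C := Real.rpow_le_rpow hlpos.le hl5 hC.le
      _ = u ^ (5 * C) := by
        rw [← Real.rpow_natCast, ← Real.rpow_mul hup.le]
        norm_num
  have hlCpos : (0 : ℝ) < (l : ℝ) ^ C := Real.rpow_pos_of_pos hlpos C
  set g : ℕ := ⌊u ^ B⌋₊ with hg
  set G : ℕ := l ^ 2 + g with hG
  have hgB : (g : ℝ) ≤ u ^ B := Nat.floor_le (by positivity)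
  have hGB : (G : ℝ) ≤ u ^ (B + 11) := by
    rw [hG]
    push_cast
    have h1 : (l : ℝ) ^ 2 ≤ u ^ 10 := by
      calc (l : ℝ) ^ 2 ≤ (u ^ 5) ^ 2 := pow_le_pow_left₀ hlpos.le hl5 2
        _ = u ^ 10 := by ring
    have h2 : u ^ 10 ≤ u ^ (B + 10) := pow_le_pow_right₀ u1 (by omega)
    have h3 : u ^ B ≤ u ^ (B + 10) := pow_le_pow_right₀ u1 (by omega)
    have h4 : u ^ (B + 11) = u * u ^ (B + 10) := by ring
    have h5 : (0 : ℝ) ≤ u ^ (B + 10) := by positivity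
    nlinarith
  have hG1 : (1 : ℝ) ≤ G := by
    rw [hG]
    push_cast
    have h1 : (1 : ℝ) ≤ (l : ℝ) ^ 2 := one_le_pow₀ (by linarith)
    have h2 : (0 : ℝ) ≤ (g : ℝ) := Nat.cast_nonneg _
    linarith
  have hGG : (G : ℝ) ^ 2 * (l : ℝ) ^ C ≤ u ^ C' := by
    calc (G : ℝ) ^ 2 * (l : ℝ) ^ C ≤ (u ^ (B + 11)) ^ 2 * u ^ (5 * C) :=
          mul_le_mul (pow_le_pow_left₀ (by linarith) hGB 2) hlC1 hlCpos.le (by positivity)
      _ = u ^ C' := by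
          rw [hC', ← pow_mul, ← Real.rpow_natCast u, ← Real.rpow_add hup]
          congr 1
          push_cast
          ring
  have hGN : (G : ℝ) * (l : ℝ) ^ C ≤ N := by
    refine le_trans ?_ (hGG.trans u5)
    apply mul_le_mul_of_nonneg_right _ hlCpos.le
    nlinarith
  have hl0 : (l0 : ℝ) ≤ l := by linarith
  obtain ⟨A, hA⟩ := H N l G (by exact_mod_cast hl0) (by omega) hly hGN
  refine ⟨A, ?_⟩
  intro t W L out D hL hout hyes hno ht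
  have hfree : (2 : ℝ) ^ t * (W + 1) ≤ (N : ℝ) ^ 2 / ((G : ℝ) ^ 2 * (l : ℝ) ^ C) := by
    refine ht.trans ?_
    apply div_le_div_of_nonneg_left (by positivity) (by positivity) hGG
  have hWn : (W : ℝ) + 1 ≤ (N : ℝ) ^ (2 : ℕ) := by
    have h1 : (1 : ℝ) ≤ (2 : ℝ) ^ t := one_le_pow₀ (by norm_num)
    have h2 : (W : ℝ) + 1 ≤ (2 : ℝ) ^ t * (W + 1) := by
      have : (0 : ℝ) ≤ W := Nat.cast_nonneg _
      nlinarith
    refine h2.trans (ht.trans ?_)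
    exact div_le_self (by positivity) (Real.one_le_rpow u1 (by positivity))
  have hmain := hA t W L out D hL hout hyes (fun x hx => hno x
    ((Nat.pow_le_pow_right (by norm_num) (by omega)).trans hx)) hfree
  have h3 : (2 : ℝ) ^ (1 / δ0) ≤ l := by linarith
  have h6 : (2 : ℝ) ≤ (l : ℝ) ^ δ0 := by
    calc (2 : ℝ) = ((2 : ℝ) ^ (1 / δ0)) ^ δ0 := by
          rw [← Real.rpow_mul (by norm_num), one_div, inv_mul_cancel₀ hδ0.ne', Real.rpow_one]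
      _ ≤ (l : ℝ) ^ δ0 := Real.rpow_le_rpow (by positivity) h3 hδ0.le
  have h7 : (2 : ℝ) ^ (l : ℝ) ≤ (l : ℝ) ^ (δ0 * l) := by
    rw [Real.rpow_mul hlpos.le]
    exact Real.rpow_le_rpow (by norm_num) h6 hlpos.le
  have h8 : Real.exp ((|a| + 2) * u + 3) ≤ (2 : ℝ) ^ (l : ℝ) := by
    rw [Real.rpow_def_of_pos (by norm_num)]
    apply Real.exp_le_exp.mpr
    have h9 : (1 : ℝ) / 2 ≤ Real.log 2 := by
      have := Real.log_two_gt_d9
      linarith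
    have h10 : u * u ≤ l := by
      have : u ^ 4 = u * u * (u * u) := by ring
      nlinarith
    have h11 : (|a| * 2 + 10) * u ≤ l := by nlinarith
    nlinarith [abs_nonneg a]
  have h9 : Real.exp ((|a| + 2) * u + 3) = (N : ℝ) ^ |a| * (N : ℝ) ^ (2 : ℕ) * Real.exp 3 := by
    rw [Real.exp_add, ← Real.rpow_natCast (N : ℝ) 2, ← Real.rpow_add hnp, Real.rpow_def_of_pos hnp,
      mul_comm (Real.log N)]
    push_cast
    rfl
  have h10 : (4 : ℝ) ≤ Real.exp 3 := by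
    have := Real.add_one_le_exp (3 : ℝ)
    linarith
  have h11 : (N : ℝ) ^ a ≤ (N : ℝ) ^ |a| := Real.rpow_le_rpow_of_exponent_le hnR (le_abs_self a)
  have h12 : (1 : ℝ) ≤ (N : ℝ) ^ |a| := Real.one_le_rpow hnR (abs_nonneg a)
  have h12' : (1 : ℝ) ≤ (N : ℝ) ^ (2 : ℕ) := one_le_pow₀ hnR
  have h13 : (N : ℝ) ^ |a| * (N : ℝ) ^ (2 : ℕ) * 4 ≤ 2 * (L.length : ℝ) + (W + 1) := by
    calc (N : ℝ) ^ |a| * (N : ℝ) ^ (2 : ℕ) * 4 ≤ (N : ℝ) ^ |a| * (N : ℝ) ^ (2 : ℕ) * Real.exp 3 :=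
          mul_le_mul_of_nonneg_left h10 (by positivity)
      _ = Real.exp ((|a| + 2) * u + 3) := h9.symm
      _ ≤ _ := h8.trans (h7.trans hmain)
  have h14 : (N : ℝ) ^ |a| ≤ (N : ℝ) ^ |a| * (N : ℝ) ^ (2 : ℕ) := by nlinarith
  have h15 : (N : ℝ) ^ (2 : ℕ) ≤ (N : ℝ) ^ |a| * (N : ℝ) ^ (2 : ℕ) := by nlinarith
  by_contra hcon
  push Not at hcon
  linarith

end Pool.Agent.H10x.NL.G2
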