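import Pool.Agent.H10x.NL.Fis

/-!
# Markov's theorem for circuits with several outputs
-/

namespace Pool.Agent.H10x.NL

open Fis

/-- Markov's theorem for circuits with several outputs -/
theorem fis_multi (E : Type) [Fintype E] (t s : ℕ) (L : List ((E → Bool) → Bool))
    (hb : BC t L) (hL : L.length ≤ s) :
    ∃ (t' : ℕ) (L' : List ((E → Bool) → Bool)), t' ≤ Nat.clog 2 (Fintype.card E + 1) ∧ BC t' L' ∧
      L'.length ≤ 2 * s + 10 * (Fintype.card E + 1) ^ 3 ∧ ∀ f, Available L f → Available L' f := by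
  classical
  set N := Fintype.card E with hN
  set r := Nat.clog 2 (N + 1) with hr
  let U : List E := Finset.univ.toList
  have hU : ∀ e, e ∈ U := fun e => Finset.mem_toList.2 (Finset.mem_univ e)
  have hlen : U.length = N := by
    rw [Finset.length_toList, Finset.card_univ]
  have h2r : N + 1 ≤ 2 ^ r := Nat.le_pow_clog (by norm_num) _
  have h2r' : 2 ^ r ≤ 2 * (N + 1) := pow_clog_le _ (by omega)
  obtain ⟨L1, b1, l1, m1, a1⟩ := thr (BC.nil (E := E)) N U
  have hcl : ∀ x : E → Bool, (U.countP fun e => x e) ≤ N := by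
    intro x
    rw [← hlen]
    exact List.countP_le_length
  obtain ⟨L2, b2, l2, m2, a2⟩ := neg r b1 (T U) (by
    intro i x h
    simp only [T, decide_eq_true_eq] at h ⊢
    omega) (by
    intro i _ _
    by_cases hi : i ≤ N
    · exact a1 i hi
    · have e : T U i = fun _ => false := by
        funext x
        simp only [T, decide_eq_false_iff_not]
        have := hcl x
        omega
      rw [e]
      exact avail_const _ _)
  obtain ⟨L3, b3, l3, m3, a3⟩ := ninp hU b2 (by
    intro i h1 h2
    exact a2 i h1 (by omega)) U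
  obtain ⟨L4, b4, l4, m4, a4⟩ := morgan b3 (fun e => a3 e (hU e)) hb
  refine ⟨0 + r, L4, by omega, b4, ?_, fun f hf => (a4 f hf).1⟩
  rw [hlen] at l1 l3
  rw [List.length_nil] at l1
  have h1 : 2 * N * N = 2 * N ^ 2 := by ring
  have h2 : (2 * N * (N - 1) + 2 * N) * N ≤ 2 * N ^ 3 := by
    rcases Nat.eq_zero_or_pos N with h0 | h0
    · rw [h0]
      simp
    · obtain ⟨M, hM⟩ := Nat.exists_eq_add_of_le' h0
      have hM' : N = M + 1 := hM
      rw [hM', Nat.add_sub_cancel]
      apply le_of_eq
      ring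
  have h3 : 10 * (N + 1) ^ 3 = 10 * N ^ 3 + 30 * N ^ 2 + 30 * N + 10 := by ring
  rw [h3]
  omega

end Pool.Agent.H10x.NL
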