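import Pool.Agent.H10x.NL.Cnt3
import Pool.Agent.H10x.NL.Fis2

/-!
# Exact counting with few NOT gates
-/

set_option linter.unusedSectionVars false
set_option linter.unusedVariables false

namespace Pool.Agent.H10x.NL.G2

open Finset Pool.Agent.W969.MC Filter

/-- the disjunction of a list of available functions -/
lemma or_list {E : Type} {t : ℕ} {L : List ((E → Bool) → Bool)} (hL : BC t L)
    (l : List ((E → Bool) → Bool)) (hl : ∀ f ∈ l, Available L f) :
    ∃ L' : List ((E → Bool) → Bool), BC t L' ∧ L'.length ≤ L.length + l.length ∧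
      (∀ f, Available L f → Available L' f) ∧ Available L' (fun x => l.any (fun f => f x)) := by
  induction l with
  | nil => exact ⟨L, hL, by simp, fun _ h => h, Or.inr (Or.inl ⟨false, by funext x; simp⟩)⟩
  | cons g l ih =>
    obtain ⟨L', h1, h2, h3, h4⟩ := ih (fun f hf => hl f (List.mem_cons_of_mem _ hf))
    refine ⟨_, BC.or h1 (h3 g (hl g List.mem_cons_self)) h4, ?_, ?_, ?_⟩
    · simp only [List.length_cons]
      omega
    · intro f hf
      rcases h3 f hf with h | h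
      · exact Or.inl (List.mem_cons_of_mem _ h)
      · exact Or.inr h
    · refine Or.inl ?_
      have : (fun x : E → Bool => (g :: l).any (fun f => f x)) =
          fun x => g x || (fun x => l.any (fun f => f x)) x := by
        funext x
        simp
      rw [this]
      exact List.mem_cons_self

/-- the sum of the digits below `A + 1` -/
lemma digits_lt {M : ℕ} (b : Fin M → Bool) (A : ℕ) (h : ∀ j : Fin M, A < (j : ℕ) → b j = false) :
    ∑ j : Fin M, (if b j = true then 2 ^ (j : ℕ) else 0) < 2 ^ (A + 1) := by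
  have h1 : ∑ j : Fin M, (if b j = true then 2 ^ (j : ℕ) else 0) ≤
      ∑ i ∈ range M, (if i ≤ A then 2 ^ i else 0) := by
    rw [Finset.sum_range]
    apply Finset.sum_le_sum
    intro j _
    by_cases hj : A < (j : ℕ)
    · rw [h j hj]
      simp
    · push Not at hj
      rw [if_pos hj]
      split_ifs <;> simp
  have h2 : ∑ i ∈ range M, (if i ≤ A then 2 ^ i else 0) ≤ ∑ i ∈ range (A + 1), 2 ^ i := by
    rw [← Finset.sum_filter]
    apply Finset.sum_le_sum_of_subset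
    intro i hi
    rw [Finset.mem_filter] at hi
    rw [Finset.mem_range]
    omega
  have h3 : ∑ i ∈ range (A + 1), 2 ^ i < 2 ^ (A + 1) := by
    rw [Nat.geomSum_eq (le_refl 2)]
    have : 0 < 2 ^ (A + 1) := by positivity
    omega
  omega

/-- the number of satisfying assignments in binary is computed -/
def CountsLib (N t s : ℕ) : Prop :=
  ∃ (t' : ℕ) (L : List ((Cls N → Bool) → Bool)) (out : Fin (N + 1) → (Cls N → Bool) → Bool),
    t' ≤ t ∧ BC t' L ∧ L.length ≤ s ∧ (∀ j, Available L (out j)) ∧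
    ∀ x, nSat x = ∑ j : Fin (N + 1), if out j x = true then 2 ^ (j : ℕ) else 0

/-- exact counting separates -/
lemma counts_sep {N t s : ℕ} (h : CountsLib N t s) (A g : ℕ) (hg : 1 ≤ g) :
    ∃ (t' : ℕ) (L : List ((Cls N → Bool) → Bool)) (f : (Cls N → Bool) → Bool), t' ≤ t ∧ BC t' L ∧
      L.length ≤ s + (N + 1) ∧ Available L f ∧ (∀ x, nSat x ≤ 2 ^ A → ¬ f x = true) ∧
      (∀ x, 2 ^ (A + g) ≤ nSat x → f x = true) := by
  classical
  obtain ⟨t', L, out, h1, h2, h3, h4, h5⟩ := h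
  obtain ⟨L', g1, g2, g3, g4⟩ := or_list h2
    ((List.ofFn fun j : Fin (N + 1) => if A < (j : ℕ) then out j else fun _ => false)) (by
      intro f hf
      rw [List.mem_ofFn] at hf
      obtain ⟨j, rfl⟩ := hf
      split_ifs
      · exact h4 j
      · exact Or.inr (Or.inl ⟨false, rfl⟩))
  have key : ∀ x : Cls N → Bool, (List.ofFn fun j : Fin (N + 1) =>
      if A < (j : ℕ) then out j else fun _ => false).any (fun f => f x) = true ↔
      ∃ j : Fin (N + 1), A < (j : ℕ) ∧ out j x = true := by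
    intro x
    rw [List.any_eq_true]
    constructor
    · rintro ⟨f, hf, hfx⟩
      rw [List.mem_ofFn] at hf
      obtain ⟨j, rfl⟩ := hf
      split_ifs at hfx with hj
      · exact ⟨j, hj, hfx⟩
    · rintro ⟨j, hj, hjx⟩
      refine ⟨_, List.mem_ofFn.mpr ⟨j, rfl⟩, ?_⟩
      rw [if_pos hj]
      exact hjx
  refine ⟨t', L', _, h1, g1, ?_, g4, ?_, ?_⟩
  · rw [List.length_ofFn] at g2
    omega
  · intro x hx hfx
    obtain ⟨j, hj, hjx⟩ := (key x).mp hfx
    have h6 : 2 ^ (j : ℕ) ≤ nSat x := by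
      rw [h5 x]
      have h7 := Finset.single_le_sum (f := fun j : Fin (N + 1) =>
        if out j x = true then 2 ^ (j : ℕ) else 0) (fun i _ => Nat.zero_le _) (Finset.mem_univ j)
      simp only [hjx, if_true] at h7
      exact h7
    have h7 : 2 ^ A < 2 ^ (j : ℕ) := Nat.pow_lt_pow_right (by norm_num) hj
    omega
  · intro x hx
    rw [key x]
    by_contra hcon
    push Not at hcon
    have h6 := digits_lt (fun j => out j x) A (fun j hj => Bool.eq_false_of_not_eq_true (hcon j hj))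
    rw [← h5 x] at h6
    have h7 : 2 ^ (A + 1) ≤ 2 ^ (A + g) := Nat.pow_le_pow_right (by norm_num) (by omega)
    omega

/-- exact counting, exponential bound -/
theorem exact_exp (ε : ℝ) (hε : 0 < ε) : ∃ δ : ℝ, 0 < δ ∧ ∃ n0 : ℕ, ∀ N : ℕ, n0 ≤ N →
    ∀ t s : ℕ, (2 : ℝ) ^ t ≤ (N : ℝ) ^ (2 - ε) → CountsLib N t s →
      (2 : ℝ) ^ ((N : ℝ) ^ δ) < s := by
  have hε2 : 0 < ε / 2 := by positivity
  obtain ⟨δ, hδ, n0, H⟩ := cnt_exp (ε / 2) hε2
  obtain ⟨n1, hn1⟩ := ev_rpow (η := δ / 2) (by positivity) 2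
  obtain ⟨n2, hn2⟩ := ev_log 1 (η := δ / 2) (by positivity) 4
  obtain ⟨n3, hn3⟩ := ev_rpow (η := ε / 2) hε2 2
  refine ⟨δ / 2, by positivity, max (max n0 n1) (max (max n2 n3) 2), ?_⟩
  intro N hn t s ht hc
  have g0 : n0 ≤ N := (le_max_left _ _).trans ((le_max_left _ _).trans hn)
  have g1 : n1 ≤ N := (le_max_right _ _).trans ((le_max_left _ _).trans hn)
  have g2 : n2 ≤ N :=
    (le_max_left _ _).trans ((le_max_left _ _).trans ((le_max_right _ _).trans hn))
  have g3 : n3 ≤ N :=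
    (le_max_right _ _).trans ((le_max_left _ _).trans ((le_max_right _ _).trans hn))
  have g4 : 2 ≤ N := (le_max_right _ _).trans ((le_max_right _ _).trans hn)
  have hnR : (2 : ℝ) ≤ N := by exact_mod_cast g4
  have hnp : (0 : ℝ) < N := by linarith
  have e1 := hn1 N g1
  have e2 := hn2 N g2
  have e3 := hn3 N g3
  obtain ⟨A, hA⟩ := H N g0
  have hNδ : (4 : ℝ) ≤ (N : ℝ) ^ δ := by
    have : (N : ℝ) ^ δ = (N : ℝ) ^ (δ / 2) * (N : ℝ) ^ (δ / 2) := by
      rw [← Real.rpow_add hnp]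
      congr 1
      ring
    nlinarith
  have hg : 1 ≤ ⌊(N : ℝ) ^ δ⌋₊ := by
    rw [Nat.one_le_floor_iff]
    linarith
  obtain ⟨t', L, f, h1, h2, h3, h4, h5, h6⟩ := counts_sep hc A _ hg
  have hmain := hA t' 1 L (fun _ => f) (fun z => ¬ z 0 = true) h2 (fun _ => h4)
    (fun x hx => h5 x hx) (fun x hx hh => hh (h6 x hx)) (by
      have h7 : (2 : ℝ) ^ t' ≤ (N : ℝ) ^ (2 - ε) :=
        (pow_le_pow_right₀ (by norm_num) h1).trans ht
      calc (2 : ℝ) ^ t' * (((1 : ℕ) : ℝ) + 1) ≤ (N : ℝ) ^ (2 - ε) * (N : ℝ) ^ (ε / 2) := by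
            apply mul_le_mul h7 _ (by positivity) (by positivity)
            push_cast
            linarith
        _ = (N : ℝ) ^ (2 - ε / 2) := by
            rw [← Real.rpow_add hnp]
            congr 1
            ring)
  have h7 : (L.length : ℝ) ≤ s + (N + 1) := by exact_mod_cast h3
  have h8 : (N : ℝ) ^ δ = (N : ℝ) ^ (δ / 2) * (N : ℝ) ^ (δ / 2) := by
    rw [← Real.rpow_add hnp]
    congr 1
    ring
  have h9 : (N : ℝ) ^ (δ / 2) + (N : ℝ) ^ (δ / 2) ≤ (N : ℝ) ^ δ := by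
    rw [h8]
    nlinarith
  have h10 : (2 : ℝ) ^ ((N : ℝ) ^ (δ / 2)) * (2 : ℝ) ^ ((N : ℝ) ^ (δ / 2)) ≤ (2 : ℝ) ^ ((N : ℝ) ^ δ) := by
    rw [← Real.rpow_add (by norm_num)]
    exact Real.rpow_le_rpow_of_exponent_le (by norm_num) h9
  have h11 : (N : ℝ) ^ (2 : ℕ) ≤ (2 : ℝ) ^ ((N : ℝ) ^ (δ / 2)) := by
    have hlog0 : 0 ≤ Real.log N := Real.log_nonneg (by linarith)
    rw [← Real.rpow_natCast, Real.rpow_def_of_pos hnp, Real.rpow_def_of_pos (by norm_num)]
    apply Real.exp_le_exp.mpr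
    have h12 : (1 : ℝ) / 2 ≤ Real.log 2 := by
      have := Real.log_two_gt_d9
      linarith
    rw [pow_one] at e2
    push_cast
    have h13 : (0 : ℝ) ≤ (N : ℝ) ^ (δ / 2) := by positivity
    nlinarith
  set z : ℝ := (2 : ℝ) ^ ((N : ℝ) ^ (δ / 2)) with hz
  have h12 : (N : ℝ) ^ (2 : ℕ) * z ≤ z * z := mul_le_mul_of_nonneg_right h11 (by positivity)
  have h13 : (4 : ℝ) ≤ z := by nlinarith
  have h14 : (N : ℝ) + 1 + z ≤ (N : ℝ) ^ (2 : ℕ) * z := by
    have h15 : ((N : ℝ) + 2) * z ≤ (N : ℝ) ^ (2 : ℕ) * z :=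
      mul_le_mul_of_nonneg_right (by nlinarith) (by linarith)
    have h16 : (N : ℝ) * 1 ≤ N * z := mul_le_mul_of_nonneg_left (by linarith) hnp.le
    linarith
  linarith

/-- exact counting, superpolynomial bound -/
theorem exact_poly : ∃ C : ℝ, 0 < C ∧ ∀ a : ℝ, ∃ n0 : ℕ, ∀ N : ℕ, n0 ≤ N →
    ∀ t s : ℕ, (2 : ℝ) ^ t ≤ (N : ℝ) ^ 2 / (Real.log N) ^ C → CountsLib N t s →
      (N : ℝ) ^ a < s := by
  obtain ⟨C, hC, H⟩ := cnt_poly 1
  refine ⟨C + 1, by positivity, fun a => ?_⟩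
  obtain ⟨n0, hn0⟩ := H (|a| + 2)
  have hu := (Real.tendsto_log_atTop.comp
    (tendsto_natCast_atTop_atTop (R := ℝ))).eventually_ge_atTop 2
  obtain ⟨n1, hn1⟩ := eventually_atTop.mp hu
  refine ⟨max (max n0 n1) 2, ?_⟩
  intro N hn t s ht hc
  have g0 : n0 ≤ N := (le_max_left _ _).trans ((le_max_left _ _).trans hn)
  have g1 : n1 ≤ N := (le_max_right _ _).trans ((le_max_left _ _).trans hn)
  have g4 : 2 ≤ N := (le_max_right _ _).trans hn
  have hnR : (2 : ℝ) ≤ N := by exact_mod_cast g4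
  have hnp : (0 : ℝ) < N := by linarith
  have hlog : (2 : ℝ) ≤ Real.log N := hn1 N g1
  obtain ⟨A, hA⟩ := hn0 N g0
  have hg : 1 ≤ ⌊(Real.log N) ^ 1⌋₊ := by
    rw [Nat.one_le_floor_iff, pow_one]
    linarith
  obtain ⟨t', L, f, h1, h2, h3, h4, h5, h6⟩ := counts_sep hc A _ hg
  have hmain := hA t' 1 L (fun _ => f) (fun z => ¬ z 0 = true) h2 (fun _ => h4)
    (fun x hx => h5 x hx) (fun x hx hh => hh (h6 x hx)) (by
      have h7 : (2 : ℝ) ^ t' ≤ (N : ℝ) ^ 2 / (Real.log N) ^ (C + 1) :=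
        (pow_le_pow_right₀ (by norm_num) h1).trans ht
      have hlC : (0 : ℝ) < (Real.log N) ^ C := Real.rpow_pos_of_pos (by linarith) C
      have hlC1 : (Real.log N) ^ (C + 1) = (Real.log N) ^ C * Real.log N := by
        rw [Real.rpow_add (by linarith), Real.rpow_one]
      rw [hlC1, le_div_iff₀ (by positivity)] at h7
      rw [le_div_iff₀ hlC]
      push_cast
      have h8 : (0 : ℝ) ≤ 2 ^ t' * (Real.log N) ^ C := by positivity
      nlinarith)
  have h7 : (L.length : ℝ) ≤ s + (N + 1) := by exact_mod_cast h3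
  have h8 : (N : ℝ) ^ (|a| + 2) = (N : ℝ) ^ |a| * (N : ℝ) ^ (2 : ℕ) := by
    rw [Real.rpow_add hnp, ← Real.rpow_natCast (N : ℝ) 2]
    norm_num
  have h9 : (N : ℝ) ^ a ≤ (N : ℝ) ^ |a| :=
    Real.rpow_le_rpow_of_exponent_le (by linarith) (le_abs_self a)
  have h10 : (1 : ℝ) ≤ (N : ℝ) ^ |a| := Real.one_le_rpow (by linarith) (abs_nonneg a)
  rw [h8] at hmain
  have h11 : (N : ℝ) ^ |a| * (N + 2) ≤ (N : ℝ) ^ |a| * (N : ℝ) ^ (2 : ℕ) := by
    apply mul_le_mul_of_nonneg_left _ (by linarith)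
    nlinarith
  have h12 : (N : ℝ) + 1 + (N : ℝ) ^ |a| ≤ (N : ℝ) ^ |a| * (N + 2) := by nlinarith
  linarith

/-- the number of clauses -/
lemma card_cls (N : ℕ) : Fintype.card (Cls N) = 2 * N ^ 2 + N + 1 := by
  classical
  rw [Fintype.card_subtype]
  have h1 : (univ.filter fun c : Finset (Fin N × Bool) => c.card ≤ 2) =
      powersetCard 0 univ ∪ (powersetCard 1 univ ∪ powersetCard 2 univ) := by
    ext c
    simp only [mem_filter, mem_univ, true_and, mem_union, mem_powersetCard, subset_univ]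
    omega
  rw [h1, card_union_of_disjoint, card_union_of_disjoint, card_powersetCard, card_powersetCard,
    card_powersetCard, card_univ, Fintype.card_prod, Fintype.card_fin, Fintype.card_bool,
    Nat.choose_zero_right, Nat.choose_one_right, Nat.choose_two_right]
  · obtain _ | N := N
    · simp
    · have : (N + 1) * 2 * ((N + 1) * 2 - 1) / 2 = (N + 1) * (2 * N + 1) := by
        have h2 : (N + 1) * 2 - 1 = 2 * N + 1 := by omega
        rw [h2]
        have h3 : (N + 1) * 2 * (2 * N + 1) = 2 * ((N + 1) * (2 * N + 1)) := by ring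
        rw [h3, Nat.mul_div_cancel_left _ (by norm_num)]
      rw [this]
      ring
  · rw [Finset.disjoint_left]
    intro c hc hc'
    rw [mem_powersetCard] at hc hc'
    omega
  · rw [Finset.disjoint_left]
    intro c hc hc'
    rw [mem_union, mem_powersetCard, mem_powersetCard] at hc'
    rw [mem_powersetCard] at hc
    omega

/-- the converse -/
theorem exact_fis (N t s : ℕ) (h : CountsLib N t s) :
    CountsLib N (Nat.clog 2 (2 * N ^ 2 + N + 2)) (2 * s + 10 * (2 * N ^ 2 + N + 2) ^ 3) := by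
  classical
  obtain ⟨t', L, out, h1, h2, h3, h4, h5⟩ := h
  obtain ⟨t'', L', g1, g2, g3, g4⟩ := fis_multi (Cls N) t' s L h2 h3
  rw [card_cls] at g1 g3
  exact ⟨t'', L', out, g1, g2, g3, fun j => g4 _ (h4 j), h5⟩

end Pool.Agent.H10x.NL.G2
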