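import Pool.Agent.H10x.NL.Stm

/-!
# Piece FIS: `⌈log₂ (N + 1)⌉` NOT gates suffice (helper6)
-/

set_option autoImplicit false

namespace Pool.Agent.H10x.NL

namespace Fis

variable {E : Type}

/-- everything available in `L` is available in `L'` -/
def Mono (L L' : List ((E → Bool) → Bool)) : Prop := ∀ f, Available L f → Available L' f

theorem Mono.refl (L : List ((E → Bool) → Bool)) : Mono L L := fun _ h => h

theorem Mono.trans {L L' L'' : List ((E → Bool) → Bool)} (h : Mono L L') (h' : Mono L' L'') :
    Mono L L'' := fun f hf => h' f (h f hf)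

theorem mono_cons (L : List ((E → Bool) → Bool)) (g : (E → Bool) → Bool) : Mono L (g :: L) := by
  rintro f (h | h)
  · exact Or.inl (List.mem_cons_of_mem _ h)
  · exact Or.inr h

theorem avail_const (L : List ((E → Bool) → Bool)) (c : Bool) : Available L (fun _ => c) :=
  Or.inr (Or.inl ⟨c, rfl⟩)

theorem avail_input (L : List ((E → Bool) → Bool)) (e : E) : Available L (fun x => x e) :=
  Or.inr (Or.inr ⟨e, rfl⟩)

/-- `f` can be computed from `L` with `m` gates, without NOT gates -/
def Der (L : List ((E → Bool) → Bool)) (m : ℕ) (f : (E → Bool) → Bool) : Prop :=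
  ∀ t L', BC t L' → Mono L L' →
    ∃ L'', BC t L'' ∧ L''.length ≤ L'.length + m ∧ Mono L' L'' ∧ Available L'' f

theorem Der.of_avail {L : List ((E → Bool) → Bool)} {f : (E → Bool) → Bool} (h : Available L f) :
    Der L 0 f := fun _ L' hb hm => ⟨L', hb, le_rfl, Mono.refl _, hm f h⟩

theorem Der.and {L : List ((E → Bool) → Bool)} {f g : (E → Bool) → Bool} {m m' : ℕ}
    (hf : Der L m f) (hg : Der L m' g) : Der L (m + m' + 1) (fun x => f x && g x) := by
  intro t L' hb hm
  obtain ⟨L1, b1, l1, m1, a1⟩ := hf t L' hb hm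
  obtain ⟨L2, b2, l2, m2, a2⟩ := hg t L1 b1 (hm.trans m1)
  refine ⟨_, BC.and b2 (m2 f a1) a2, ?_, (m1.trans m2).trans (mono_cons _ _),
    Or.inl List.mem_cons_self⟩
  rw [List.length_cons]
  omega

theorem Der.or {L : List ((E → Bool) → Bool)} {f g : (E → Bool) → Bool} {m m' : ℕ}
    (hf : Der L m f) (hg : Der L m' g) : Der L (m + m' + 1) (fun x => f x || g x) := by
  intro t L' hb hm
  obtain ⟨L1, b1, l1, m1, a1⟩ := hf t L' hb hm
  obtain ⟨L2, b2, l2, m2, a2⟩ := hg t L1 b1 (hm.trans m1)
  refine ⟨_, BC.or b2 (m2 f a1) a2, ?_, (m1.trans m2).trans (mono_cons _ _),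
    Or.inl List.mem_cons_self⟩
  rw [List.length_cons]
  omega

theorem loop {c n : ℕ} {F : ℕ → (E → Bool) → Bool} {t : ℕ} {L : List ((E → Bool) → Bool)}
    (hb : BC t L) (h : ∀ i < n, Der L c (F i)) :
    ∃ L', BC t L' ∧ L'.length ≤ L.length + c * n ∧ Mono L L' ∧ ∀ i < n, Available L' (F i) := by
  induction n with
  | zero => exact ⟨L, hb, by simp, Mono.refl _, fun i hi => absurd hi (Nat.not_lt_zero i)⟩
  | succ n ih =>
    obtain ⟨L1, b1, l1, m1, a1⟩ := ih fun i hi => h i (Nat.lt_succ_of_lt hi)
    obtain ⟨L2, b2, l2, m2, a2⟩ := h n (Nat.lt_succ_self n) _ L1 b1 m1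
    refine ⟨L2, b2, ?_, m1.trans m2, fun i hi => ?_⟩
    · rw [Nat.mul_succ]
      omega
    · rcases Nat.lt_succ_iff_lt_or_eq.1 hi with h1 | rfl
      · exact m2 _ (a1 i h1)
      · exact a2

/-! ### Thresholds -/

/-- the threshold function: at least `i` of the inputs in the list are `true` -/
def T (l : List E) (i : ℕ) : (E → Bool) → Bool := fun x => decide (i ≤ l.countP fun e => x e)

theorem T_zero (l : List E) : T l 0 = fun _ => true := by
  funext x
  simp [T]

theorem T_nil (i : ℕ) : T ([] : List E) (i + 1) = fun _ => false := by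
  funext x
  simp [T]

theorem T_cons (e : E) (l : List E) (i : ℕ) :
    T (e :: l) (i + 1) = fun x => T l (i + 1) x || (T l i x && x e) := by
  funext x
  unfold T
  rw [List.countP_cons]
  cases hx : x e
  · simp
  · simp only [if_true, Bool.and_true]
    rw [← Bool.decide_or]
    refine decide_eq_decide.2 ?_
    omega

theorem thr {t : ℕ} {L : List ((E → Bool) → Bool)} (hb : BC t L) (N : ℕ) (l : List E) :
    ∃ L', BC t L' ∧ L'.length ≤ L.length + 2 * N * l.length ∧ Mono L L' ∧
      ∀ i ≤ N, Available L' (T l i) := by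
  induction l with
  | nil =>
    refine ⟨L, hb, by simp, Mono.refl _, fun i _ => ?_⟩
    cases i with
    | zero => rw [T_zero]; exact avail_const _ _
    | succ i => rw [T_nil]; exact avail_const _ _
  | cons e l ih =>
    obtain ⟨L1, b1, l1, m1, a1⟩ := ih
    obtain ⟨L2, b2, l2, m2, a2⟩ := loop (c := 2) (n := N) (F := fun i => T (e :: l) (i + 1)) b1 (by
      intro i hi
      rw [T_cons]
      exact (Der.of_avail (a1 _ hi)).or
        ((Der.of_avail (a1 _ hi.le)).and (Der.of_avail (avail_input _ e))))
    refine ⟨L2, b2, ?_, m1.trans m2, fun i hi => ?_⟩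
    · rw [List.length_cons, Nat.mul_succ]
      omega
    · cases i with
      | zero => rw [T_zero]; exact avail_const _ _
      | succ i => exact a2 i hi

/-! ### Negations of a decreasing sequence -/

theorem neg (r : ℕ) : ∀ {t : ℕ} {L : List ((E → Bool) → Bool)} (_ : BC t L)
    (y : ℕ → (E → Bool) → Bool) (_ : ∀ i x, y (i + 1) x = true → y i x = true)
    (_ : ∀ i, 1 ≤ i → i < 2 ^ r → Available L (y i)),
    ∃ L', BC (t + r) L' ∧ L'.length ≤ L.length + 4 * 2 ^ r ∧ Mono L L' ∧
      ∀ i, 1 ≤ i → i < 2 ^ r → Available L' (fun x => !y i x) := by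
  induction r with
  | zero =>
    intro t L hb y _ _
    refine ⟨L, hb, by omega, Mono.refl _, fun i h1 h2 => ?_⟩
    rw [pow_zero] at h2
    omega
  | succ r ih =>
    intro t L hb y hy ha
    have hpow : 2 ^ (r + 1) = 2 ^ r + 2 ^ r := by rw [pow_succ]; ring
    have hpos : 0 < 2 ^ r := Nat.pow_pos (by norm_num)
    have hmono : ∀ (x : E → Bool) (i d : ℕ), y (i + d) x = true → y i x = true := by
      intro x i d
      induction d with
      | zero => exact id
      | succ d ihd => exact fun h => ihd (hy _ x h)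
    have hmono' : ∀ (x : E → Bool) (i j : ℕ), i ≤ j → y j x = true → y i x = true := by
      intro x i j hij h
      obtain ⟨d, rfl⟩ := Nat.exists_eq_add_of_le hij
      exact hmono x i d h
    set v : (E → Bool) → Bool := fun x => !y (2 ^ r) x with hv
    have b1 : BC (t + 1) (v :: L) := BC.not hb (ha _ hpos (by omega))
    have m1 : Mono L (v :: L) := mono_cons _ _
    have av1 : Available (v :: L) v := Or.inl List.mem_cons_self
    let w : ℕ → (E → Bool) → Bool := fun i x => y (i + 2 ^ r) x || (y i x && v x)
    obtain ⟨L2, b2, l2, m2, a2⟩ := loop (c := 2) (n := 2 ^ r - 1) (F := fun i => w (i + 1)) b1 (by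
      intro i hi
      exact (Der.of_avail (m1 _ (ha (i + 1 + 2 ^ r) (by omega) (by omega)))).or
        ((Der.of_avail (m1 _ (ha (i + 1) (by omega) (by omega)))).and (Der.of_avail av1)))
    obtain ⟨L3, b3, l3, m3, a3⟩ := ih b2 w (by
      intro i x h
      simp only [w, Bool.or_eq_true, Bool.and_eq_true] at h ⊢
      rcases h with h | h
      · left
        have e : i + 1 + 2 ^ r = i + 2 ^ r + 1 := by ring
        rw [e] at h
        exact hy _ x h
      · right
        exact ⟨hy _ x h.1, h.2⟩) (by
      intro i h1 h2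
      obtain ⟨j, rfl⟩ := Nat.exists_eq_add_of_le' h1
      exact a2 j (by omega))
    have av3 : Available L3 v := m3 _ (m2 _ av1)
    obtain ⟨L4, b4, l4, m4, a4⟩ := loop (c := 1) (n := 2 ^ r - 1)
      (F := fun i => fun x => !y (i + 1) x) b3 (by
      intro i hi
      have e : (fun x => !y (i + 1) x) = fun x => (fun x => !w (i + 1) x) x && v x := by
        funext x
        simp only [w, hv]
        cases hu : y (2 ^ r) x
        · have h1 : y (i + 1 + 2 ^ r) x = false := by
            by_contra h
            rw [Bool.not_eq_false] at h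
            rw [hmono' x (2 ^ r) _ (by omega) h] at hu
            exact absurd hu (by decide)
          simp [h1]
        · have h1 : y (i + 1) x = true := hmono' x _ _ (by omega) hu
          simp [h1]
      rw [e]
      exact (Der.of_avail (a3 (i + 1) (by omega) (by omega))).and (Der.of_avail av3))
    obtain ⟨L5, b5, l5, m5, a5⟩ := loop (c := 1) (n := 2 ^ r - 1)
      (F := fun i => fun x => !y (i + 1 + 2 ^ r) x) b4 (by
      intro i hi
      have e : (fun x => !y (i + 1 + 2 ^ r) x) = fun x => (fun x => !w (i + 1) x) x || v x := by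
        funext x
        simp only [w, hv]
        cases hu : y (2 ^ r) x
        · have h1 : y (i + 1 + 2 ^ r) x = false := by
            by_contra h
            rw [Bool.not_eq_false] at h
            rw [hmono' x (2 ^ r) _ (by omega) h] at hu
            exact absurd hu (by decide)
          simp [h1]
        · simp
      rw [e]
      exact (Der.of_avail (m4 _ (a3 (i + 1) (by omega) (by omega)))).or
        (Der.of_avail (m4 _ av3)))
    refine ⟨L5, ?_, ?_, (((m1.trans m2).trans m3).trans m4).trans m5, fun i h1 h2 => ?_⟩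
    · have e : t + (r + 1) = t + 1 + r := by ring
      rw [e]
      exact b5
    · rw [List.length_cons] at l2
      omega
    · rcases lt_trichotomy i (2 ^ r) with h3 | h3 | h3
      · obtain ⟨j, rfl⟩ := Nat.exists_eq_add_of_le' h1
        exact m5 _ (a4 j (by omega))
      · rw [h3]
        exact m5 _ (m4 _ av3)
      · obtain ⟨j, rfl⟩ := Nat.exists_eq_add_of_le (show 2 ^ r + 1 ≤ i from h3)
        have e : 2 ^ r + 1 + j = j + 1 + 2 ^ r := by ring
        rw [e]
        exact a5 j (by omega)

/-! ### Negated inputs -/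

/-- the conjunction of the first `n` functions -/
def ba (G : ℕ → (E → Bool) → Bool) : ℕ → (E → Bool) → Bool
  | 0 => fun _ => true
  | n + 1 => fun x => ba G n x && G n x

theorem ba_true (G : ℕ → (E → Bool) → Bool) (n : ℕ) (x : E → Bool) :
    ba G n x = true ↔ ∀ i < n, G i x = true := by
  induction n with
  | zero => simp [ba]
  | succ n ih =>
    simp only [ba, Bool.and_eq_true, ih]
    constructor
    · rintro ⟨h1, h2⟩ i hi
      rcases Nat.lt_succ_iff_lt_or_eq.1 hi with h3 | rfl
      · exact h1 i h3
      · exact h2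
    · intro h
      exact ⟨fun i hi => h i (Nat.lt_succ_of_lt hi), h n (Nat.lt_succ_self n)⟩

theorem der_ba {L : List ((E → Bool) → Bool)} {G : ℕ → (E → Bool) → Bool} (n : ℕ)
    (h : ∀ i < n, Der L 1 (G i)) : Der L (2 * n) (ba G n) := by
  induction n with
  | zero => exact Der.of_avail (avail_const _ _)
  | succ n ih =>
    have h1 := (ih fun i hi => h i (Nat.lt_succ_of_lt hi)).and (h n (Nat.lt_succ_self n))
    exact h1

theorem ninp [DecidableEq E] {U : List E} (hU : ∀ e, e ∈ U) {t : ℕ}
    {L : List ((E → Bool) → Bool)} (hb : BC t L)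
    (hT : ∀ i, 1 ≤ i → i ≤ U.length → Available L (fun x => !T U i x)) (es : List E) :
    ∃ L', BC t L' ∧ L'.length ≤ L.length + (2 * U.length * (U.length - 1) + 2 * U.length) * es.length ∧
      Mono L L' ∧ ∀ e ∈ es, Available L' (fun x => !x e) := by
  induction es with
  | nil => exact ⟨L, hb, by simp, Mono.refl _, fun e he => absurd he List.not_mem_nil⟩
  | cons e es ih =>
    obtain ⟨L1, b1, l1, m1, a1⟩ := ih
    obtain ⟨L2, b2, l2, m2, a2⟩ := thr b1 U.length (U.erase e)
    have hlen : (U.erase e).length = U.length - 1 := List.length_erase_of_mem (hU e)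
    have hcount : ∀ x : E → Bool, (U.countP fun a => x a) =
        ((U.erase e).countP fun a => x a) + if x e = true then 1 else 0 := by
      intro x
      rw [(List.perm_cons_erase (hU e)).countP_eq, List.countP_cons]
    have heq : (fun x : E → Bool => !x e) =
        ba (fun i x => (fun x => !T U (i + 1) x) x || T (U.erase e) (i + 1) x) U.length := by
      funext x
      cases hx : x e
      · symm
        rw [Bool.not_false, ba_true]
        intro i _
        have h1 := hcount x
        rw [hx] at h1
        simp only [Bool.false_eq_true, if_false, add_zero] at h1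
        simp only [T, h1]
        cases decide (i + 1 ≤ (U.erase e).countP fun a => x a) <;> rfl
      · symm
        rw [Bool.not_true, ← Bool.not_eq_true, ba_true]
        push Not
        have h1 := hcount x
        rw [hx, if_pos rfl] at h1
        refine ⟨(U.erase e).countP fun a => x a, ?_, ?_⟩
        · have h2 : ((U.erase e).countP fun a => x a) ≤ (U.erase e).length := List.countP_le_length
          have h3 : 0 < U.length := List.length_pos_of_mem (hU e)
          omega
        · simp only [T, h1]
          simp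
    obtain ⟨L3, b3, l3, m3, a3⟩ := der_ba (L := L2)
      (G := fun i x => (fun x => !T U (i + 1) x) x || T (U.erase e) (i + 1) x) U.length (by
        intro i hi
        exact (Der.of_avail (m2 _ (m1 _ (hT (i + 1) (by omega) hi)))).or
          (Der.of_avail (a2 (i + 1) hi))) _ L2 b2 (Mono.refl _)
    refine ⟨L3, b3, ?_, (m1.trans m2).trans m3, fun e' he' => ?_⟩
    · rw [hlen] at l2
      rw [List.length_cons, Nat.mul_succ]
      omega
    · rcases List.mem_cons.1 he' with rfl | h
      · rw [heq]
        exact a3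
      · exact m3 _ (m2 _ (a1 e' h))

/-! ### De Morgan -/

theorem morgan {t₀ : ℕ} {L₀ : List ((E → Bool) → Bool)} (hb₀ : BC t₀ L₀)
    (hn : ∀ e : E, Available L₀ (fun x => !x e)) {t : ℕ} {L : List ((E → Bool) → Bool)}
    (hb : BC t L) : ∃ L', BC t₀ L' ∧ L'.length ≤ L₀.length + 2 * L.length ∧ Mono L₀ L' ∧
      ∀ f, Available L f → Available L' f ∧ Available L' (fun x => !f x) := by
  have key : ∀ (M L' : List ((E → Bool) → Bool)), Mono L₀ L' →
      (∀ f ∈ M, Available L' f ∧ Available L' (fun x => !f x)) →
      ∀ f, Available M f → Available L' f ∧ Available L' (fun x => !f x) := by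
    intro M L' hm h f hf
    rcases hf with hf | ⟨c, rfl⟩ | ⟨e, rfl⟩
    · exact h f hf
    · exact ⟨avail_const _ _, avail_const _ (!c)⟩
    · exact ⟨avail_input _ _, hm _ (hn e)⟩
  have hnn : ∀ f : (E → Bool) → Bool, (fun x => !(fun x => !f x) x) = f := by
    intro f
    funext x
    simp
  induction hb with
  | nil =>
    exact ⟨L₀, hb₀, by simp, Mono.refl _, key [] L₀ (Mono.refl _)
      fun f hf => absurd hf List.not_mem_nil⟩
  | @and t L f g _ hf hg ih =>
    obtain ⟨L1, b1, l1, m1, a1⟩ := ih
    have h2 : Available ((fun x => f x && g x) :: L1) (fun x => !f x) :=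
      mono_cons _ _ _ (a1 f hf).2
    have h3 : Available ((fun x => f x && g x) :: L1) (fun x => !g x) :=
      mono_cons _ _ _ (a1 g hg).2
    refine ⟨_, BC.or (BC.and b1 (a1 f hf).1 (a1 g hg).1) h2 h3, ?_,
      m1.trans ((mono_cons _ _).trans (mono_cons _ _)), ?_⟩
    · simp only [List.length_cons]
      omega
    · refine key _ _ (m1.trans ((mono_cons _ _).trans (mono_cons _ _))) fun f' hf' => ?_
      rcases List.mem_cons.1 hf' with rfl | h
      · refine ⟨mono_cons _ _ _ (Or.inl List.mem_cons_self), ?_⟩
        have e : (fun x => !(fun x => f x && g x) x) =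
            fun x => (fun x => !f x) x || (fun x => !g x) x := by
          funext x
          simp
        rw [e]
        exact Or.inl List.mem_cons_self
      · have h4 := a1 f' (Or.inl h)
        exact ⟨mono_cons _ _ _ (mono_cons _ _ _ h4.1), mono_cons _ _ _ (mono_cons _ _ _ h4.2)⟩
  | @or t L f g _ hf hg ih =>
    obtain ⟨L1, b1, l1, m1, a1⟩ := ih
    have h2 : Available ((fun x => f x || g x) :: L1) (fun x => !f x) :=
      mono_cons _ _ _ (a1 f hf).2
    have h3 : Available ((fun x => f x || g x) :: L1) (fun x => !g x) :=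
      mono_cons _ _ _ (a1 g hg).2
    refine ⟨_, BC.and (BC.or b1 (a1 f hf).1 (a1 g hg).1) h2 h3, ?_,
      m1.trans ((mono_cons _ _).trans (mono_cons _ _)), ?_⟩
    · simp only [List.length_cons]
      omega
    · refine key _ _ (m1.trans ((mono_cons _ _).trans (mono_cons _ _))) fun f' hf' => ?_
      rcases List.mem_cons.1 hf' with rfl | h
      · refine ⟨mono_cons _ _ _ (Or.inl List.mem_cons_self), ?_⟩
        have e : (fun x => !(fun x => f x || g x) x) =
            fun x => (fun x => !f x) x && (fun x => !g x) x := by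
          funext x
          simp
        rw [e]
        exact Or.inl List.mem_cons_self
      · have h4 := a1 f' (Or.inl h)
        exact ⟨mono_cons _ _ _ (mono_cons _ _ _ h4.1), mono_cons _ _ _ (mono_cons _ _ _ h4.2)⟩
  | @not t L f _ hf ih =>
    obtain ⟨L1, b1, l1, m1, a1⟩ := ih
    refine ⟨L1, b1, ?_, m1, ?_⟩
    · simp only [List.length_cons]
      omega
    · refine key _ _ m1 fun f' hf' => ?_
      rcases List.mem_cons.1 hf' with rfl | h
      · refine ⟨(a1 f hf).2, ?_⟩
        rw [hnn]
        exact (a1 f hf).1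
      · exact a1 f' (Or.inl h)

theorem pow_clog_le (n : ℕ) (hn : 1 ≤ n) : 2 ^ Nat.clog 2 n ≤ 2 * n := by
  rcases Nat.lt_or_ge 1 n with h | h
  · have h1 := Nat.pow_pred_clog_lt_self (b := 2) (by norm_num) h
    have h2 : 0 < Nat.clog 2 n := Nat.clog_pos (by norm_num) h
    have h3 : (Nat.clog 2 n).pred + 1 = Nat.clog 2 n := Nat.succ_pred_eq_of_pos h2
    have h4 : 2 ^ Nat.clog 2 n = 2 ^ (Nat.clog 2 n).pred * 2 := by
      rw [← pow_succ, h3]
    omega
  · have h1 : n = 1 := le_antisymm h hn
    subst h1
    simp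

end Fis

open Fis

theorem t_FIS : S_FIS := by
  classical
  intro E _ t s L f hb hL hf
  set N := Fintype.card E with hN
  set r := Nat.clog 2 (N + 1) with hr
  let U : List E := Finset.univ.toList
  have hU : ∀ e, e ∈ U := fun e => Finset.mem_toList.2 (Finset.mem_univ e)
  have hlen : U.length = N := by
    rw [Finset.length_toList, Finset.card_univ]
  have h2r : N + 1 ≤ 2 ^ r := Nat.le_pow_clog (by norm_num) _
  have h2r' : 2 ^ r ≤ 2 * (N + 1) := pow_clog_le _ (by omega)
  obtain ⟨L1, b1, l1, m1, a1⟩ := thr (BC.nil (E := E)) N U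
  have hcl : ∀ x : E → Bool, (U.countP fun e => x e) ≤ N := by
    intro x
    rw [← hlen]
    exact List.countP_le_length
  obtain ⟨L2, b2, l2, m2, a2⟩ := neg r b1 (T U) (by
    intro i x h
    simp only [T, decide_eq_true_eq] at h ⊢
    omega) (by
    intro i _ _
    by_cases hi : i ≤ N
    · exact a1 i hi
    · have e : T U i = fun _ => false := by
        funext x
        simp only [T, decide_eq_false_iff_not]
        have := hcl x
        omega
      rw [e]
      exact avail_const _ _)
  obtain ⟨L3, b3, l3, m3, a3⟩ := ninp hU b2 (by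
    intro i h1 h2
    exact a2 i h1 (by omega)) U
  obtain ⟨L4, b4, l4, m4, a4⟩ := morgan b3 (fun e => a3 e (hU e)) hb
  refine ⟨0 + r, L4, by omega, b4, ?_, (a4 f hf).1⟩
  rw [hlen] at l1 l3
  rw [List.length_nil] at l1
  have h1 : 2 * N * N = 2 * N ^ 2 := by ring
  have h2 : (2 * N * (N - 1) + 2 * N) * N ≤ 2 * N ^ 3 := by
    rcases Nat.eq_zero_or_pos N with h0 | h0
    · rw [h0]
      simp
    · obtain ⟨M, hM⟩ := Nat.exists_eq_add_of_le' h0
      have hM' : N = M + 1 := hM
      rw [hM', Nat.add_sub_cancel]
      apply le_of_eq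
      ring
  have h3 : 10 * (N + 1) ^ 3 = 10 * N ^ 3 + 30 * N ^ 2 + 30 * N + 10 := by ring
  rw [h3]
  omega

end Pool.Agent.H10x.NL
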