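import Pool.Agent.W969.MC.Avg4

/-!
# Many graphs with many blocks
-/

set_option linter.unusedSectionVars false
set_option linter.unusedVariables false

namespace Pool.Agent.H10x.NL.G2

open Finset Pool.Agent.W969.MC

/-- the pairs of vertices -/
abbrev Edge (n : ℕ) : Type := {e : Finset (Fin n) // e.card = 2}

/-- blocks such that each large set, each two vertices of which lie in a block, lies in a block -/
structure Pack (n B K P : ℕ) where
  pt : Fin P → Fin B → Fin n
  inj : ∀ p, Function.Injective (pt p)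
  uniq : ∀ p p' a b a' b', a ≠ b → pt p a = pt p' a' → pt p b = pt p' b' → p = p'
  clq : ∀ T : Finset (Fin n), K ≤ T.card →
    (∀ v ∈ T, ∀ w ∈ T, v ≠ w → ∃ p a b, pt p a = v ∧ pt p b = w) → ∃ p, ∀ v ∈ T, ∃ a, pt p a = v

section

variable {n n0 r0 B K P : ℕ} (D : Pack n0 B K P) (ψ : Fin n0 ⊕ Fin r0 ↪ Fin n)

/-- the vertices of a block -/
def ptE (p : Fin P) : Fin B ↪ Fin n :=
  ⟨fun a => ψ (Sum.inl (D.pt p a)), fun a b h => by
    exact D.inj p (Sum.inl.inj (ψ.injective h))⟩

lemma ptE_ne (p : Fin P) (a : Fin B) (c : Fin r0) : ptE D ψ p a ≠ ψ (Sum.inr c) := by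
  intro h
  have h1 : (Sum.inl (D.pt p a) : Fin n0 ⊕ Fin r0) = Sum.inr c := ψ.injective h
  exact absurd h1 (by simp)

open Classical in
/-- the union of graphs on the blocks; `r0` vertices are joined to everything -/
noncomputable def glue (z : Fin P → Edge B → Bool) : Edge n → Bool := fun e =>
  decide ((∃ c : Fin r0, ψ (Sum.inr c) ∈ e.1) ∨
    ∃ (p : Fin P) (e' : Edge B), e'.1.map (ptE D ψ p) = e.1 ∧ z p e' = true)

variable {D ψ}

lemma glue_true {z : Fin P → Edge B → Bool} {e : Edge n} : glue D ψ z e = true ↔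
    (∃ c : Fin r0, ψ (Sum.inr c) ∈ e.1) ∨
    ∃ (p : Fin P) (e' : Edge B), e'.1.map (ptE D ψ p) = e.1 ∧ z p e' = true := by
  unfold glue
  exact decide_eq_true_iff

lemma glue_mono {z z' : Fin P → Edge B → Bool} (h : ∀ p, z p ≤ z' p) :
    glue D ψ z ≤ glue D ψ z' := by
  intro e
  rw [Bool.le_iff_imp]
  intro he
  rw [glue_true] at he ⊢
  rcases he with h1 | ⟨p, e', h1, h2⟩
  · exact Or.inl h1
  · refine Or.inr ⟨p, e', h1, ?_⟩
    have h3 := h p e'
    rw [Bool.le_iff_imp] at h3
    exact h3 h2

lemma glue_narrow (z : Fin P → Edge B → Bool) (J : Fin P) (e : Edge n) :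
    ∃ o : Option (Edge B), ∀ w w' : Edge B → Bool,
      (∀ e', o = some e' → w e' = true → w' e' = true) →
      glue D ψ (Function.update z J w) e = true → glue D ψ (Function.update z J w') e = true := by
  classical
  by_cases hex : ∃ e' : Edge B, e'.1.map (ptE D ψ J) = e.1
  · obtain ⟨e0, he0⟩ := hex
    refine ⟨some e0, fun w w' hw h => ?_⟩
    rw [glue_true] at h ⊢
    rcases h with h1 | ⟨p, e', h1, h2⟩
    · exact Or.inl h1
    · refine Or.inr ⟨p, e', h1, ?_⟩
      by_cases hp : p = J
      · subst hp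
        rw [Function.update_self] at h2 ⊢
        have h3 : e' = e0 := by
          apply Subtype.ext
          apply Finset.map_injective (ptE D ψ p)
          rw [h1, he0]
        rw [h3] at h2 ⊢
        exact hw e0 rfl h2
      · rw [Function.update_of_ne hp] at h2 ⊢
        exact h2
  · refine ⟨none, fun w w' hw h => ?_⟩
    rw [glue_true] at h ⊢
    rcases h with h1 | ⟨p, e', h1, h2⟩
    · exact Or.inl h1
    · refine Or.inr ⟨p, e', h1, ?_⟩
      by_cases hp : p = J
      · subst hp
        exact absurd ⟨e', h1⟩ hex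
      · rw [Function.update_of_ne hp] at h2 ⊢
        exact h2

lemma glue_clique (hK : 2 ≤ K) (z : Fin P → Edge B → Bool) :
    HasClq n 2 (K + r0) (glue D ψ z) ↔ ∃ p, HasClq B 2 K (z p) := by
  classical
  constructor
  · rintro ⟨S, hS, hcl⟩
    set S0 := S.filter (fun v => ∀ c : Fin r0, v ≠ ψ (Sum.inr c)) with hS0
    have hcard : K ≤ S0.card := by
      have h1 : S.filter (fun v => ¬ ∀ c : Fin r0, v ≠ ψ (Sum.inr c)) ⊆
          (univ : Finset (Fin r0)).image (fun c => ψ (Sum.inr c)) := by
        intro v hv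
        have h2 := (Finset.mem_filter.mp hv).2
        push Not at h2
        obtain ⟨c, hc⟩ := h2
        exact Finset.mem_image.mpr ⟨c, mem_univ _, hc.symm⟩
      have h2 := Finset.card_le_card h1
      have h3 := (Finset.card_image_le (s := (univ : Finset (Fin r0)))
        (f := fun c => ψ (Sum.inr c)))
      rw [Finset.card_univ, Fintype.card_fin] at h3
      have h4 := Finset.card_filter_add_card_filter_not (s := S)
        (fun v => ∀ c : Fin r0, v ≠ ψ (Sum.inr c))
      rw [← hS0] at h4
      omega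
    obtain ⟨T, hT, hTK⟩ := Finset.exists_subset_card_eq hcard
    set Ed : Fin P → Fin n → Fin n → Prop := fun p v w =>
      ∃ a b, ptE D ψ p a = v ∧ ptE D ψ p b = w ∧ a ≠ b ∧
        ∃ e' : Edge B, e'.1 = {a, b} ∧ z p e' = true with hEd
    have hsym : ∀ p v w, Ed p v w → Ed p w v := by
      rintro p v w ⟨a, b, h1, h2, h3, e', h4, h5⟩
      exact ⟨b, a, h2, h1, h3.symm, e', by rw [h4, Finset.pair_comm], h5⟩
    have hex : ∀ v ∈ T, ∀ w ∈ T, v ≠ w → ∃ p, Ed p v w := by
      intro v hv w hw hvw
      have hv0 := Finset.mem_filter.mp (hT hv)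
      have hw0 := Finset.mem_filter.mp (hT hw)
      have h1 := hcl ⟨{v, w}, Finset.card_pair hvw⟩ (by
        intro u hu
        rw [Finset.mem_insert, Finset.mem_singleton] at hu
        rcases hu with rfl | rfl
        · exact hv0.1
        · exact hw0.1)
      rw [glue_true] at h1
      rcases h1 with ⟨c, hc⟩ | ⟨p, e', h1, h2⟩
      · exfalso
        rw [Finset.mem_insert, Finset.mem_singleton] at hc
        rcases hc with hc | hc
        · exact hv0.2 c hc.symm
        · exact hw0.2 c hc.symm
      · obtain ⟨a, b, hab, he'⟩ := Finset.card_eq_two.mp e'.2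
        rw [he', Finset.map_insert, Finset.map_singleton] at h1
        replace h1 : {ptE D ψ p a, ptE D ψ p b} = ({v, w} : Finset (Fin n)) := h1
        have hne : ptE D ψ p a ≠ ptE D ψ p b := fun h => hab ((ptE D ψ p).injective h)
        have ha : ptE D ψ p a ∈ ({v, w} : Finset (Fin n)) := by
          rw [← h1]; exact Finset.mem_insert_self _ _
        have hb : ptE D ψ p b ∈ ({v, w} : Finset (Fin n)) := by
          rw [← h1]; exact Finset.mem_insert_of_mem (Finset.mem_singleton_self _)
        rw [Finset.mem_insert, Finset.mem_singleton] at ha hb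
        refine ⟨p, ?_⟩
        rcases ha with ha | ha
        · rcases hb with hb | hb
          · exact absurd (ha.trans hb.symm) hne
          · exact ⟨a, b, ha, hb, hab, e', he', h2⟩
        · rcases hb with hb | hb
          · exact ⟨b, a, hb, ha, hab.symm, e', by rw [he', Finset.pair_comm], h2⟩
          · exact absurd (ha.trans hb.symm) hne
    have hran : ∀ v ∈ T, ∃ u : Fin n0, ψ (Sum.inl u) = v := by
      intro v hv
      obtain ⟨w, hw, hwv⟩ := Finset.exists_mem_ne (show 1 < T.card by omega) v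
      obtain ⟨p, a, b, h1, -⟩ := hex v hv w hw hwv.symm
      exact ⟨D.pt p a, h1⟩
    set T' : Finset (Fin n0) := univ.filter (fun u => ψ (Sum.inl u) ∈ T) with hT'
    have hmap : T'.map ⟨fun u => ψ (Sum.inl u), fun u u' h => Sum.inl.inj (ψ.injective h)⟩ = T := by
      ext v
      rw [Finset.mem_map]
      constructor
      · rintro ⟨u, hu, rfl⟩
        exact (Finset.mem_filter.mp hu).2
      · intro hv
        obtain ⟨u, hu⟩ := hran v hv
        exact ⟨u, Finset.mem_filter.mpr ⟨mem_univ _, by rw [hu]; exact hv⟩, hu⟩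
    have hT'K : T'.card = K := by
      have h1 := congrArg Finset.card hmap
      rw [Finset.card_map] at h1
      exact h1.trans hTK
    have hex' : ∀ u ∈ T', ∀ u' ∈ T', u ≠ u' → ∃ p a b, D.pt p a = u ∧ D.pt p b = u' ∧ a ≠ b ∧
        ∃ e' : Edge B, e'.1 = {a, b} ∧ z p e' = true := by
      intro u hu u' hu' huu
      obtain ⟨p, a, b, h1, h2, h3, h4⟩ := hex _ (Finset.mem_filter.mp hu).2 _
        (Finset.mem_filter.mp hu').2 (fun h => huu (Sum.inl.inj (ψ.injective h)))
      exact ⟨p, a, b, Sum.inl.inj (ψ.injective h1), Sum.inl.inj (ψ.injective h2), h3, h4⟩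
    obtain ⟨p, hp⟩ := D.clq T' hT'K.ge (fun u hu u' hu' huu => by
      obtain ⟨p, a, b, h1, h2, -⟩ := hex' u hu u' hu' huu
      exact ⟨p, a, b, h1, h2⟩)
    refine ⟨p, univ.filter (fun a => D.pt p a ∈ T'), ?_, ?_⟩
    · have hmap' : (univ.filter (fun a => D.pt p a ∈ T')).map ⟨D.pt p, D.inj p⟩ = T' := by
        ext v
        rw [Finset.mem_map]
        constructor
        · rintro ⟨a, ha, rfl⟩
          exact (Finset.mem_filter.mp ha).2
        · intro hv
          obtain ⟨a, ha⟩ := hp v hv
          exact ⟨a, Finset.mem_filter.mpr ⟨mem_univ _, by rw [ha]; exact hv⟩, ha⟩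
      have h1 := congrArg Finset.card hmap'
      rw [Finset.card_map] at h1
      exact h1.trans hT'K
    · intro e' he'
      obtain ⟨a, b, hab, hee⟩ := Finset.card_eq_two.mp e'.2
      have ha : D.pt p a ∈ T' := (Finset.mem_filter.mp (he' (by
        rw [hee]; exact Finset.mem_insert_self _ _))).2
      have hb : D.pt p b ∈ T' := (Finset.mem_filter.mp (he' (by
        rw [hee]; exact Finset.mem_insert_of_mem (Finset.mem_singleton_self _)))).2
      obtain ⟨p', a', b', h1, h2, -, e'', h3, h4⟩ := hex' _ ha _ hb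
        (fun h => hab (D.inj p h))
      have h0 : p = p' := D.uniq p p' a b a' b' hab h1.symm h2.symm
      subst h0
      have h5 : a' = a := D.inj p h1
      have h6 : b' = b := D.inj p h2
      have h7 : e'' = e' := by
        apply Subtype.ext
        rw [h3, hee, h5, h6]
      rw [← h7]
      exact h4
  · rintro ⟨p, S, hS, hcl⟩
    set U : Finset (Fin n) := (univ : Finset (Fin r0)).map
      ⟨fun c => ψ (Sum.inr c), fun c c' h => Sum.inr.inj (ψ.injective h)⟩ with hU
    have hdis : Disjoint (S.map (ptE D ψ p)) U := by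
      rw [Finset.disjoint_left]
      intro v hv hv'
      obtain ⟨a, -, rfl⟩ := Finset.mem_map.mp hv
      obtain ⟨c, -, hc⟩ := Finset.mem_map.mp hv'
      exact ptE_ne D ψ p a c hc.symm
    refine ⟨S.map (ptE D ψ p) ∪ U, ?_, ?_⟩
    · rw [Finset.card_union_of_disjoint hdis, Finset.card_map, Finset.card_map, hS,
        Finset.card_univ, Fintype.card_fin]
    · intro e he
      rw [glue_true]
      by_cases hc : ∃ c : Fin r0, ψ (Sum.inr c) ∈ e.1
      · exact Or.inl hc
      · right
        have h1 : e.1 ⊆ S.map (ptE D ψ p) := by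
          intro v hv
          rcases Finset.mem_union.mp (he hv) with h2 | h2
          · exact h2
          · obtain ⟨c, -, hc'⟩ := Finset.mem_map.mp h2
            exact absurd ⟨c, by
              have : ψ (Sum.inr c) = v := hc'
              rw [this]; exact hv⟩ hc
        obtain ⟨e0, he0, he0'⟩ := Finset.subset_map_iff.mp h1
        have hcard : e0.card = 2 := by
          rw [← Finset.card_map (ptE D ψ p), ← he0', e.2]
        exact ⟨p, ⟨e0, hcard⟩, he0'.symm, hcl ⟨e0, hcard⟩ he0⟩

end

section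

variable {V I Λ : Type} [Fintype V] [DecidableEq V] [Fintype I] [DecidableEq I]
  [Fintype Λ] [DecidableEq Λ] {n n0 r0 b2 B P : ℕ}

/-- the bits of the graph for the blocks -/
noncomputable def encG (D : Pack n0 B (2 * Fintype.card I) P) (ψ : Fin n0 ⊕ Fin r0 ↪ Fin n)
    (ι : Vx I Λ 1 2 b2 0 ↪ Fin B) (h : I → (Fin 2 × Fin b2) → V)
    (y : Fin P → Set (I × ((Fin 2 × Fin b2) → Λ))) : Edge n → Bool :=
  glue D ψ (fun p => enc ι h (fun _ => y p))

variable {D : Pack n0 B (2 * Fintype.card I) P} {ψ : Fin n0 ⊕ Fin r0 ↪ Fin n}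
  {ι : Vx I Λ 1 2 b2 0 ↪ Fin B} {h : I → (Fin 2 × Fin b2) → V}

lemma encG_mono {y y' : Fin P → Set (I × ((Fin 2 × Fin b2) → Λ))} (hy : ∀ j, y j ⊆ y' j) :
    encG D ψ ι h y ≤ encG D ψ ι h y' :=
  glue_mono (fun p => enc_mono (fun _ => hy _))

lemma encG_narrow (y : Fin P → Set (I × ((Fin 2 × Fin b2) → Λ))) (J : Fin P) (e : Edge n) :
    ∃ T' : Finset (I × ((Fin 2 × Fin b2) → Λ)), T'.card ≤ 1 ∧
      ∀ x x' : Set (I × ((Fin 2 × Fin b2) → Λ)), (∀ u ∈ T', u ∈ x → u ∈ x') →
        encG D ψ ι h (Function.update y J x) e = true →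
        encG D ψ ι h (Function.update y J x') e = true := by
  classical
  have key : ∀ x : Set (I × ((Fin 2 × Fin b2) → Λ)),
      (fun p => enc ι h (fun _ => Function.update y J x p)) =
      Function.update (fun p => enc ι h (fun _ => y p)) J (enc ι h (fun _ => x)) := by
    intro x
    funext p
    by_cases hp : p = J
    · subst hp
      rw [Function.update_self, Function.update_self]
    · rw [Function.update_of_ne hp, Function.update_of_ne hp]
  obtain ⟨o, ho⟩ := glue_narrow (D := D) (ψ := ψ) (fun p => enc ι h (fun _ => y p)) J e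
  rcases o with _ | e'
  · refine ⟨∅, by simp, fun x x' hx hh => ?_⟩
    show glue D ψ _ e = true
    rw [key x']
    have hh' : glue D ψ (fun p => enc ι h (fun _ => Function.update y J x p)) e = true := hh
    rw [key x] at hh'
    exact ho _ _ (fun e' he' => absurd he' (by simp)) hh'
  · obtain ⟨T', hT1, hT2⟩ := enc_narrow (ι := ι) (h := h) (by norm_num : 0 < 2)
      (fun _ : Fin 1 => (∅ : Set (I × ((Fin 2 × Fin b2) → Λ)))) 0 e'
    refine ⟨T', hT1, fun x x' hx hh => ?_⟩
    show glue D ψ _ e = true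
    rw [key x']
    have hh' : glue D ψ (fun p => enc ι h (fun _ => Function.update y J x p)) e = true := hh
    rw [key x] at hh'
    refine ho _ _ (fun e'' he'' => ?_) hh'
    have h1 : e' = e'' := Option.some.inj he''
    subst h1
    have h2 : ∀ x : Set (I × ((Fin 2 × Fin b2) → Λ)),
        Function.update (fun _ : Fin 1 => (∅ : Set (I × ((Fin 2 × Fin b2) → Λ)))) 0 x =
          fun _ => x := by
      intro x
      funext j
      have : j = 0 := Subsingleton.elim _ _
      rw [this, Function.update_self]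
    have h3 := hT2 x x' hx
    rw [h2, h2] at h3
    exact h3

lemma encG_clique (hb2 : 0 < b2) (hI : 0 < Fintype.card I)
    (y : Fin P → Set (I × ((Fin 2 × Fin b2) → Λ))) :
    HasClq n 2 (2 * Fintype.card I + r0) (encG D ψ ι h y) ↔
      ∃ j, ∃ p : V → Λ, (tu h (gr p) : Set (I × ((Fin 2 × Fin b2) → Λ))) ⊆ y j := by
  classical
  have h1 : ∀ x : Set (I × ((Fin 2 × Fin b2) → Λ)),
      HasClq B 2 (2 * Fintype.card I) (enc ι h (fun _ => x)) ↔
        ∃ p : V → Λ, (tu h (gr p) : Set (I × ((Fin 2 × Fin b2) → Λ))) ⊆ x := by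
    intro x
    have h2 := enc_clique (ι := ι) (h := h) (r0 := 0) le_rfl hb2 hI (fun _ : Fin 1 => x)
    rw [add_zero] at h2
    rw [h2]
    exact ⟨fun ⟨_, hp⟩ => hp, fun hp => ⟨0, hp⟩⟩
  unfold encG
  rw [glue_clique (by omega)]
  exact exists_congr (fun p => h1 _)

end

end Pool.Agent.H10x.NL.G2
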