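import Pool.Agent.H10x.NL.Stm

/-!
# The clique problem as a language, and nondeterministic circuits for it
-/

namespace Pool.Agent.H10x.NL

/-- Some Boolean circuit with at most `t` NOT gates and at most `s` gates decides whether the input
has the property `P`. -/
def Dec {E : Type} (t s : ℕ) (P : (E → Bool) → Prop) : Prop :=
  ∃ (t' : ℕ) (L : List ((E → Bool) → Bool)) (f : (E → Bool) → Bool), t' ≤ t ∧
    BC t' L ∧ L.length ≤ s ∧ Available L f ∧ ∀ x, f x = true ↔ P x

/-- The clique problem as a language: a string `x` with `n` bits describes a graph with the vertices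
`0, ..., M - 1`, where `M = ⌊√(2 n)⌋`: the bit number `j (j - 1) / 2 + i` tells whether `i < j` are
adjacent. The string is in the language if this graph has a clique with `⌊M / 2⌋` vertices. (The
position is smaller than `n` for `i < j < M`: `j (j - 1) / 2 + i ≤ M (M - 1) / 2 - 1`.) -/
def CLang : Set (List Bool) :=
  {x | ∃ S : Finset ℕ, (∀ v ∈ S, v < Nat.sqrt (2 * x.length)) ∧
    S.card = Nat.sqrt (2 * x.length) / 2 ∧
    ∀ i ∈ S, ∀ j ∈ S, i < j → x.getD (j * (j - 1) / 2 + i) false = true}

/-- PIECE NPP. The language has nondeterministic circuits of polynomial size.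

Proof. Let `M = Nat.sqrt (2 n)`, `k = M / 2`, `m = k * M` and let `w` be a matrix of bits `w i u`
(`i < k`, `u < M`, use `finProdFinEquiv : Fin k × Fin M ≃ Fin (k * M)`). `B (x, w)` is the CNF:
for every `i` the clause `w i 0 ∨ ... ∨ w i (M - 1)`; for all `i < i'` and all `u`, `v`: if `u = v`
the clause `¬ w i u ∨ ¬ w i' v`, and if `u ≠ v` the clause `¬ w i u ∨ ¬ w i' v ∨ x (position of {u, v})`
(a bit of `x`, since the position is `< n`; or use `x.getD`: constant `false` is also available).
If `S` is a clique with `k` members, let `w i u = 1` for the `i`-th member `u` of `S`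
(`Finset.equivFin` or `Finset.orderEmbOfFin`); conversely choose `u i` with `w i (u i) = 1`; these are
different and pairwise adjacent, so `S = {u i}` works.

Circuits: programs can be extended (as in `Pool.Agent.H10x.NL.Fis`); lemma: for a list of clauses, each
a list of literals (`(E ⊕ constants) × Bool`), the conjunction of the disjunctions is computed by a
program with at most `∑ (2 * length + 1)` gates (for each literal at most one NOT gate and one OR
gate, for each clause one AND gate). The number of gates is at most `k (2 M + 1) + 7 k ^ 2 M ^ 2`,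
and `M ^ 2 ≤ 2 n`, so `p = 28 X ^ 2 + 20 X + 10` or any larger polynomial will do. -/
def S_NPP : Prop := ∃ p : Polynomial ℕ, ∀ n : ℕ, ∃ m : ℕ, m ≤ p.eval n ∧
  ∃ (t : ℕ) (B : (Fin n ⊕ Fin m → Bool) → Prop), Dec t (p.eval n) B ∧
    ∀ x : Fin n → Bool, List.ofFn x ∈ CLang ↔ ∃ w : Fin m → Bool, B (Sum.elim x w)

end Pool.Agent.H10x.NL
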