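import Pool.Agent.H10x.NL.Sharp
import Pool.Agent.H10x.NL.Stm4
import Pool.Agent.H10x.NL.BB
import Pool.Agent.H10x.NL.Fis2

/-!
# The clique problem as a language: circuits with few NOT gates
-/

set_option linter.unusedSectionVars false
set_option linter.unusedVariables false

namespace Pool.Agent.H10x.NL.LG

open Finset Pool.Agent.W969.MC Pool.Agent.H10x.NL

/-- substitution -/
lemma bc_comp {E E' : Type} (σ : (E → Bool) → (E' → Bool))
    (hσ : ∀ p : E', (∃ c : Bool, ∀ x, σ x p = c) ∨ ∃ e : E, ∀ x, σ x p = x e)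
    {t : ℕ} {L : List ((E' → Bool) → Bool)} (h : BC t L) :
    BC t (L.map (fun g x => g (σ x))) := by
  induction h with
  | nil => exact .nil
  | and _ hf hg ih => exact .and ih (BB.avail_comp σ hσ hf) (BB.avail_comp σ hσ hg)
  | or _ hf hg ih => exact .or ih (BB.avail_comp σ hσ hf) (BB.avail_comp σ hσ hg)
  | not _ hf ih => exact .not ih (BB.avail_comp σ hσ hf)

/-- substitution -/
lemma dec_comp {E E' : Type} (σ : (E → Bool) → (E' → Bool))
    (hσ : ∀ p : E', (∃ c : Bool, ∀ x, σ x p = c) ∨ ∃ e : E, ∀ x, σ x p = x e)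
    {t s : ℕ} {P : (E' → Bool) → Prop} (h : Dec t s P) : Dec t s (fun x => P (σ x)) := by
  obtain ⟨t', L, f, h1, h2, h3, h4, h5⟩ := h
  exact ⟨t', _, _, h1, bc_comp σ hσ h2, by simpa using h3, BB.avail_comp σ hσ h4,
    fun x => h5 (σ x)⟩

/-- Some Boolean circuit with at most `t` NOT gates and at most `s` gates computes `W` bits that
determine whether the input has the property `P`. -/
def Cmp {E : Type} (t s W : ℕ) (P : (E → Bool) → Prop) : Prop :=
  ∃ (t' : ℕ) (L : List ((E → Bool) → Bool)) (out : Fin W → (E → Bool) → Bool)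
    (D : (Fin W → Bool) → Prop), t' ≤ t ∧ BC t' L ∧ L.length ≤ s ∧
    (∀ j, Available L (out j)) ∧ ∀ x, D (fun j => out j x) ↔ P x

/-- substitution -/
lemma cmp_comp {E E' : Type} (σ : (E → Bool) → (E' → Bool))
    (hσ : ∀ p : E', (∃ c : Bool, ∀ x, σ x p = c) ∨ ∃ e : E, ∀ x, σ x p = x e)
    {t s W : ℕ} {P : (E' → Bool) → Prop} (h : Cmp t s W P) : Cmp t s W (fun x => P (σ x)) := by
  obtain ⟨t', L, out, D, h1, h2, h3, h4, h5⟩ := h
  exact ⟨t', _, fun j x => out j (σ x), D, h1, bc_comp σ hσ h2, by simpa using h3,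
    fun j => BB.avail_comp σ hσ (h4 j), fun x => h5 (σ x)⟩

/-- the position of the bit of `i < j` -/
def pos (i j : ℕ) : ℕ := j * (j - 1) / 2 + i

lemma pos_lt {i j M : ℕ} (hij : i < j) (hj : j < M) : pos i j < M * (M - 1) / 2 := by
  unfold pos
  rw [← Nat.choose_two_right, ← Nat.choose_two_right]
  have h1 : (j + 1).choose 2 = j.choose 2 + j := by
    rw [Nat.choose_succ_succ' j 1, Nat.choose_one_right]
    ring
  have h2 : (j + 1).choose 2 ≤ M.choose 2 := Nat.choose_le_choose 2 hj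
  omega

lemma pos_inj {i j i' j' : ℕ} (hij : i < j) (hij' : i' < j') (h : pos i j = pos i' j') :
    i = i' ∧ j = j' := by
  have key : ∀ {i j i' j' : ℕ}, i < j → i' < j' → j < j' → pos i j < pos i' j' := by
    intro i j i' j' h1 h2 h3
    have := pos_lt h1 h3
    unfold pos at this ⊢
    omega
  rcases Nat.lt_trichotomy j j' with h1 | h1 | h1
  · exact absurd h (key hij hij' h1).ne
  · subst h1
    unfold pos at h
    exact ⟨by omega, rfl⟩
  · exact absurd h (key hij' hij h1).ne'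

/-- the number of vertices -/
def nv (n : ℕ) : ℕ := Nat.sqrt (2 * n)

lemma nv_le (n : ℕ) : nv n * (nv n - 1) / 2 ≤ n := by
  have h1 : nv n * nv n ≤ 2 * n := Nat.sqrt_le _
  have h2 : nv n * (nv n - 1) ≤ nv n * nv n := Nat.mul_le_mul_left _ (Nat.sub_le _ _)
  omega

/-- an edge with ordered end points -/
lemma edge_cases {M : ℕ} (e : G2.Edge M) : ∃ i j : Fin M, i < j ∧ e.1 = {i, j} := by
  obtain ⟨a, b, hab, he⟩ := Finset.card_eq_two.mp e.2
  rcases lt_or_gt_of_ne hab with h | h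
  · exact ⟨a, b, h, he⟩
  · exact ⟨b, a, h, by rw [he, Finset.pair_comm]⟩

/-- the code of an edge -/
noncomputable def code {M : ℕ} (e : G2.Edge M) : ℕ :=
  pos ((edge_cases e).choose : Fin M) ((edge_cases e).choose_spec.choose : Fin M)

lemma pair_eq {M : ℕ} {a b i j : Fin M} (hab : a < b) (hij : i < j)
    (h : ({a, b} : Finset (Fin M)) = {i, j}) : a = i ∧ b = j := by
  have h3 : a ∈ ({i, j} : Finset (Fin M)) := by rw [← h]; simp
  have h4 : b ∈ ({i, j} : Finset (Fin M)) := by rw [← h]; simp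
  simp only [Finset.mem_insert, Finset.mem_singleton] at h3 h4
  rcases h3 with h3 | h3 <;> rcases h4 with h4 | h4
  · rw [h3, h4] at hab
    exact absurd hab (lt_irrefl _)
  · exact ⟨h3, h4⟩
  · rw [h3, h4] at hab
    exact absurd (hab.trans hij) (lt_irrefl _)
  · rw [h3, h4] at hab
    exact absurd hab (lt_irrefl _)

lemma code_eq {M : ℕ} (e : G2.Edge M) {i j : Fin M} (hij : i < j) (he : e.1 = {i, j}) :
    code e = pos i j := by
  have h1 := (edge_cases e).choose_spec.choose_spec.1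
  have h2 := (edge_cases e).choose_spec.choose_spec.2
  obtain ⟨h3, h4⟩ := pair_eq h1 hij (h2.symm.trans he)
  unfold code
  exact congrArg₂ (fun a b : Fin M => pos (a : ℕ) (b : ℕ)) h3 h4

lemma code_inj {M : ℕ} {e e' : G2.Edge M} (h : code e = code e') : e = e' := by
  obtain ⟨i, j, hij, he⟩ := edge_cases e
  obtain ⟨i', j', hij', he'⟩ := edge_cases e'
  rw [code_eq e hij he, code_eq e' hij' he'] at h
  obtain ⟨h1, h2⟩ := pos_inj (by exact_mod_cast hij) (by exact_mod_cast hij') h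
  have h3 : i = i' := Fin.ext h1
  have h4 : j = j' := Fin.ext h2
  apply Subtype.ext
  rw [he, he', h3, h4]

open Classical in
/-- the string of a graph -/
noncomputable def str (n : ℕ) (y : G2.Edge (nv n) → Bool) : Fin n → Bool := fun p =>
  if h : ∃ e : G2.Edge (nv n), code e = p.1 then y h.choose else false

lemma str_code {n : ℕ} (y : G2.Edge (nv n) → Bool) (e : G2.Edge (nv n)) (p : Fin n)
    (hp : p.1 = code e) : str n y p = y e := by
  classical
  have h : ∃ e : G2.Edge (nv n), code e = p.1 := ⟨e, hp.symm⟩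
  unfold str
  rw [dif_pos h]
  congr 1
  exact code_inj (h.choose_spec.trans hp)

lemma str_coord (n : ℕ) (p : Fin n) : (∃ c : Bool, ∀ y, str n y p = c) ∨
    ∃ e : G2.Edge (nv n), ∀ y, str n y p = y e := by
  classical
  by_cases h : ∃ e : G2.Edge (nv n), code e = p.1
  · obtain ⟨e, he⟩ := h
    exact Or.inr ⟨e, fun y => str_code y e p he.symm⟩
  · exact Or.inl ⟨false, fun y => dif_neg h⟩

lemma getD_str {n : ℕ} (y : G2.Edge (nv n) → Bool) {i j : Fin (nv n)} (hij : i < j) :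
    (List.ofFn (str n y)).getD ((j : ℕ) * ((j : ℕ) - 1) / 2 + i) false =
      y ⟨{i, j}, Finset.card_pair hij.ne⟩ := by
  have h1 : pos i j < n := (pos_lt (by exact_mod_cast hij) j.2).trans_le (nv_le n)
  have h2 : (List.ofFn (str n y)).getD (pos i j) false = str n y ⟨pos i j, h1⟩ := by
    rw [List.getD_eq_getElem _ _ (by rw [List.length_ofFn]; exact h1), List.getElem_ofFn]
  have h3 := str_code y ⟨{i, j}, Finset.card_pair hij.ne⟩ ⟨pos i j, h1⟩
    (code_eq ⟨{i, j}, Finset.card_pair hij.ne⟩ hij rfl).symm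
  exact h2.trans h3

/-- the language on the string of a graph -/
lemma str_mem {n : ℕ} (y : G2.Edge (nv n) → Bool) :
    List.ofFn (str n y) ∈ CLang ↔ HasClq (nv n) 2 (nv n / 2) y := by
  classical
  unfold CLang HasClq
  rw [Set.mem_ofPred_eq, List.length_ofFn]
  constructor
  · rintro ⟨S, h1, h2, h3⟩
    change ∀ v ∈ S, v < nv n at h1
    refine ⟨S.attachFin h1, ?_, ?_⟩
    · rw [Finset.card_attachFin]
      exact h2
    · intro e he
      obtain ⟨i, j, hij, he'⟩ := edge_cases e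
      have hi : (i : ℕ) ∈ S := by
        have : i ∈ S.attachFin h1 := he (by rw [he']; simp)
        rwa [Finset.mem_attachFin] at this
      have hj : (j : ℕ) ∈ S := by
        have : j ∈ S.attachFin h1 := he (by rw [he']; simp)
        rwa [Finset.mem_attachFin] at this
      have h4 := h3 i hi j hj (by exact_mod_cast hij)
      rw [getD_str y hij] at h4
      rw [← h4]
      congr 1
      exact Subtype.ext he'
  · rintro ⟨S, h2, h3⟩
    refine ⟨S.map Fin.valEmbedding, ?_, ?_, ?_⟩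
    · intro v hv
      rw [Finset.mem_map] at hv
      obtain ⟨i, _, rfl⟩ := hv
      exact i.2
    · rw [Finset.card_map]
      exact h2
    · intro a ha b hb hab
      rw [Finset.mem_map] at ha hb
      obtain ⟨i, hi, rfl⟩ := ha
      obtain ⟨j, hj, rfl⟩ := hb
      have hij : i < j := by exact_mod_cast hab
      have h4 := h3 ⟨{i, j}, Finset.card_pair hij.ne⟩ (by
        intro v hv
        simp only [Finset.mem_insert, Finset.mem_singleton] at hv
        rcases hv with rfl | rfl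
        · exact hi
        · exact hj)
      rw [← h4]
      exact getD_str y hij

/-- circuits for the language are circuits for cliques -/
lemma lang_clq {n t s W : ℕ} (h : Cmp t s W (fun x : Fin n → Bool => List.ofFn x ∈ CLang)) :
    Cmp t s W (fun y : G2.Edge (nv n) → Bool => HasClq (nv n) 2 (nv n / 2) y) := by
  obtain ⟨t', L, out, D, h1, h2, h3, h4, h5⟩ := cmp_comp (str n) (str_coord n) h
  exact ⟨t', L, out, D, h1, h2, h3, h4, fun x => (h5 x).trans (str_mem x)⟩

lemma nv_bounds {n : ℕ} (h : 9 ≤ nv n) : 1 ≤ n ∧ nv n ≤ n ∧ n ≤ nv n * nv n := by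
  have h1 : nv n * nv n ≤ 2 * n := Nat.sqrt_le _
  have h2 : 2 * n < (nv n + 1) * (nv n + 1) := Nat.lt_succ_sqrt _
  refine ⟨by nlinarith, by nlinarith, by nlinarith⟩

lemma nv_large (M0 : ℕ) {n : ℕ} (h : M0 ^ 2 ≤ n) : M0 ≤ nv n := by
  unfold nv
  rw [Nat.le_sqrt']
  omega

/-- superpolynomial bound -/
theorem lang_poly : ∃ C : ℝ, 0 < C ∧ ∀ a : ℝ, ∃ n0 : ℕ, ∀ n : ℕ, n0 ≤ n → ∀ t s W : ℕ,
    (2 : ℝ) ^ t * (W + 1) ≤ n / (Real.log n) ^ C →
    Cmp t s W (fun x : Fin n → Bool => List.ofFn x ∈ CLang) → (n : ℝ) ^ a < s := by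
  obtain ⟨C, hC, H⟩ := G2.sharp_poly
  refine ⟨C, hC, fun a => ?_⟩
  obtain ⟨M0, hM0⟩ := H (2 * |a|)
  -- `(log M) ^ 5 ≤ M / 2` for large `M`
  obtain ⟨M1, hM1⟩ := G2.ev_log 5 (η := 1) one_pos 4
  have hu := (Real.tendsto_log_atTop.comp
    (tendsto_natCast_atTop_atTop (R := ℝ))).eventually_ge_atTop 2
  obtain ⟨M2, hM2⟩ := Filter.eventually_atTop.mp hu
  refine ⟨(max (max M0 M1) (max M2 9)) ^ 2, ?_⟩
  intro n hn t s W ht hdec
  set M := nv n with hM
  have hMl : max (max M0 M1) (max M2 9) ≤ M := nv_large _ hn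
  have g0 : M0 ≤ M := (le_max_left _ _).trans ((le_max_left _ _).trans hMl)
  have g1 : M1 ≤ M := (le_max_right _ _).trans ((le_max_left _ _).trans hMl)
  have g2 : M2 ≤ M := (le_max_left _ _).trans ((le_max_right _ _).trans hMl)
  have g3 : 9 ≤ M := (le_max_right _ _).trans ((le_max_right _ _).trans hMl)
  obtain ⟨b1, b2, b3⟩ := nv_bounds (n := n) g3
  have hMR : (9 : ℝ) ≤ M := by exact_mod_cast g3
  have hMp : (0 : ℝ) < M := by linarith
  have hMn : (M : ℝ) ≤ n := by exact_mod_cast b2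
  have hnp : (0 : ℝ) < n := by linarith
  have hnM : (n : ℝ) ≤ (M : ℝ) ^ 2 := by
    have : (n : ℝ) ≤ (M : ℝ) * M := by exact_mod_cast b3
    rw [pow_two]
    exact this
  have hlogM : (2 : ℝ) ≤ Real.log M := hM2 M g2
  have hlogn : Real.log M ≤ Real.log n := Real.log_le_log hMp hMn
  obtain ⟨t', L, out, D, h1, h2, h3, h4, h5⟩ := lang_clq hdec
  have e1 := hM1 M g1
  rw [Real.rpow_one] at e1
  have hk : (Real.log M) ^ (5 : ℕ) ≤ ((M / 2 : ℕ) : ℝ) := by
    have h6 : M ≤ 2 * (M / 2) + 1 := by omega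
    have h7 : (M : ℝ) ≤ 2 * ((M / 2 : ℕ) : ℝ) + 1 := by exact_mod_cast h6
    have h8 : (0 : ℝ) ≤ (Real.log M) ^ (5 : ℕ) := by positivity
    linarith
  have hmain := hM0 M (M / 2) g0 hk (by omega) t' W L out D h2 h4 h5 (by
      have h7 : (2 : ℝ) ^ t' * (W + 1) ≤ n / (Real.log n) ^ C :=
        (mul_le_mul_of_nonneg_right (pow_le_pow_right₀ (by norm_num) h1) (by positivity)).trans ht
      refine h7.trans ?_
      have hl1 : (0 : ℝ) < (Real.log M) ^ C := Real.rpow_pos_of_pos (by linarith) C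
      have hl3 : (Real.log M) ^ C ≤ (Real.log n) ^ C :=
        Real.rpow_le_rpow (by linarith) hlogn hC.le
      exact div_le_div₀ (by positivity) hnM hl1 hl3)
  have h6 : (L.length : ℝ) ≤ s := by exact_mod_cast h3
  have h7 : (n : ℝ) ^ a ≤ (M : ℝ) ^ (2 * |a|) := by
    calc (n : ℝ) ^ a ≤ (n : ℝ) ^ |a| :=
          Real.rpow_le_rpow_of_exponent_le (by linarith) (le_abs_self a)
      _ ≤ ((M : ℝ) ^ 2) ^ |a| := Real.rpow_le_rpow hnp.le hnM (abs_nonneg a)
      _ = (M : ℝ) ^ (2 * |a|) := by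
        rw [← Real.rpow_natCast, ← Real.rpow_mul hMp.le]
        norm_num
  linarith

/-- exponential bound -/
theorem lang_exp (ε : ℝ) (hε : 0 < ε) : ∃ δ : ℝ, 0 < δ ∧ ∃ n0 : ℕ, ∀ n : ℕ, n0 ≤ n →
    ∀ t s W : ℕ, (2 : ℝ) ^ t * (W + 1) ≤ (n : ℝ) ^ (1 - ε) →
    Cmp t s W (fun x : Fin n → Bool => List.ofFn x ∈ CLang) → (2 : ℝ) ^ ((n : ℝ) ^ δ) < s := by
  set ε' : ℝ := min ε (1 / 2) with hε'
  have hε'p : 0 < ε' := lt_min hε (by norm_num)
  have hε'1 : ε' ≤ 1 / 2 := min_le_right _ _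
  obtain ⟨δ, hδ, M0, hM0⟩ := G2.sharp_exp ε' (1 / 2) hε'p (by norm_num)
  obtain ⟨M1, hM1⟩ := ev_rpow (η := 1 / 2) (by norm_num) 3
  obtain ⟨M2, hM2⟩ := ev_rpow hε'p 2
  refine ⟨δ / 2, by positivity, (max (max M0 M1) (max M2 9)) ^ 2, ?_⟩
  intro n hn t s W ht hdec
  set M := nv n with hM
  have hMl : max (max M0 M1) (max M2 9) ≤ M := nv_large _ hn
  have g0 : M0 ≤ M := (le_max_left _ _).trans ((le_max_left _ _).trans hMl)
  have g1 : M1 ≤ M := (le_max_right _ _).trans ((le_max_left _ _).trans hMl)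
  have g2 : M2 ≤ M := (le_max_left _ _).trans ((le_max_right _ _).trans hMl)
  have g3 : 9 ≤ M := (le_max_right _ _).trans ((le_max_right _ _).trans hMl)
  obtain ⟨b1, b2, b3⟩ := nv_bounds (n := n) g3
  have hMR : (9 : ℝ) ≤ M := by exact_mod_cast g3
  have hMp : (0 : ℝ) < M := by linarith
  have hMn : (M : ℝ) ≤ n := by exact_mod_cast b2
  have hnp : (0 : ℝ) < n := by linarith
  have hnM : (n : ℝ) ≤ (M : ℝ) ^ 2 := by
    have : (n : ℝ) ≤ (M : ℝ) * M := by exact_mod_cast b3
    rw [pow_two]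
    exact this
  obtain ⟨t', L, out, D, h1, h2, h3, h4, h5⟩ := lang_clq hdec
  have e1 := hM1 M g1
  have e2 := hM2 M g2
  have hk : (M : ℝ) ^ (1 / 2 : ℝ) ≤ ((M / 2 : ℕ) : ℝ) := by
    have h6 : M ≤ 2 * (M / 2) + 1 := by omega
    have h7 : (M : ℝ) ≤ 2 * ((M / 2 : ℕ) : ℝ) + 1 := by exact_mod_cast h6
    have h8 : (M : ℝ) = (M : ℝ) ^ (1 / 2 : ℝ) * (M : ℝ) ^ (1 / 2 : ℝ) := by
      rw [← Real.rpow_add hMp]
      norm_num
    nlinarith
  have hmain := hM0 M (M / 2) g0 hk (by omega) t' W L out D h2 h4 h5 (by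
      have h7 : (2 : ℝ) ^ t' * (W + 1) ≤ (n : ℝ) ^ (1 - ε) :=
        (mul_le_mul_of_nonneg_right (pow_le_pow_right₀ (by norm_num) h1) (by positivity)).trans ht
      have h8 : (n : ℝ) ^ (1 - ε) ≤ (n : ℝ) ^ (1 - ε') :=
        Real.rpow_le_rpow_of_exponent_le (by linarith) (by
          have := min_le_left ε (1 / 2)
          linarith)
      have h9 : (n : ℝ) ^ (1 - ε') ≤ (M : ℝ) ^ (2 - 2 * ε') := by
        calc (n : ℝ) ^ (1 - ε') ≤ ((M : ℝ) ^ 2) ^ (1 - ε') :=
              Real.rpow_le_rpow hnp.le hnM (by linarith)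
          _ = (M : ℝ) ^ (2 - 2 * ε') := by
            rw [← Real.rpow_natCast, ← Real.rpow_mul hMp.le]
            congr 1
            push_cast
            ring
      have h10 : (M : ℝ) ^ (2 - 2 * ε') ≤ (M : ℝ) ^ (2 - ε') :=
        Real.rpow_le_rpow_of_exponent_le (by linarith) (by linarith)
      exact h7.trans (h8.trans (h9.trans h10)))
  have h6 : (L.length : ℝ) ≤ s := by exact_mod_cast h3
  have h7 : (n : ℝ) ^ (δ / 2) ≤ (M : ℝ) ^ δ := by
    calc (n : ℝ) ^ (δ / 2) ≤ ((M : ℝ) ^ 2) ^ (δ / 2) := Real.rpow_le_rpow hnp.le hnM (by positivity)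
      _ = (M : ℝ) ^ δ := by
        rw [← Real.rpow_natCast, ← Real.rpow_mul hMp.le]
        congr 1
        push_cast
        ring
  have h8 : (2 : ℝ) ^ ((n : ℝ) ^ (δ / 2)) ≤ (2 : ℝ) ^ ((M : ℝ) ^ δ) :=
    Real.rpow_le_rpow_of_exponent_le (by norm_num) h7
  linarith

/-- Boolean circuits are circuits with further gates -/
lemma bc_prog {E : Type} {t : ℕ} {L : List ((E → Bool) → Bool)} (h : BC t L) :
    ∃ (s : ℕ) (T : List ((E → Bool) → Bool)), s + t = L.length ∧ T.length = t ∧ BB.Prog s L T := by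
  induction h with
  | nil => exact ⟨0, [], rfl, rfl, .nil⟩
  | and _ hf hg ih =>
    obtain ⟨s, T, h1, h2, h3⟩ := ih
    exact ⟨s + 1, T, by simp only [List.length_cons]; omega, h2, .and h3 hf hg⟩
  | or _ hf hg ih =>
    obtain ⟨s, T, h1, h2, h3⟩ := ih
    exact ⟨s + 1, T, by simp only [List.length_cons]; omega, h2, .or h3 hf hg⟩
  | @not t L f _ hf ih =>
    obtain ⟨s, T, h1, h2, h3⟩ := ih
    refine ⟨s, (List.ofFn fun _ : Fin 1 => f) ++ T, by simp only [List.length_cons]; omega, ?_, ?_⟩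
    · simp only [List.length_append, List.length_ofFn]
      omega
    · exact .any h3 1 (fun _ => f) (fun _ => hf) (fun z => !z 0)

/-- monotone circuits -/
lemma prog_bc {E : Type} {s : ℕ} {L T : List ((E → Bool) → Bool)} (h : BB.Prog s L T)
    (hT : T = []) : ∃ L' : List ((E → Bool) → Bool), BC 0 L' ∧ L'.length ≤ s ∧
      ∀ f, Available L f → Available L' f := by
  induction h with
  | nil => exact ⟨[], .nil, by simp, fun _ h => h⟩
  | @and s L T f g _ hf hg ih =>
    obtain ⟨L', h1, h2, h3⟩ := ih hT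
    refine ⟨_, .and h1 (h3 f hf) (h3 g hg), by simp only [List.length_cons]; omega, ?_⟩
    rintro f' (h | h)
    · rcases List.mem_cons.mp h with rfl | h
      · exact BB.avail_head
      · exact BB.avail_cons (h3 f' (Or.inl h))
    · exact Or.inr h
  | @or s L T f g _ hf hg ih =>
    obtain ⟨L', h1, h2, h3⟩ := ih hT
    refine ⟨_, .or h1 (h3 f hf) (h3 g hg), by simp only [List.length_cons]; omega, ?_⟩
    rintro f' (h | h)
    · rcases List.mem_cons.mp h with rfl | h
      · exact BB.avail_head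
      · exact BB.avail_cons (h3 f' (Or.inl h))
    · exact Or.inr h
  | @any s L T _ w a ha G ih =>
    have hw : w = 0 := by
      have := congrArg List.length hT
      simp only [List.length_append, List.length_ofFn, List.length_nil] at this
      omega
    subst hw
    obtain ⟨L', h1, h2, h3⟩ := ih (List.append_eq_nil_iff.mp hT).2
    refine ⟨L', h1, h2, ?_⟩
    rintro f' (h | h)
    · rcases List.mem_cons.mp h with rfl | h
      · refine Or.inr (Or.inl ⟨G Fin.elim0, ?_⟩)
        funext x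
        congr 1
        funext j
        exact j.elim0
      · exact h3 f' (Or.inl h)
    · exact Or.inr h

/-- Few NOT gates are useless for the disjunction of many copies of a monotone property. -/
theorem useless {E : Type} {P : (E → Bool) → Prop} (hP : ∀ x y : E → Bool, x ≤ y → P x → P y)
    {m t s : ℕ} (ht : 2 ^ t ≤ m)
    (h : Dec t s (fun x : Fin m × E → Bool => ∃ j, P (fun e => x (j, e)))) : Dec 0 (s + 1) P := by
  classical
  obtain ⟨t', L, f, h1, h2, h3, h4, h5⟩ := h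
  obtain ⟨s', T, h6, h7, h8⟩ := bc_prog h2
  set p : (E → Bool) → Bool := fun x => decide (P x) with hp
  have hmono : Monotone p := by
    intro x y hxy
    rw [Bool.le_iff_imp]
    intro h
    rw [hp, decide_eq_true_eq] at h ⊢
    exact hP x y hxy h
  have hA := BB.altLe_pow h8
  obtain ⟨s2, L2, g1, g2, g3⟩ := BB.elim hmono h8 h4 (fun x => by
      rw [h5 x]
      simp only [hp, decide_eq_true_eq]) hA (by
      rw [h7]
      have h9 : 2 ^ t' ≤ 2 ^ t := Nat.pow_le_pow_right (by norm_num) h1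
      have h10 : 0 < 2 ^ t' := by positivity
      omega)
  obtain ⟨L3, k1, k2, k3⟩ := prog_bc g2 rfl
  refine ⟨0, L3, p, le_rfl, k1, by omega, k3 p g3, fun x => ?_⟩
  rw [hp, decide_eq_true_eq]

end Pool.Agent.H10x.NL.LG
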