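import Pool.Agent.W969.MC.Avg4
import Pool.Agent.H559R7.Behrend

/-!
# The parameters
-/

set_option linter.unusedSectionVars false
set_option linter.unusedVariables false

namespace Pool.Agent.H10x.NL

open Finset Pool.Agent.W969.MC Pool.Agent.H559R7

/-- designs with many blocks -/
lemma design_par (ε : ℝ) (hε : 0 < ε) : ∃ η : ℝ, 0 < η ∧ ∃ N0 : ℕ, ∀ n B : ℕ, N0 ≤ n → 1 ≤ B →
    (B : ℝ) ≤ (n : ℝ) ^ η → ∃ P : ℕ, (n : ℝ) ^ (2 - ε) ≤ P ∧ Nonempty (Design (n / 2) B 1 P) := by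
  -- reduction to `ε ≤ 1`
  wlog hε1 : ε ≤ 1 generalizing ε
  · obtain ⟨η, h1, N0, h2⟩ := this 1 one_pos le_rfl
    refine ⟨η, h1, max N0 1, ?_⟩
    intro n B hn hB hBn
    obtain ⟨P, h3, h4⟩ := h2 n B ((le_max_left _ _).trans hn) hB hBn
    refine ⟨P, le_trans ?_ h3, h4⟩
    apply Real.rpow_le_rpow_of_exponent_le
    · exact_mod_cast (le_max_right _ _).trans hn
    · push Not at hε1
      linarith
  obtain ⟨r, hr⟩ := exists_nat_ge (4 / ε)
  have hrR : 4 ≤ (r : ℝ) * ε := by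
    rw [div_le_iff₀ hε] at hr
    exact hr
  have hr4 : (4 : ℝ) ≤ r := by
    have : (r : ℝ) * ε ≤ r * 1 := mul_le_mul_of_nonneg_left hε1 (Nat.cast_nonneg _)
    linarith
  have hr4' : 4 ≤ r := by exact_mod_cast hr4
  have hr0 : (0 : ℝ) < r := by linarith
  set η : ℝ := ε / (2 * (2 * r + 5)) with hη
  have hηpos : 0 < η := by positivity
  have hηe : η * (2 * (2 * r + 5)) = ε := by
    rw [hη]
    field_simp
  set lam : ℝ := (1 - η * (r + 2)) / r with hlam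
  have hlamr : lam * r = 1 - η * (r + 2) := by
    rw [hlam]
    field_simp
  have hη1 : η * (r + 2) ≤ 1 / 4 := by
    have h1 : 4 * (η * (r + 2)) ≤ η * (2 * (2 * r + 5)) := by nlinarith
    rw [hηe] at h1
    linarith
  have hlampos : 0 < lam := by
    rw [hlam]
    apply div_pos _ hr0
    linarith
  -- large numbers
  obtain ⟨n1, hn1⟩ := ev_rpow (η := lam) hlampos 2
  obtain ⟨n2, hn2⟩ := ev_rpow (η := η) hηpos ((2 : ℝ) ^ (r + 1))
  obtain ⟨n3, hn3⟩ := ev_rpow (η := η) hηpos ((r : ℝ) * 2 ^ (2 * (r - 1)))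
  refine ⟨η, hηpos, max (max n1 n2) (max n3 1), ?_⟩
  intro n B hn hB hBn
  have h1 := hn1 n ((le_max_left _ _).trans ((le_max_left _ _).trans hn))
  have h2 := hn2 n ((le_max_right _ _).trans ((le_max_left _ _).trans hn))
  have h3 := hn3 n ((le_max_left _ _).trans ((le_max_right _ _).trans hn))
  have hn0 : 1 ≤ n := (le_max_right _ _).trans ((le_max_right _ _).trans hn)
  have hnR : (1 : ℝ) ≤ n := by exact_mod_cast hn0
  have hnpos : (0 : ℝ) < n := by linarith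
  set L : ℕ := ⌊(n : ℝ) ^ lam⌋₊ with hL
  have hL1 : (L : ℝ) ≤ (n : ℝ) ^ lam := Nat.floor_le (by positivity)
  have hL2 : (n : ℝ) ^ lam - 1 < L := Nat.sub_one_lt_floor _
  have hL3 : (n : ℝ) ^ lam / 2 ≤ L := by linarith
  have hLR : (1 : ℝ) ≤ L := by linarith
  have hL0 : 1 ≤ L := by exact_mod_cast hLR
  have hsize : (2 * B * L) ^ r * (B * 1) ≤ n / 2 := by
    rw [Nat.le_div_iff_mul_le (by norm_num)]
    have h4 : ((2 * B * L : ℕ) : ℝ) ^ r * ((B * 1 : ℕ) : ℝ) * 2 ≤ n := by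
      push_cast
      have hB0 : (0 : ℝ) ≤ B := Nat.cast_nonneg _
      have h5 : (2 * (B : ℝ) * L) ^ r * (B * 1) * 2 = 2 ^ (r + 1) * (B ^ (r + 1) * L ^ r) := by
        rw [mul_pow, mul_pow, pow_succ, pow_succ]
        ring
      rw [h5]
      have h6 : (B : ℝ) ^ (r + 1) ≤ ((n : ℝ) ^ η) ^ (r + 1) := pow_le_pow_left₀ hB0 hBn _
      have h7 : (L : ℝ) ^ r ≤ ((n : ℝ) ^ lam) ^ r :=
        pow_le_pow_left₀ (Nat.cast_nonneg _) hL1 _
      have h8 : (B : ℝ) ^ (r + 1) * L ^ r ≤ (n : ℝ) ^ (1 - η) := by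
        calc (B : ℝ) ^ (r + 1) * L ^ r ≤ ((n : ℝ) ^ η) ^ (r + 1) * ((n : ℝ) ^ lam) ^ r :=
              mul_le_mul h6 h7 (by positivity) (by positivity)
          _ = (n : ℝ) ^ (1 - η) := by
              rw [← Real.rpow_natCast, ← Real.rpow_natCast, ← Real.rpow_mul hnpos.le,
                ← Real.rpow_mul hnpos.le, ← Real.rpow_add hnpos]
              congr 1
              push_cast
              rw [hlamr]
              ring
      calc (2 : ℝ) ^ (r + 1) * (B ^ (r + 1) * L ^ r) ≤ (n : ℝ) ^ η * (n : ℝ) ^ (1 - η) :=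
            mul_le_mul h2 h8 (by positivity) (by positivity)
        _ = n := by
            rw [← Real.rpow_add hnpos]
            rw [show η + (1 - η) = 1 by ring, Real.rpow_one]
    exact_mod_cast h4
  obtain ⟨P, hP, hD⟩ := exists_behrend (n := n / 2) (k := B) (q := 1) (r := r) (X := B * L)
    (L := L) (W := 2 * B * L) (by omega) hL0 (by nlinarith) hsize
  refine ⟨P, ?_, hD⟩
  have h4 : ((L : ℝ) ^ (2 * (r - 1))) ≤ r * P := by
    have h5 : L ^ r * (B * L) ^ r ≤ r * L ^ 2 * P := hP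
    have h6 : L ^ r * L ^ r ≤ r * L ^ 2 * P := by
      refine le_trans ?_ h5
      apply Nat.mul_le_mul_left
      apply Nat.pow_le_pow_left
      exact Nat.le_mul_of_pos_left _ hB
    have h7 : L ^ 2 * L ^ (2 * (r - 1)) ≤ L ^ 2 * (r * P) := by
      calc L ^ 2 * L ^ (2 * (r - 1)) = L ^ r * L ^ r := by
            rw [← pow_add, ← pow_add]
            congr 1
            omega
        _ ≤ r * L ^ 2 * P := h6
        _ = L ^ 2 * (r * P) := by ring
    have h8 := Nat.le_of_mul_le_mul_left h7 (by positivity)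
    exact_mod_cast h8
  have h5 : ((n : ℝ) ^ lam / 2) ^ (2 * (r - 1)) ≤ r * P :=
    (pow_le_pow_left₀ (by positivity) hL3 _).trans h4
  have h6 : (n : ℝ) ^ (2 - ε) * (r * 2 ^ (2 * (r - 1))) ≤ r * P * 2 ^ (2 * (r - 1)) := by
    calc (n : ℝ) ^ (2 - ε) * (r * 2 ^ (2 * (r - 1))) ≤ (n : ℝ) ^ (2 - ε) * (n : ℝ) ^ η :=
          mul_le_mul_of_nonneg_left h3 (by positivity)
      _ = (n : ℝ) ^ (2 - ε + η) := by rw [← Real.rpow_add hnpos]
      _ ≤ (n : ℝ) ^ (lam * (2 * (r - 1) : ℕ)) := by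
          apply Real.rpow_le_rpow_of_exponent_le hnR
          have h7 : ((2 * (r - 1) : ℕ) : ℝ) = 2 * (r - 1) := by
            push_cast [Nat.cast_sub (show 1 ≤ r by omega)]
            ring
          rw [h7]
          have h8 : lam * (2 * ((r : ℝ) - 1)) = 2 * (lam * r) - 2 * lam := by ring
          rw [h8, hlamr]
          have h9 : lam ≤ ε / 4 := by
            have : lam * r ≤ 1 := by
              rw [hlamr]
              have : 0 ≤ η * (r + 2) := by positivity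
              linarith
            have h10 : lam * r ≤ (ε / 4) * r := by nlinarith
            exact le_of_mul_le_mul_right h10 hr0
          nlinarith
      _ = ((n : ℝ) ^ lam) ^ (2 * (r - 1)) := by
          rw [Real.rpow_mul hnpos.le, Real.rpow_natCast]
      _ = ((n : ℝ) ^ lam / 2) ^ (2 * (r - 1)) * 2 ^ (2 * (r - 1)) := by
          rw [← mul_pow]
          congr 1
          ring
      _ ≤ r * P * 2 ^ (2 * (r - 1)) := mul_le_mul_of_nonneg_right h5 (by positivity)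
  have h7 : (r : ℝ) * P * 2 ^ (2 * (r - 1)) = P * (r * 2 ^ (2 * (r - 1))) := by ring
  rw [h7] at h6
  exact le_of_mul_le_mul_right h6 (by positivity)

/-- all parameters -/
lemma all_par (ε : ℝ) (hε : 0 < ε) : ∃ δ : ℝ, 0 < δ ∧ ∃ k0 : ℕ, ∀ n k : ℕ, k0 ≤ k → 2 * k ≤ n →
    ∃ (b2 b q M m s w P : ℕ) (g : ℝ), Pars 2 b2 b q M m s w ∧ 2 * M ≤ k ∧
      Nonempty (Design (n / 2) (M * (2 * q ^ b2)) 1 P) ∧ g ≤ (n : ℝ) ^ (-δ) ∧
      (n : ℝ) ^ (2 - ε) ≤ (g / 2) * P ∧ 16 / (q : ℝ) ≤ g ∧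
      ∀ z : ℕ, (z : ℝ) < (n : ℝ) ^ (δ * min (k : ℝ) ((n : ℝ) ^ δ)) → z ≤ (q + 1) ^ m ∧
        16 * (z : ℝ) * 2 ^ (w / (2 * b) / b + 1) < g * (q : ℝ) ^ (w / (2 * b) / b + 1) := by
  obtain ⟨δ1, hδ1, l0, H⟩ := pars_exist 2 le_rfl (1 / 2) (by norm_num)
  obtain ⟨l1, Hab⟩ := absorb hδ1
  obtain ⟨η0, hη0, N0, Hd⟩ := design_par (ε / 2) (by positivity)
  set η : ℝ := min η0 (min 1 (ε / δ1)) with hη
  have hηpos : 0 < η := lt_min hη0 (lt_min one_pos (by positivity))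
  have hη1 : η ≤ η0 := min_le_left _ _
  have hη2 : η ≤ 1 := (min_le_right _ _).trans (min_le_left _ _)
  have hη3 : η * δ1 ≤ ε := by
    have : η ≤ ε / δ1 := (min_le_right _ _).trans (min_le_right _ _)
    rwa [le_div_iff₀ hδ1] at this
  set δ : ℝ := min (η * δ1 / 8) (η / 8) with hδ
  have hδpos : 0 < δ := lt_min (by positivity) (by positivity)
  have hδa : δ ≤ η * δ1 / 8 := min_le_left _ _
  have hδb : δ ≤ η / 8 := min_le_right _ _
  obtain ⟨n1, hn1⟩ := ev_rpow (η := η / 2) (by positivity) 2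
  obtain ⟨n2, hn2⟩ := ev_rpow (η := η / 8) (by positivity) (max (l0 : ℝ) (l1 : ℝ) + 2)
  obtain ⟨n3, hn3⟩ := ev_rpow (η := ε / 4) (by positivity) 2
  refine ⟨δ, hδpos, max (max (max n1 n2) (max n3 N0)) (max (max l0 l1) 1), ?_⟩
  intro n k hk hkn
  have hnk : k ≤ n := by omega
  have hk1 : n1 ≤ n := ((le_max_left _ _).trans ((le_max_left _ _).trans ((le_max_left _ _).trans hk))).trans hnk
  have hk2 : n2 ≤ n := ((le_max_right _ _).trans ((le_max_left _ _).trans ((le_max_left _ _).trans hk))).trans hnk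
  have hk3 : n3 ≤ n := ((le_max_left _ _).trans ((le_max_right _ _).trans ((le_max_left _ _).trans hk))).trans hnk
  have hk4 : N0 ≤ n := ((le_max_right _ _).trans ((le_max_right _ _).trans ((le_max_left _ _).trans hk))).trans hnk
  have hkl0 : l0 ≤ k := (le_max_left _ _).trans ((le_max_left _ _).trans ((le_max_right _ _).trans hk))
  have hkl1 : l1 ≤ k := (le_max_right _ _).trans ((le_max_left _ _).trans ((le_max_right _ _).trans hk))
  have hk0 : 1 ≤ k := (le_max_right _ _).trans ((le_max_right _ _).trans hk)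
  have hnR : (1 : ℝ) ≤ n := by exact_mod_cast (by omega : 1 ≤ n)
  have hnpos : (0 : ℝ) < n := by linarith
  have f1 := hn1 n hk1
  have f2 := hn2 n hk2
  have f3 := hn3 n hk3
  -- the size of the blocks
  set N1 : ℕ := ⌊(n : ℝ) ^ η⌋₊ with hN1
  have g1 : (N1 : ℝ) ≤ (n : ℝ) ^ η := Nat.floor_le (by positivity)
  have g2 : (n : ℝ) ^ η - 1 < N1 := Nat.sub_one_lt_floor _
  have hsq : (n : ℝ) ^ η = (n : ℝ) ^ (η / 2) * (n : ℝ) ^ (η / 2) := by
    rw [← Real.rpow_add hnpos]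
    congr 1
    ring
  have g3 : (n : ℝ) ^ (η / 2) ≤ N1 := by nlinarith
  have hN1R : (1 : ℝ) ≤ N1 := by linarith
  have hN1pos : (0 : ℝ) < N1 := by linarith
  -- the number `l`
  set l : ℕ := min k (Nat.sqrt N1) with hl
  have hlsq : l * l ≤ N1 := (Nat.mul_le_mul (min_le_right _ _) (min_le_right _ _)).trans
    (Nat.sqrt_le N1)
  have hsqrt : (n : ℝ) ^ (η / 8) - 1 ≤ (Nat.sqrt N1 : ℝ) ∧ (n : ℝ) ^ (η / 8) ≤ (Nat.sqrt N1 : ℝ) := by
    have h1 : N1 < (Nat.sqrt N1 + 1) * (Nat.sqrt N1 + 1) := Nat.lt_succ_sqrt N1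
    have h2 : (N1 : ℝ) < ((Nat.sqrt N1 : ℝ) + 1) * ((Nat.sqrt N1 : ℝ) + 1) := by exact_mod_cast h1
    have h3 : (n : ℝ) ^ (η / 2) = ((n : ℝ) ^ (η / 8)) ^ 4 := by
      rw [← Real.rpow_natCast, ← Real.rpow_mul hnpos.le]
      congr 1
      push_cast
      ring
    set u : ℝ := (n : ℝ) ^ (η / 8) with hu
    have hu2 : 2 ≤ u := by
      have : (0 : ℝ) ≤ max (l0 : ℝ) (l1 : ℝ) := le_max_of_le_left (Nat.cast_nonneg _)
      linarith
    have h4 : u ≤ (Nat.sqrt N1 : ℝ) := by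
      by_contra hcon
      push Not at hcon
      have h5 : (0 : ℝ) ≤ (Nat.sqrt N1 : ℝ) := Nat.cast_nonneg _
      have h6 : u ^ 4 < (u + 1) * (u + 1) := by
        calc u ^ 4 = (n : ℝ) ^ (η / 2) := h3.symm
          _ ≤ N1 := g3
          _ < _ := h2
          _ ≤ (u + 1) * (u + 1) := by nlinarith
      nlinarith [sq_nonneg (u * u - 4), mul_nonneg (sub_nonneg.mpr hu2) (sub_nonneg.mpr hu2)]
    exact ⟨by linarith, h4⟩
  have hl_l0 : l0 ≤ l := by
    apply le_min hkl0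
    have h1 : (l0 : ℝ) ≤ Nat.sqrt N1 := by
      have h2 := le_max_left (l0 : ℝ) (l1 : ℝ)
      linarith [hsqrt.2]
    exact_mod_cast h1
  have hl_l1 : l1 ≤ l := by
    apply le_min hkl1
    have h1 : (l1 : ℝ) ≤ Nat.sqrt N1 := by
      have h2 := le_max_right (l0 : ℝ) (l1 : ℝ)
      linarith [hsqrt.2]
    exact_mod_cast h1
  have hl1 : 1 ≤ l := by
    apply le_min hk0
    have h1 : (1 : ℝ) ≤ Nat.sqrt N1 := by
      have : (0 : ℝ) ≤ max (l0 : ℝ) (l1 : ℝ) := le_max_of_le_left (Nat.cast_nonneg _)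
      linarith [hsqrt.2]
    exact_mod_cast h1
  have hlN : (l : ℝ) ^ (1 + 1 / ((2 : ℕ) : ℝ) + 1 / 2) ≤ N1 := by
    rw [show (1 + 1 / ((2 : ℕ) : ℝ) + 1 / 2 : ℝ) = ((2 : ℕ) : ℝ) by push_cast; norm_num,
      Real.rpow_natCast, pow_two]
    exact_mod_cast hlsq
  have hlN1 : l ≤ N1 := (Nat.le_mul_self l).trans hlsq
  obtain ⟨b2, b, q, M, m, s, w, m', Pa, h1, h2, h3, h4⟩ := H N1 l hl_l0 hlN
  have hj0 := Pa.j0_le le_rfl h1
  obtain ⟨a1, a2, a3⟩ := Hab N1 l q m (w / (2 * b) / b + 1) hl_l1 hlN1 (Nat.le_add_left 1 _) hj0 h4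
  have hm' : 1 ≤ m' := by
    have h5 : (0 : ℝ) < m' := lt_of_lt_of_le (by positivity) h3
    exact_mod_cast h5
  have hB : M * (2 * q ^ b2) ≤ N1 := by
    have h5 : 1 * (M * (2 * q ^ b2)) ≤ m' * (M * (2 * q ^ b2)) := Nat.mul_le_mul_right _ hm'
    omega
  have hMpos : 0 < M := by
    have := Pa.hM
    have := Pa.hm
    omega
  have hqpos : 0 < q := by
    have := Pa.hq
    omega
  obtain ⟨P, hP1, hP2⟩ := Hd n (M * (2 * q ^ b2)) hk4
    (Nat.mul_pos hMpos (Nat.mul_pos (by norm_num) (by positivity)))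
    (by
      have h5 : ((M * (2 * q ^ b2) : ℕ) : ℝ) ≤ N1 := by exact_mod_cast hB
      exact (h5.trans g1).trans (Real.rpow_le_rpow_of_exponent_le hnR hη1))
  refine ⟨b2, b, q, M, m, s, w, P, (N1 : ℝ) ^ (-(δ1 / 4)), Pa, h1.trans (min_le_left _ _), hP2,
    ?_, ?_, a1, ?_⟩
  · -- the gap
    calc (N1 : ℝ) ^ (-(δ1 / 4)) ≤ ((n : ℝ) ^ (η / 2)) ^ (-(δ1 / 4)) :=
          Real.rpow_le_rpow_of_nonpos (by positivity) g3 (by linarith)
      _ = (n : ℝ) ^ (-(η * δ1 / 8)) := by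
          rw [← Real.rpow_mul hnpos.le]
          congr 1
          ring
      _ ≤ (n : ℝ) ^ (-δ) := Real.rpow_le_rpow_of_exponent_le hnR (by linarith)
  · -- the number of blocks
    have h5 : (n : ℝ) ^ (-(ε / 4)) ≤ (N1 : ℝ) ^ (-(δ1 / 4)) := by
      calc (n : ℝ) ^ (-(ε / 4)) ≤ (n : ℝ) ^ (-(η * δ1 / 4)) :=
            Real.rpow_le_rpow_of_exponent_le hnR (by linarith)
        _ = ((n : ℝ) ^ η) ^ (-(δ1 / 4)) := by
            rw [← Real.rpow_mul hnpos.le]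
            congr 1
            ring
        _ ≤ (N1 : ℝ) ^ (-(δ1 / 4)) :=
            Real.rpow_le_rpow_of_nonpos hN1pos g1 (by linarith)
    calc (n : ℝ) ^ (2 - ε) = (n : ℝ) ^ (2 - ε) * 2 / 2 := by ring
      _ ≤ (n : ℝ) ^ (2 - ε) * (n : ℝ) ^ (ε / 4) / 2 := by
          apply div_le_div_of_nonneg_right _ (by norm_num)
          exact mul_le_mul_of_nonneg_left f3 (by positivity)
      _ = (n : ℝ) ^ (-(ε / 4)) / 2 * (n : ℝ) ^ (2 - ε / 2) := by
          rw [← Real.rpow_add hnpos, div_mul_eq_mul_div, ← Real.rpow_add hnpos]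
          congr 2
          ring
      _ ≤ (N1 : ℝ) ^ (-(δ1 / 4)) / 2 * P := by
          apply mul_le_mul _ hP1 (by positivity) (by positivity)
          linarith
  · intro z hz
    apply a3
    refine lt_of_lt_of_le hz ?_
    have hmin : min (k : ℝ) ((n : ℝ) ^ δ) ≤ l := by
      rw [hl, Nat.cast_min]
      apply min_le_min le_rfl
      refine le_trans ?_ hsqrt.2
      exact Real.rpow_le_rpow_of_exponent_le hnR hδb
    have hmin0 : 0 ≤ min (k : ℝ) ((n : ℝ) ^ δ) := le_min (Nat.cast_nonneg _) (by positivity)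
    calc (n : ℝ) ^ (δ * min (k : ℝ) ((n : ℝ) ^ δ)) ≤ (n : ℝ) ^ (η * δ1 / 8 * l) := by
          apply Real.rpow_le_rpow_of_exponent_le hnR
          exact mul_le_mul hδa hmin hmin0 (by positivity)
      _ = ((n : ℝ) ^ (η / 2)) ^ (δ1 / 4 * l) := by
          rw [← Real.rpow_mul hnpos.le]
          congr 1
          ring
      _ ≤ (N1 : ℝ) ^ (δ1 / 4 * l) :=
          Real.rpow_le_rpow (by positivity) g3 (by positivity)

end Pool.Agent.H10x.NL
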