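import Pool.Agent.H10x.NL.Glue
import Pool.Agent.H10x.NL.Par

/-!
# The lower bound for real circuits
-/

set_option linter.unusedSectionVars false
set_option linter.unusedVariables false

namespace Pool.Agent.H10x.NL

open Finset Pool.Agent.W969.MC Pool.Agent.H559R7

/-- the lower bound -/
theorem nl_rand (ε : ℝ) (hε : 0 < ε) : ∃ δ : ℝ, 0 < δ ∧ ∃ k0 : ℕ, ∀ m n k : ℕ, k0 ≤ k → 2 * k ≤ n →
    ∀ (R Inp : Type) [Fintype R] [Nonempty R] (d : Inp → Fin m × Edge n) (C : R → RC Inp)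
      (A0 : ℝ),
      (∀ x, HasClqG m n k x →
        (A0 + (n : ℝ) ^ (-δ)) * Fintype.card R ≤ ({ρ : R | (C ρ).acc (fun i => x (d i))}.ncard : ℝ)) →
      (∀ x, ¬ HasClqG m n k x →
        ({ρ : R | (C ρ).acc (fun i => x (d i))}.ncard : ℝ) ≤ A0 * Fintype.card R) →
      (∀ ρ, ((C ρ).free : ℝ) ≤ m * (n : ℝ) ^ (2 - ε)) →
      ∃ ρ, (n : ℝ) ^ (δ * min (k : ℝ) ((n : ℝ) ^ δ)) ≤ ((C ρ).size : ℝ) := by
  classical
  obtain ⟨δ, hδ, k0, H⟩ := all_par ε hε
  refine ⟨δ, hδ, k0, ?_⟩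
  intro m n k hk hkn R Inp _ _ d C A0 hyes hno hfree
  obtain ⟨b2, b, q, M, m1, s, w, P, g, Pa, h1, ⟨D⟩, h2, h3, h4, h5⟩ := H n k hk hkn
  by_contra hcon
  push Not at hcon
  obtain ⟨h, hG⟩ := Pa.good
  have : Nonempty (Fin 2 × Fin b2) := ⟨(0, ⟨0, Pa.hb2⟩)⟩
  obtain ⟨r0, hr0⟩ : ∃ r0, k = 2 * M + r0 := ⟨k - 2 * M, by omega⟩
  have hcard1 : Fintype.card (Vx (Fin M) (Fin q) 1 2 b2 0) ≤
      Fintype.card (Fin (M * (2 * q ^ b2))) := by
    simp only [Fintype.card_sum, Fintype.card_prod, Fintype.card_fin, Fintype.card_fun]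
    omega
  obtain ⟨ι⟩ := Function.Embedding.nonempty_of_card_le hcard1
  have hcard2 : Fintype.card (Fin (n / 2) ⊕ Fin r0) ≤ Fintype.card (Fin n) := by
    rw [Fintype.card_sum, Fintype.card_fin, Fintype.card_fin, Fintype.card_fin]
    omega
  obtain ⟨ψ⟩ := Function.Embedding.nonempty_of_card_le hcard2
  have hMpos : 0 < M := by
    have := Pa.hM
    have := Pa.hm
    omega
  have hcl := fun y => encG_clique (m := m) (D := D) (ψ := ψ) (ι := ι) (h := h) Pa.hb2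
      (by rw [Fintype.card_fin]; exact hMpos) y
  simp only [Fintype.card_fin, ← hr0] at hcl
  have hRpos : (0 : ℝ) < Fintype.card R := by exact_mod_cast Fintype.card_pos
  refine csp_rand hG (m' := m * P) C (fun y i => encG D ψ ι h y (d i)) ?_ ?_ A0 g ?_ ?_ ?_
    (by
      intro ρ
      rw [Fintype.card_fin, Fintype.card_fin]
      exact (h5 _ (hcon ρ)).1)
    (by rw [Fintype.card_fin]; exact h4)
    (by
      intro ρ
      rw [Fintype.card_fin]
      exact (h5 _ (hcon ρ)).2)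
  · intro y y' hy i
    exact encG_mono hy (d i)
  · intro y J i
    exact encG_narrow y J (d i)
  · intro y hy
    refine le_trans ?_ (hyes _ ((hcl y).mpr hy))
    apply mul_le_mul_of_nonneg_right _ hRpos.le
    linarith
  · intro y hy
    exact hno _ (fun hh => hy ((hcl y).mp hh))
  · intro ρ
    refine (hfree ρ).trans ?_
    have h6 : (m : ℝ) * (n : ℝ) ^ (2 - ε) ≤ m * (g / 2 * P) :=
      mul_le_mul_of_nonneg_left h3 (Nat.cast_nonneg _)
    refine h6.trans (le_of_eq ?_)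
    push_cast
    ring

end Pool.Agent.H10x.NL
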