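import Pool.Agent.H10x.NL.Par2
import Pool.Agent.H10x.NL.Alt
import Pool.Agent.H10x.NL.Bool

/-!
# The lower bound for circuits with small alternation number
-/

set_option linter.unusedSectionVars false
set_option linter.unusedVariables false

namespace Pool.Agent.H10x.NL.G2

open Finset Pool.Agent.W969.MC

/-- the lower bound -/
theorem alt_rand (hPk : S_PACK) : ∃ δ : ℝ, 0 < δ ∧ ∃ C : ℝ, 0 < C ∧ ∃ l0 : ℕ, ∀ n k l : ℕ,
    l0 ≤ l → l ≤ k → 2 * k ≤ n → (Real.log n) ^ (4 : ℕ) ≤ l → (l : ℝ) ^ C ≤ n →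
    ∀ (R Inp : Type) [Fintype R] [Nonempty R] (d : Inp → Edge n) (Ci : R → RC Inp) (A0 : ℝ)
      (Al : R → ℕ), (∀ ρ, AltLe (Ci ρ) (Al ρ)) →
      (∀ ρ, (Al ρ : ℝ) ≤ (n : ℝ) ^ (2 : ℕ) / (l : ℝ) ^ C) →
      (∀ x, HasClq n 2 k x →
        (A0 + (l : ℝ) ^ (-δ)) * Fintype.card R ≤ ({ρ : R | (Ci ρ).acc (fun i => x (d i))}.ncard : ℝ)) →
      (∀ x, ¬ HasClq n 2 k x →
        ({ρ : R | (Ci ρ).acc (fun i => x (d i))}.ncard : ℝ) ≤ A0 * Fintype.card R) →
      ∃ ρ, (l : ℝ) ^ (δ * l) ≤ ((Ci ρ).size : ℝ) := by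
  classical
  obtain ⟨δ, hδ, C, hC, l0, H⟩ := all_par2 hPk
  refine ⟨δ, hδ, C, hC, l0, ?_⟩
  intro n k l hl hlk hkn hlog hln R Inp _ _ d Ci A0 Al hAl hAl2 hyes hno
  obtain ⟨b2, b, q, M, m1, s, w, P, g, Pa, h1, ⟨D⟩, hP0, h2, h3, h4, h5⟩ := H n k l hl hlk hkn hlog hln
  by_contra hcon
  push Not at hcon
  obtain ⟨h, hG⟩ := Pa.good
  have : Nonempty (Fin 2 × Fin b2) := ⟨(0, ⟨0, Pa.hb2⟩)⟩
  obtain ⟨r0, hr0⟩ : ∃ r0, k = 2 * M + r0 := ⟨k - 2 * M, by omega⟩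
  have hcard1 : Fintype.card (Vx (Fin M) (Fin q) 1 2 b2 0) ≤
      Fintype.card (Fin (M * (2 * q ^ b2))) := by
    simp only [Fintype.card_sum, Fintype.card_prod, Fintype.card_fin, Fintype.card_fun]
    omega
  obtain ⟨ι⟩ := Function.Embedding.nonempty_of_card_le hcard1
  have hcard2 : Fintype.card (Fin (n / 2) ⊕ Fin r0) ≤ Fintype.card (Fin n) := by
    rw [Fintype.card_sum, Fintype.card_fin, Fintype.card_fin, Fintype.card_fin]
    omega
  obtain ⟨ψ⟩ := Function.Embedding.nonempty_of_card_le hcard2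
  have hMpos : 0 < M := by
    have := Pa.hM
    have := Pa.hm
    omega
  obtain ⟨D'⟩ : Nonempty (Pack (n / 2) (M * (2 * q ^ b2)) (2 * Fintype.card (Fin M)) P) :=
    ⟨by rw [Fintype.card_fin]; exact D⟩
  have hcl := fun y => encG_clique (D := D') (ψ := ψ) (ι := ι) (h := h) Pa.hb2
      (by rw [Fintype.card_fin]; exact hMpos) y
  simp only [Fintype.card_fin, ← hr0] at hcl
  have hRpos : (0 : ℝ) < Fintype.card R := by exact_mod_cast Fintype.card_pos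
  refine csp_rand_alt hG (m' := P) Ci (fun y i => encG D' ψ ι h y (d i)) ?_ ?_ A0 g ?_ ?_ hP0 Al hAl
    (fun ρ => (hAl2 ρ).trans h3)
    (by
      intro ρ
      rw [Fintype.card_fin, Fintype.card_fin]
      exact (h5 _ (hcon ρ)).1)
    (by rw [Fintype.card_fin]; exact h4)
    (by
      intro ρ
      rw [Fintype.card_fin]
      exact (h5 _ (hcon ρ)).2)
  · intro y y' hy i
    exact encG_mono hy (d i)
  · intro y J i
    exact encG_narrow y J (d i)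
  · intro y hy
    refine le_trans ?_ (hyes _ ((hcl y).mpr hy))
    apply mul_le_mul_of_nonneg_right _ hRpos.le
    linarith
  · intro y hy
    exact hno _ (fun hh => hy ((hcl y).mp hh))

end Pool.Agent.H10x.NL.G2
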