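import Pool.Agent.H10x.NL.Alt
import Pool.Agent.W969.MC.Clq

/-!
# Counting satisfying assignments of 2-CNF formulas: pieces
-/

namespace Pool.Agent.H10x.NL

open Finset Pool.Agent.W969.MC

/-- The pairs of vertices. -/
abbrev Edg (n : ℕ) : Type := {e : Finset (Fin n) // e.card = 2}

/-- The clauses with at most two literals, where the literal `(v, b)` says that the variable `v` has
the value `b`, and the variables are `0, ..., N - 1`. -/
abbrev Cls (N : ℕ) : Type := {c : Finset (Fin N × Bool) // c.card ≤ 2}

/-- The number of assignments of values to the variables `0, ..., N - 1` that satisfy the formula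
with the clauses `c` such that `x c = true`. -/
noncomputable def nSat {N : ℕ} (x : Cls N → Bool) : ℕ :=
  {α : Fin N → Bool | ∀ c : Cls N, x c = true → ∃ p ∈ c.1, α p.1 = p.2}.ncard

/-- PIECE DUAL. The dual of a real circuit (`RC`, see `Pool/Agent/W969/MC/Avg2.lean`).

Proof. Let `C'` have the same gates, the same `T`, `wd`, `a`, `o`, and
`val' x i = 1 - C.val (fun i => !x i) i`. Note `bit x p = 1 - bit (fun i => !x i) p`.
For `i ∉ T` let `op' i z = 1 - C.op i (fun j => 1 - z j)`; it is nondecreasing.
For `i ∈ T`: the test `j` of gate `i` in `C` on the input `!x` is `θ i j ≤ v`, where `v` is the value of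
the wire, and the value of the wire in `C'` on `x` is `1 - v`. There are finitely many inputs `x`
(`Finite (Inp → Bool)`), so there is `θ' i j` such that for all `x`:
`θ' i j ≤ 1 - v ↔ ¬ θ i j ≤ v` (let `θ' i j` be the minimum of the numbers `1 - v` over the inputs with
`v < θ i j`, and if there are none, a number larger than all the `1 - v`; both are covered by: for a
finite set `S` of reals and a real `u` there is `u'` with `∀ s ∈ S, u' ≤ 1 - s ↔ s < u`). Let
`op' i z = 1 - C.op i (fun j => if θ' i j ≤ z j then θ i j - 1 else θ i j)`. It depends only on the tests,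
and `hval` holds by `C.hT`. (For a uniform definition use `if i ∈ T then ... else ...`.)
`τ'` is chosen in the same way: `τ' ≤ 1 - v ↔ ¬ τ ≤ v` for the values `v` of the gate `o`.
Then `C'.chg x y ↔ C.chg (!x) (!y)` (each test is negated). If `x 0 ≤ ... ≤ x q` is a monotone sequence,
apply `AltLe C A` to the sequence `y i = !(x (q - i))` (monotone, constant from `q` on): the step
`i < q` of `x` corresponds to the step `q - 1 - i` of `y` (`chg` is symmetric), so the numbers of changes
are equal (`Finset.card_bij` or `Finset.card_le_card_of_injOn` with `i ↦ q - 1 - i`). -/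
def S_DUAL : Prop := ∀ (Inp : Type) [Finite Inp] (C : RC Inp), ∃ C' : RC Inp,
  (∀ x, C'.acc x ↔ ¬ C.acc (fun i => !x i)) ∧ C'.size = C.size ∧ ∀ A, AltLe C A → AltLe C' A

/-- PIECE CNT. For a graph `y` on `n` vertices consider the following 2-CNF formula on `N` variables:
the variables `w < n b` are the `b` copies `v b, ..., v b + b - 1` of the vertices `v`. Clauses: for each
non-edge `{u, v}` and all copies `w` of `u`, `w'` of `v` the clause `¬ w ∨ ¬ w'`; and for each `w ≥ n b` the
clause `¬ w`. So the bit of a clause `c` is: `!y {u, v}` if `c = {(w, false), (w', false)}` with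
`w, w' < n b`, `w / b = u ≠ v = w' / b` (`d c = inl {u, v}`); `true` if `c = {(w, false)}`, `w ≥ n b`
(`d c = inr true`); and `false` otherwise (`d c = inr false`).

The satisfying assignments are the `α` with `α w = false` for `w ≥ n b` such that the set `S α` of the
vertices with a true copy is a clique of `y`.
If `K` is a clique of size `k`, then all `2 ^ (b k)` assignments `α` for which all true variables are
copies of members of `K` are satisfying (injection from `K × Fin b → Bool`, or from `Finset`s).
If there is no clique of size `k`, then `S α` has at most `k - 1` members (a clique with at least `k`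
members contains one of size `k`: `Finset.exists_subset_card_eq`), so `α` is determined by a set of
vertices with at most `k - 1` members and by the values of the copies of these: `α` is the image of
some pair `(f, g)`, `f : Fin (k - 1) → Option (Fin n)`, `g : Fin (k - 1) → Fin b → Bool`, under the map
that makes the copy `i` of `v` true iff `g j i` for some `j` with `f j = some v` (surjectivity:
enumerate `S α`, `g j i = α (copy i of f j)`). So the number is at most
`(n + 1) ^ (k - 1) * (2 ^ b) ^ (k - 1)`. -/
def S_CNT : Prop := ∀ n b N k : ℕ, 1 ≤ b → 1 ≤ k → n * b ≤ N → ∃ d : Cls N → Edg n ⊕ Bool,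
  ∀ y : Edg n → Bool,
    (HasClq n 2 k y →
      2 ^ (b * k) ≤ nSat (fun c => Sum.elim (fun e => !y e) (fun β => β) (d c))) ∧
    (¬ HasClq n 2 k y →
      nSat (fun c => Sum.elim (fun e => !y e) (fun β => β) (d c)) ≤
        (n + 1) ^ (k - 1) * 2 ^ (b * (k - 1)))

end Pool.Agent.H10x.NL
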