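import Pool.Agent.H10x.NL.Stm4

/-!
# Piece NPP (helper61): nondeterministic circuits for the clique language
-/

set_option autoImplicit false

namespace Pool.Agent.H10x.NL

namespace Npp

section cmp

variable {E : Type}

/-- `f` can be computed with `m` additional gates, starting from any circuit -/
def Cmp (m : ℕ) (f : (E → Bool) → Bool) : Prop :=
  ∀ (t : ℕ) (L : List ((E → Bool) → Bool)), BC t L →
    ∃ (t' : ℕ) (L' : List ((E → Bool) → Bool)), BC t' L' ∧ L'.length ≤ L.length + m ∧
      (∀ f, Available L f → Available L' f) ∧ Available L' f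

theorem Cmp.mono {m m' : ℕ} {f : (E → Bool) → Bool} (h : Cmp m f) (hm : m ≤ m') : Cmp m' f := by
  intro t L hb
  obtain ⟨t', L', b, l, mo, a⟩ := h t L hb
  exact ⟨t', L', b, by omega, mo, a⟩

theorem Cmp.const (c : Bool) : Cmp 0 (fun _ : E → Bool => c) :=
  fun t L hb => ⟨t, L, hb, le_rfl, fun _ h => h, Or.inr (Or.inl ⟨c, rfl⟩)⟩

theorem Cmp.input (e : E) : Cmp 0 (fun x : E → Bool => x e) :=
  fun t L hb => ⟨t, L, hb, le_rfl, fun _ h => h, Or.inr (Or.inr ⟨e, rfl⟩)⟩

theorem mono_cons (L : List ((E → Bool) → Bool)) (g : (E → Bool) → Bool) :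
    ∀ f, Available L f → Available (g :: L) f := by
  rintro f (h | h)
  · exact Or.inl (List.mem_cons_of_mem _ h)
  · exact Or.inr h

theorem Cmp.and {f g : (E → Bool) → Bool} {m m' : ℕ} (hf : Cmp m f) (hg : Cmp m' g) :
    Cmp (m + m' + 1) (fun x => f x && g x) := by
  intro t L hb
  obtain ⟨t1, L1, b1, l1, m1, a1⟩ := hf t L hb
  obtain ⟨t2, L2, b2, l2, m2, a2⟩ := hg t1 L1 b1
  refine ⟨_, _, BC.and b2 (m2 f a1) a2, ?_, fun f h => mono_cons _ _ _ (m2 _ (m1 _ h)),
    Or.inl List.mem_cons_self⟩
  rw [List.length_cons]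
  omega

theorem Cmp.or {f g : (E → Bool) → Bool} {m m' : ℕ} (hf : Cmp m f) (hg : Cmp m' g) :
    Cmp (m + m' + 1) (fun x => f x || g x) := by
  intro t L hb
  obtain ⟨t1, L1, b1, l1, m1, a1⟩ := hf t L hb
  obtain ⟨t2, L2, b2, l2, m2, a2⟩ := hg t1 L1 b1
  refine ⟨_, _, BC.or b2 (m2 f a1) a2, ?_, fun f h => mono_cons _ _ _ (m2 _ (m1 _ h)),
    Or.inl List.mem_cons_self⟩
  rw [List.length_cons]
  omega

theorem Cmp.not {f : (E → Bool) → Bool} {m : ℕ} (hf : Cmp m f) :
    Cmp (m + 1) (fun x => !f x) := by
  intro t L hb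
  obtain ⟨t1, L1, b1, l1, m1, a1⟩ := hf t L hb
  refine ⟨_, _, BC.not b1 a1, ?_, fun f h => mono_cons _ _ _ (m1 _ h),
    Or.inl List.mem_cons_self⟩
  rw [List.length_cons]
  omega

theorem Cmp.all {α : Type} (l : List α) {F : α → (E → Bool) → Bool} {c : ℕ}
    (h : ∀ a, Cmp c (F a)) : Cmp ((c + 1) * l.length) (fun x => l.all fun a => F a x) := by
  induction l with
  | nil => exact Cmp.const true
  | cons a l ih =>
    have h1 := (h a).and ih
    simp only [List.all_cons, List.length_cons]
    exact h1.mono (by rw [Nat.mul_succ]; omega)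

theorem Cmp.any {α : Type} (l : List α) {F : α → (E → Bool) → Bool} {c : ℕ}
    (h : ∀ a, Cmp c (F a)) : Cmp ((c + 1) * l.length) (fun x => l.any fun a => F a x) := by
  induction l with
  | nil => exact Cmp.const false
  | cons a l ih =>
    have h1 := (h a).or ih
    simp only [List.any_cons, List.length_cons]
    exact h1.mono (by rw [Nat.mul_succ]; omega)

end cmp

/-- the position of the bit of the pair -/
def pos (u v : ℕ) : ℕ := max u v * (max u v - 1) / 2 + min u v

section fml

variable {n k M : ℕ}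

/-- the bit of the pair -/
def xb (u v : Fin M) (z : Fin n ⊕ Fin (k * M) → Bool) : Bool :=
  if h : pos u v < n then z (.inl ⟨pos u v, h⟩) else false

/-- the bit of the matrix -/
def wb (i : Fin k) (u : Fin M) (z : Fin n ⊕ Fin (k * M) → Bool) : Bool :=
  z (.inr (finProdFinEquiv (i, u)))

/-- the clauses -/
def cl (i i' : Fin k) (u v : Fin M) (z : Fin n ⊕ Fin (k * M) → Bool) : Bool :=
  if i < i' then
    (if u = v then !wb i u z || !wb i' v z else !wb i u z || (!wb i' v z || xb u v z))
  else true

/-- the formula -/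
def fml (n k M : ℕ) (z : Fin n ⊕ Fin (k * M) → Bool) : Bool :=
  ((List.finRange k).all fun i => (List.finRange M).any fun u => wb i u z) &&
  ((List.finRange k).all fun i => (List.finRange k).all fun i' =>
    (List.finRange M).all fun u => (List.finRange M).all fun v => cl i i' u v z)

theorem cmp_xb (u v : Fin M) : Cmp 0 (xb u v : (Fin n ⊕ Fin (k * M) → Bool) → Bool) := by
  by_cases h : pos u v < n
  · have : (xb u v : (Fin n ⊕ Fin (k * M) → Bool) → Bool) = fun z => z (.inl ⟨pos u v, h⟩) := by
      funext z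
      unfold xb
      rw [dif_pos h]
    rw [this]
    exact Cmp.input _
  · have : (xb u v : (Fin n ⊕ Fin (k * M) → Bool) → Bool) = fun z => false := by
      funext z
      unfold xb
      rw [dif_neg h]
    rw [this]
    exact Cmp.const _

theorem cmp_wb (i : Fin k) (u : Fin M) : Cmp 0 (wb i u : (Fin n ⊕ Fin (k * M) → Bool) → Bool) :=
  Cmp.input _

theorem cmp_cl (i i' : Fin k) (u v : Fin M) :
    Cmp 4 (cl i i' u v : (Fin n ⊕ Fin (k * M) → Bool) → Bool) := by
  by_cases h : i < i'
  · by_cases h2 : u = v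
    · have : (cl i i' u v : (Fin n ⊕ Fin (k * M) → Bool) → Bool) =
          fun z => !wb i u z || !wb i' v z := by
        funext z
        unfold cl
        rw [if_pos h, if_pos h2]
      rw [this]
      exact ((cmp_wb i u).not.or (cmp_wb i' v).not).mono (by norm_num)
    · have : (cl i i' u v : (Fin n ⊕ Fin (k * M) → Bool) → Bool) =
          fun z => !wb i u z || (!wb i' v z || xb u v z) := by
        funext z
        unfold cl
        rw [if_pos h, if_neg h2]
      rw [this]
      exact ((cmp_wb i u).not.or ((cmp_wb i' v).not.or (cmp_xb u v))).mono (by norm_num)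
  · have : (cl i i' u v : (Fin n ⊕ Fin (k * M) → Bool) → Bool) = fun z => true := by
      funext z
      unfold cl
      rw [if_neg h]
    rw [this]
    exact (Cmp.const _).mono (by norm_num)

theorem cmp_fml (n k M : ℕ) :
    Cmp ((M + 1) * k + ((((5 * M + 1) * M) + 1) * k + 1) * k + 1) (fml n k M) := by
  have h1 : Cmp ((M + 1) * k) (fun z : Fin n ⊕ Fin (k * M) → Bool =>
      (List.finRange k).all fun i => (List.finRange M).any fun u => wb i u z) := by
    have := Cmp.all (List.finRange k) (F := fun i (z : Fin n ⊕ Fin (k * M) → Bool) =>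
      (List.finRange M).any fun u => wb i u z) (c := M) fun i => by
        have h2 := Cmp.any (List.finRange M) (F := fun u (z : Fin n ⊕ Fin (k * M) → Bool) =>
          wb i u z) (c := 0) fun u => cmp_wb i u
        rw [List.length_finRange] at h2
        exact h2.mono (by omega)
    rw [List.length_finRange] at this
    exact this
  have h2 : Cmp (((((5 * M + 1) * M) + 1) * k + 1) * k) (fun z : Fin n ⊕ Fin (k * M) → Bool =>
      (List.finRange k).all fun i => (List.finRange k).all fun i' =>
        (List.finRange M).all fun u => (List.finRange M).all fun v => cl i i' u v z) := by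
    have := Cmp.all (List.finRange k) (F := fun i (z : Fin n ⊕ Fin (k * M) → Bool) =>
      (List.finRange k).all fun i' =>
        (List.finRange M).all fun u => (List.finRange M).all fun v => cl i i' u v z)
      (c := (((5 * M + 1) * M) + 1) * k) fun i => by
        have := Cmp.all (List.finRange k) (F := fun i' (z : Fin n ⊕ Fin (k * M) → Bool) =>
          (List.finRange M).all fun u => (List.finRange M).all fun v => cl i i' u v z)
          (c := (5 * M + 1) * M) fun i' => by
            have := Cmp.all (List.finRange M) (F := fun u (z : Fin n ⊕ Fin (k * M) → Bool) =>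
              (List.finRange M).all fun v => cl i i' u v z) (c := 5 * M) fun u => by
                have := Cmp.all (List.finRange M)
                  (F := fun v (z : Fin n ⊕ Fin (k * M) → Bool) => cl i i' u v z) (c := 4)
                  fun v => cmp_cl i i' u v
                rw [List.length_finRange] at this
                exact this
            rw [List.length_finRange] at this
            exact this
        rw [List.length_finRange] at this
        exact this
    rw [List.length_finRange] at this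
    exact this
  exact h1.and h2

theorem fml_iff (z : Fin n ⊕ Fin (k * M) → Bool) : fml n k M z = true ↔
    (∀ i, ∃ u, wb i u z = true) ∧ ∀ i i', i < i' → ∀ u v, wb i u z = true → wb i' v z = true →
      u ≠ v ∧ xb u v z = true := by
  unfold fml
  rw [Bool.and_eq_true]
  simp only [List.all_eq_true, List.any_eq_true, List.mem_finRange, true_and, forall_true_left]
  refine and_congr Iff.rfl (forall_congr' fun i => forall_congr' fun i' => ?_)
  by_cases h : i < i'
  · simp only [h, forall_true_left]
    refine forall_congr' fun u => forall_congr' fun v => ?_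
    unfold cl
    rw [if_pos h]
    by_cases h2 : u = v
    · rw [if_pos h2]
      cases wb i u z <;> cases wb i' v z <;> simp [h2]
    · rw [if_neg h2]
      cases wb i u z <;> cases wb i' v z <;> cases xb u v z <;> simp [h2]
  · simp only [h, false_imp_iff, iff_true]
    intro u v
    unfold cl
    rw [if_neg h]

end fml

theorem getD_ofFn {n : ℕ} (x : Fin n → Bool) (p : ℕ) :
    (List.ofFn x).getD p false = if h : p < n then x ⟨p, h⟩ else false := by
  by_cases h : p < n
  · rw [dif_pos h, List.getD_eq_getElem _ _ (by rw [List.length_ofFn]; exact h),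
      List.getElem_ofFn]
  · rw [dif_neg h, List.getD_eq_default _ _ (by rw [List.length_ofFn]; omega)]

theorem pos_comm (u v : ℕ) : pos u v = pos v u := by
  unfold pos
  rw [max_comm, min_comm]

theorem pos_lt {u v : ℕ} (h : u < v) : pos u v = v * (v - 1) / 2 + u := by
  unfold pos
  rw [max_eq_right h.le, min_eq_left h.le]

theorem correct {n k M : ℕ} (hM : M = Nat.sqrt (2 * n)) (hk : k = M / 2) (x : Fin n → Bool) :
    List.ofFn x ∈ CLang ↔ ∃ w : Fin (k * M) → Bool, fml n k M (Sum.elim x w) = true := by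
  have hx : ∀ (u v : Fin M) (w : Fin (k * M) → Bool),
      xb u v (Sum.elim x w) = (List.ofFn x).getD (pos u v) false := by
    intro u v w
    rw [getD_ofFn]
    rfl
  unfold CLang
  rw [Set.mem_setOf_eq, List.length_ofFn, ← hM, ← hk]
  constructor
  · rintro ⟨S, hS1, hS2, hS3⟩
    have hmem : ∀ i, S.orderEmbOfFin hS2 i ∈ S := fun i => S.orderEmbOfFin_mem hS2 i
    refine ⟨fun t => decide (((finProdFinEquiv.symm t).2 : ℕ) =
      S.orderEmbOfFin hS2 (finProdFinEquiv.symm t).1), ?_⟩
    have hw : ∀ (i : Fin k) (u : Fin M), wb i u (Sum.elim x fun t =>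
        decide (((finProdFinEquiv.symm t).2 : ℕ) =
          S.orderEmbOfFin hS2 (finProdFinEquiv.symm t).1)) = true ↔
        (u : ℕ) = S.orderEmbOfFin hS2 i := by
      intro i u
      unfold wb
      rw [Sum.elim_inr, Equiv.symm_apply_apply, decide_eq_true_eq]
    rw [fml_iff]
    refine ⟨fun i => ⟨⟨S.orderEmbOfFin hS2 i, hS1 _ (hmem i)⟩, (hw _ _).2 rfl⟩, ?_⟩
    intro i i' hii u v hu hv
    rw [hw] at hu hv
    have hlt : (u : ℕ) < v := by
      rw [hu, hv]
      exact (S.orderEmbOfFin hS2).strictMono hii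
    refine ⟨fun h => ?_, ?_⟩
    · rw [h] at hlt
      exact lt_irrefl _ hlt
    · rw [hx, pos_lt hlt]
      exact hS3 _ (hu ▸ hmem i) _ (hv ▸ hmem i') hlt
  · rintro ⟨w, hw⟩
    rw [fml_iff] at hw
    obtain ⟨h1, h2⟩ := hw
    choose u hu using h1
    have hne : ∀ i i', i ≠ i' → u i ≠ u i' ∧ xb (u i) (u i') (Sum.elim x w) = true := by
      intro i i' hii
      rcases lt_or_gt_of_ne hii with h | h
      · exact h2 i i' h _ _ (hu i) (hu i')
      · obtain ⟨h3, h4⟩ := h2 i' i h _ _ (hu i') (hu i)
        refine ⟨fun h => h3 h.symm, ?_⟩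
        rw [hx] at h4 ⊢
        rw [pos_comm]
        exact h4
    have hinj : Function.Injective fun i => (u i : ℕ) := by
      intro i i' h
      by_contra hii
      exact (hne i i' hii).1 (Fin.ext h)
    refine ⟨Finset.univ.image fun i => (u i : ℕ), ?_, ?_, ?_⟩
    · intro v hv
      obtain ⟨i, -, rfl⟩ := Finset.mem_image.1 hv
      exact (u i).2
    · rw [Finset.card_image_of_injective _ hinj, Finset.card_univ, Fintype.card_fin]
    · intro a ha b hb hab
      obtain ⟨i, -, rfl⟩ := Finset.mem_image.1 ha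
      obtain ⟨j, -, rfl⟩ := Finset.mem_image.1 hb
      have hij : i ≠ j := by
        rintro rfl
        exact lt_irrefl _ hab
      have h3 := (hne i j hij).2
      rw [hx, pos_lt hab] at h3
      exact h3

end Npp

open Npp in
theorem t_NPP : S_NPP := by
  refine ⟨100 * Polynomial.X ^ 2 + 100 * Polynomial.X + 100, fun n => ?_⟩
  obtain ⟨M, hM⟩ : ∃ M, M = Nat.sqrt (2 * n) := ⟨_, rfl⟩
  obtain ⟨k, hk⟩ : ∃ k, k = M / 2 := ⟨_, rfl⟩
  have hMM : M * M ≤ 2 * n := by
    rw [hM]
    exact Nat.sqrt_le _
  have hkM : k ≤ M := by rw [hk]; exact Nat.div_le_self _ _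
  have hM1 : M ≤ 2 * n := (Nat.le_mul_self M).trans hMM
  have hp : (100 * Polynomial.X ^ 2 + 100 * Polynomial.X + 100 : Polynomial ℕ).eval n =
      100 * n ^ 2 + 100 * n + 100 := by
    simp
  rw [hp]
  have hkM2 : k * M ≤ 2 * n := (Nat.mul_le_mul_right M hkM).trans hMM
  refine ⟨k * M, by nlinarith, ?_⟩
  obtain ⟨t, L, hb, hl, -, ha⟩ := cmp_fml n k M 0 [] BC.nil
  refine ⟨t, fun z => fml n k M z = true, ⟨t, L, fml n k M, le_rfl, hb, ?_, ha, fun z => Iff.rfl⟩,
    correct hM hk⟩
  rw [List.length_nil, Nat.zero_add] at hl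
  refine hl.trans ?_
  have e1 : (M + 1) * k ≤ 4 * n := by
    calc (M + 1) * k ≤ (M + 1) * M := Nat.mul_le_mul_left _ hkM
      _ = M * M + M := by ring
      _ ≤ 4 * n := by omega
  have e2 : ((((5 * M + 1) * M) + 1) * k + 1) * k ≤ 24 * n ^ 2 + 4 * n := by
    calc ((((5 * M + 1) * M) + 1) * k + 1) * k
        ≤ ((((5 * M + 1) * M) + 1) * M + 1) * M := by gcongr
      _ = 5 * ((M * M) * (M * M)) + M * (M * M) + M * M + M := by ring
      _ ≤ 5 * ((2 * n) * (2 * n)) + (2 * n) * (2 * n) + 2 * n + 2 * n := by gcongr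
      _ = 24 * n ^ 2 + 4 * n := by ring
  nlinarith

end Pool.Agent.H10x.NL
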