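import Mathlib

/-!
# Dense packings of blocks without cliques across the blocks
-/

namespace Pool.Agent.H10x.NL

/-- PIECE PACK. There are about `n ^ 2 / (16 B ^ 4)` blocks of `B` vertices among `n` vertices, two
blocks having at most one common vertex, such that each set `T` of at least `4 (log₂ n + 4) ^ 3`
vertices, each two of which lie in a common block, is contained in one block.

Proof. Choose by Bertrand (`Nat.exists_prime_lt_and_le_two_mul (n / (2 * B))`) a prime `p` with
`n / (2 B) < p ≤ 2 (n / (2 B))`; then `B p ≤ n`, `n < 2 B (n / (2 B) + 1) ≤ 2 B p`, and `B ≤ p` since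
`8 B ^ 2 ≤ n`. Points: pairs `(a, y)`, `a < B`, `y ∈ ZMod p` (embed them into `Fin n`). Lines: pairs
`ℓ = (u, v) ∈ ZMod p × ZMod p` with the points `(a, u a + v)`, `a < B`. Two different points lie on at
most one line (different `a`: solve for `u`, using `a - a' ≠ 0` in the field; equal `a`: on none), and so
two different lines have at most one common point. Let `Q = B ^ 2` and colour the lines by `Q` colours:
`f : lines → Fin Q`. We choose `f` such that for no colour `c`

(1) there are a point `x`, a line `ℓ` not through `x` and `c0 = 3 a0 + 4` points of `ℓ` such that the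
`c0` lines through `x` and these points all exist and have colour `c` (they are different lines: a line
through `x` and two points of `ℓ` is `ℓ`);
(2) there are `s = a0 + 3` points such that each two of them lie on a line of colour `c` and the
`s (s - 1) / 2` lines are all different,

where `a0 = Nat.log 2 n + 1`, so `n < 2 ^ a0`. Union bound: for a set `A` of lines there are exactly
`Q ^ (#lines - #A)` colourings `f` that are `c` on `A`. The number of configurations (1) is at most
`n * p ^ 2 * B ^ c0 ≤ n ^ 3 * B ^ c0` (`x`, `ℓ`, the list of the `c0` points of `ℓ`), that of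
configurations (2) is at most `n ^ s`. So the number of bad `f` is at most
`Q * n ^ 3 * B ^ c0 * Q ^ (p^2 - c0) + Q * n ^ s * Q ^ (p^2 - s (s - 1) / 2)`, and this is less than
`Q ^ (p ^ 2)`, because `Q * n ^ 3 * B ^ c0 < 2 ^ (3 a0) * B ^ (c0 + 2) ≤ B ^ (3 a0 + c0 + 2) =
B ^ (2 c0 - 2) = Q ^ c0 / B ^ 2 ≤ Q ^ c0 / 4` and `Q * n ^ s < B ^ (2 + a0 s) ≤ B ^ (s (s - 1) - 2) =
Q ^ (s (s - 1) / 2) / B ^ 2 ≤ Q ^ (s (s-1)/2) / 4` (as `s (s - 1) - a0 s = 2 s ≥ 4 + ...`, `2 s ≥ 4`).

Let the blocks be the lines of the most frequent colour `c`: `P ≥ p ^ 2 / Q`, so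
`n ^ 2 ≤ 4 B ^ 2 p ^ 2 ≤ 4 B ^ 4 P`.

Now let `T` be a set with at least `4 (log₂ n + 4) ^ 3 ≥ s ^ 2 c0` vertices (`s = log₂ n + 4`,
`c0 = 3 log₂ n + 7 ≤ 4 s`), each two of which lie in a common block, and suppose that no block contains
`T`. (a) Each block `ℓ` contains fewer than `c0` points of `T`: otherwise take `x ∈ T \ ℓ` and `c0` points
of `T ∩ ℓ` and get a configuration (1). (b) There are `s` points of `T` no three of which lie in a
common block: choose them one after the other; if `i < s` points are chosen, then the blocks of the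
pairs of chosen points (at most `i (i - 1) / 2`) contain fewer than `c0 * s ^ 2 / 2` points of `T`
together, and the chosen points themselves are `< s`, so one more can be chosen. For these `s` points the
blocks of the pairs are all different (two pairs with the same block would give three points in a
block), a configuration (2). Contradiction. -/
def S_PACK : Prop := ∀ n B K : ℕ, 2 ≤ B → 8 * B ^ 2 ≤ n → 4 * (Nat.log 2 n + 4) ^ 3 ≤ K →
  ∃ (P : ℕ) (pt : Fin P → Fin B → Fin n), n ^ 2 ≤ 16 * B ^ 4 * P ∧
    (∀ p, Function.Injective (pt p)) ∧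
    (∀ p p' a b a' b', a ≠ b → pt p a = pt p' a' → pt p b = pt p' b' → p = p') ∧
    ∀ T : Finset (Fin n), K ≤ T.card →
      (∀ v ∈ T, ∀ w ∈ T, v ≠ w → ∃ p a b, pt p a = v ∧ pt p b = w) →
      ∃ p, ∀ v ∈ T, ∃ a, pt p a = v

end Pool.Agent.H10x.NL
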