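import Pool.Agent.H10x.NL.Glue2
import Pool.Agent.H10x.NL.Stm2

/-!
# The parameters, dense packing
-/

set_option linter.unusedSectionVars false
set_option linter.unusedVariables false

namespace Pool.Agent.H10x.NL.G2

open Finset Pool.Agent.W969.MC

/-- the packing -/
lemma pack_exists (hP : S_PACK) {n B K : ℕ} (hB : 2 ≤ B) (hn : 8 * B ^ 2 ≤ n)
    (hK : 4 * (Nat.log 2 n + 4) ^ 3 ≤ K) : ∃ P, n ^ 2 ≤ 16 * B ^ 4 * P ∧ Nonempty (Pack n B K P) := by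
  obtain ⟨P, pt, h1, h2, h3, h4⟩ := hP n B K hB hn hK
  exact ⟨P, h1, ⟨⟨pt, h2, h3, h4⟩⟩⟩

/-- all parameters -/
lemma all_par2 (hPk : S_PACK) : ∃ δ : ℝ, 0 < δ ∧ ∃ C : ℝ, 0 < C ∧ ∃ l0 : ℕ, ∀ n k l : ℕ,
    l0 ≤ l → l ≤ k → 2 * k ≤ n → (Real.log n) ^ (4 : ℕ) ≤ l → (l : ℝ) ^ C ≤ n →
    ∃ (b2 b q M m s w P : ℕ) (g : ℝ), Pars 2 b2 b q M m s w ∧ 2 * M ≤ k ∧
      Nonempty (Pack (n / 2) (M * (2 * q ^ b2)) (2 * M) P) ∧ 0 < P ∧ g ≤ (l : ℝ) ^ (-δ) ∧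
      (n : ℝ) ^ (2 : ℕ) / (l : ℝ) ^ C ≤ (g / 2) * P ∧ 16 / (q : ℝ) ≤ g ∧
      ∀ z : ℕ, (z : ℝ) < (l : ℝ) ^ (δ * l) → z ≤ (q + 1) ^ m ∧
        16 * (z : ℝ) * 2 ^ (w / (2 * b) / b + 1) < g * (q : ℝ) ^ (w / (2 * b) / b + 1) := by
  obtain ⟨δ1, hδ1, l0, H⟩ := pars_exist 2 le_rfl (1 / 2) (by norm_num)
  obtain ⟨l1, Hab⟩ := absorb hδ1
  obtain ⟨l2, hl2⟩ := ev_rpow (η := δ1 / 2) (by positivity) 4
  obtain ⟨l3, hl3⟩ := ev_rpow (η := 1) one_pos (Real.exp (432 / δ1 + 1))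
  refine ⟨δ1 / 4, by positivity, 10 + δ1, by positivity, max (max (max l0 l1) (max l2 l3)) 17, ?_⟩
  intro n k l hl hlk hkn hlog hln
  have hll0 : l0 ≤ l := (le_max_left _ _).trans ((le_max_left _ _).trans ((le_max_left _ _).trans hl))
  have hll1 : l1 ≤ l := (le_max_right _ _).trans ((le_max_left _ _).trans ((le_max_left _ _).trans hl))
  have hll2 : l2 ≤ l := (le_max_left _ _).trans ((le_max_right _ _).trans ((le_max_left _ _).trans hl))
  have hll3 : l3 ≤ l := (le_max_right _ _).trans ((le_max_right _ _).trans ((le_max_left _ _).trans hl))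
  have hl17 : 17 ≤ l := (le_max_right _ _).trans hl
  have hlR : (17 : ℝ) ≤ l := by exact_mod_cast hl17
  have hl1R : (1 : ℝ) ≤ l := by linarith
  have hlpos : (0 : ℝ) < l := by linarith
  have hln5 : (l : ℝ) ^ (5 : ℕ) ≤ n := by
    refine le_trans ?_ hln
    rw [← Real.rpow_natCast]
    apply Real.rpow_le_rpow_of_exponent_le hl1R
    push_cast
    linarith
  have hln5' : l ^ 5 ≤ n := by exact_mod_cast hln5
  have h16 : 17 * l ^ 4 ≤ n := by
    refine le_trans ?_ hln5'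
    calc 17 * l ^ 4 ≤ l * l ^ 4 := Nat.mul_le_mul_right _ hl17
      _ = l ^ 5 := by ring
  have hlN : (l : ℝ) ^ (1 + 1 / ((2 : ℕ) : ℝ) + 1 / 2) ≤ ((l * l : ℕ) : ℝ) := by
    rw [show (1 + 1 / ((2 : ℕ) : ℝ) + 1 / 2 : ℝ) = ((2 : ℕ) : ℝ) by push_cast; norm_num,
      Real.rpow_natCast, pow_two]
    push_cast
    exact le_rfl
  have hlN1 : l ≤ l * l := Nat.le_mul_self l
  obtain ⟨b2, b, q, M, m, s, w, m', Pa, h1, h2, h3, h4⟩ := H (l * l) l hll0 hlN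
  have hj0 := Pa.j0_le le_rfl h1
  obtain ⟨a1, a2, a3⟩ := Hab (l * l) l q m (w / (2 * b) / b + 1) hll1 hlN1 (Nat.le_add_left 1 _)
    hj0 h4
  have hNpos : (0 : ℝ) < ((l * l : ℕ) : ℝ) := by push_cast; positivity
  have hm' : 1 ≤ m' := by
    have h5 : (0 : ℝ) < m' := lt_of_lt_of_le (by positivity) h3
    exact_mod_cast h5
  have hB : M * (2 * q ^ b2) ≤ l * l := by
    have h5 : 1 * (M * (2 * q ^ b2)) ≤ m' * (M * (2 * q ^ b2)) := Nat.mul_le_mul_right _ hm'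
    omega
  have hMpos : 0 < M := by
    have := Pa.hM
    have := Pa.hm
    omega
  have hq16 := Pa.hq
  have hqpos : 0 < q := by omega
  have hb2 := Pa.hb2
  have hB2 : 2 ≤ M * (2 * q ^ b2) := by
    have h5 : 1 * (2 * 1) ≤ M * (2 * q ^ b2) :=
      Nat.mul_le_mul hMpos (Nat.mul_le_mul_left _ (Nat.one_le_pow _ _ hqpos))
    omega
  have hqB : q ≤ l * l := by
    refine le_trans ?_ hB
    calc q = 1 * (1 * q ^ 1) := by ring
      _ ≤ M * (2 * q ^ b2) := Nat.mul_le_mul hMpos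
          (Nat.mul_le_mul (by norm_num) (Nat.pow_le_pow_right hqpos hb2))
  -- rewriting powers of `l * l`
  have hpw : ∀ x : ℝ, ((l * l : ℕ) : ℝ) ^ x = (l : ℝ) ^ (2 * x) := by
    intro x
    rw [Real.rpow_mul hlpos.le, show (2 : ℝ) = ((2 : ℕ) : ℝ) by norm_num, Real.rpow_natCast]
    congr 1
    push_cast
    ring
  -- the number `m` is large
  have hm : δ1 / 2 * l ≤ m := by
    by_contra hcon
    push Not at hcon
    set Y : ℝ := (l : ℝ) ^ (2 * (δ1 * l)) with hY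
    have hY1 : ((l * l : ℕ) : ℝ) ^ (δ1 * l) = Y := hpw _
    set u : ℝ := (l : ℝ) ^ (δ1 / 2 * l) with hu
    have hu4 : 4 ≤ u := by
      have h5 := hl2 l hll2
      refine h5.trans (Real.rpow_le_rpow_of_exponent_le hl1R ?_)
      have : 0 < δ1 / 2 := by positivity
      nlinarith
    have hYu : Y = u * (l : ℝ) ^ (3 * (δ1 / 2 * l)) := by
      rw [hY, hu, ← Real.rpow_add hlpos]
      congr 1
      ring
    have h5 : ((q + 1) ^ m : ℝ) ≤ (l : ℝ) ^ (3 * (δ1 / 2 * l)) := by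
      have h6 : ((q : ℝ) + 1) ≤ (l : ℝ) ^ (3 : ℕ) := by
        have h7 : (q : ℝ) ≤ l * l := by exact_mod_cast hqB
        nlinarith
      calc ((q : ℝ) + 1) ^ m ≤ ((l : ℝ) ^ (3 : ℕ)) ^ m :=
            pow_le_pow_left₀ (by positivity) h6 _
        _ = (l : ℝ) ^ (3 * (m : ℝ)) := by
            rw [Real.rpow_mul hlpos.le, Real.rpow_natCast]
            congr 1
            rw [show (3 : ℝ) = ((3 : ℕ) : ℝ) by norm_num, Real.rpow_natCast]
        _ ≤ (l : ℝ) ^ (3 * (δ1 / 2 * l)) := by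
            apply Real.rpow_le_rpow_of_exponent_le hl1R
            linarith
    have hv1 : (1 : ℝ) ≤ (l : ℝ) ^ (3 * (δ1 / 2 * l)) := Real.one_le_rpow hl1R (by positivity)
    set v : ℝ := (l : ℝ) ^ (3 * (δ1 / 2 * l)) with hv
    have hYv : 4 * v ≤ Y := by
      rw [hYu]
      exact mul_le_mul_of_nonneg_right hu4 (by linarith)
    have h6 := (h4 ⌊Y / 2⌋₊ (by
      rw [hY1]
      have : ((⌊Y / 2⌋₊ : ℕ) : ℝ) ≤ Y / 2 := Nat.floor_le (by linarith)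
      linarith)).1
    have h7 : Y / 2 - 1 < (⌊Y / 2⌋₊ : ℕ) := Nat.sub_one_lt_floor _
    have h8 : ((⌊Y / 2⌋₊ : ℕ) : ℝ) ≤ ((q + 1) ^ m : ℝ) := by exact_mod_cast h6
    linarith
  have hM4 : 2 * m ≤ M := Pa.hM
  -- the logarithm
  have hn1 : (1 : ℝ) ≤ n := by
    refine le_trans ?_ hln5
    exact one_le_pow₀ hl1R
  have hnpos : (0 : ℝ) < n := by linarith
  have hlogn : 432 / δ1 + 1 ≤ Real.log n := by
    have h5 := hl3 l hll3
    rw [Real.rpow_one] at h5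
    rw [Real.le_log_iff_exp_le hnpos]
    refine h5.trans (le_trans ?_ hln5)
    calc (l : ℝ) = (l : ℝ) ^ (1 : ℕ) := (pow_one _).symm
      _ ≤ (l : ℝ) ^ (5 : ℕ) := pow_le_pow_right₀ hl1R (by norm_num)
  have hlogn1 : 1 ≤ Real.log n := by
    have : 0 < 432 / δ1 := by positivity
    linarith
  have hnat : (Nat.log 2 (n / 2) : ℝ) + 4 ≤ 6 * Real.log n := by
    have h5 : Nat.log 2 (n / 2) ≤ Nat.log 2 n := Nat.log_mono_right (Nat.div_le_self _ _)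
    have h6 : (Nat.log 2 n : ℝ) ≤ Real.logb 2 n := Real.natLog_le_logb n 2
    have h7 : Real.logb 2 n ≤ 2 * Real.log n := by
      rw [Real.logb, div_le_iff₀ (Real.log_pos (by norm_num))]
      have h8 : (1 / 2 : ℝ) < Real.log 2 := by
        have := Real.log_two_gt_d9
        linarith
      nlinarith
    have h9 : (Nat.log 2 (n / 2) : ℝ) ≤ Nat.log 2 n := by exact_mod_cast h5
    linarith
  have hKbig : 4 * (Nat.log 2 (n / 2) + 4) ^ 3 ≤ 2 * M := by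
    have h5 : (4 : ℝ) * ((Nat.log 2 (n / 2) : ℝ) + 4) ^ 3 ≤ 2 * M := by
      have h6 : ((Nat.log 2 (n / 2) : ℝ) + 4) ^ 3 ≤ (6 * Real.log n) ^ 3 :=
        pow_le_pow_left₀ (by positivity) hnat _
      have h7 : (2 : ℝ) * M ≥ 4 * m := by
        have : (2 : ℝ) * m ≤ M := by exact_mod_cast hM4
        linarith
      have h8 : 864 * (Real.log n) ^ 3 ≤ 2 * δ1 * l := by
        have h9 : 432 / δ1 ≤ Real.log n := by linarith
        rw [div_le_iff₀ hδ1] at h9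
        have h10 : 432 * (Real.log n) ^ 3 ≤ (Real.log n * δ1) * (Real.log n) ^ 3 :=
          mul_le_mul_of_nonneg_right h9 (by positivity)
        have h11 : (Real.log n * δ1) * (Real.log n) ^ 3 = δ1 * (Real.log n) ^ 4 := by ring
        have h12 : δ1 * (Real.log n) ^ 4 ≤ δ1 * l := mul_le_mul_of_nonneg_left hlog hδ1.le
        linarith
      have h13 : (6 * Real.log n) ^ 3 = 216 * (Real.log n) ^ 3 := by ring
      linarith
    exact_mod_cast h5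
  have hn8 : 8 * (M * (2 * q ^ b2)) ^ 2 ≤ n / 2 := by
    have h5 : (M * (2 * q ^ b2)) ^ 2 ≤ l ^ 4 := by
      calc (M * (2 * q ^ b2)) ^ 2 ≤ (l * l) ^ 2 := Nat.pow_le_pow_left hB _
        _ = l ^ 4 := by ring
    omega
  obtain ⟨P, hP1, hP2⟩ := pack_exists hPk hB2 hn8 hKbig
  have hn34 : 34 ≤ n := by
    have h5 : 17 ^ 4 ≤ l ^ 4 := Nat.pow_le_pow_left hl17 4
    omega
  have hPlow : (n : ℝ) ^ (2 : ℕ) ≤ 144 * (l : ℝ) ^ (8 : ℕ) * P := by
    have h5 : n ≤ 3 * (n / 2) := by omega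
    have h6 : n ^ 2 ≤ 9 * (n / 2) ^ 2 := by
      calc n ^ 2 ≤ (3 * (n / 2)) ^ 2 := Nat.pow_le_pow_left h5 _
        _ = 9 * (n / 2) ^ 2 := by ring
    have h7 : n ^ 2 ≤ 144 * l ^ 8 * P := by
      calc n ^ 2 ≤ 9 * (n / 2) ^ 2 := h6
        _ ≤ 9 * (16 * (M * (2 * q ^ b2)) ^ 4 * P) := Nat.mul_le_mul_left _ hP1
        _ ≤ 9 * (16 * (l * l) ^ 4 * P) := by
            apply Nat.mul_le_mul_left
            apply Nat.mul_le_mul_right
            apply Nat.mul_le_mul_left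
            exact Nat.pow_le_pow_left hB _
        _ = 144 * l ^ 8 * P := by ring
    exact_mod_cast h7
  have hPpos : 0 < P := by
    rcases Nat.eq_zero_or_pos P with h | h
    · exfalso
      rw [h] at hPlow
      push_cast at hPlow
      rw [mul_zero] at hPlow
      have : (0 : ℝ) < (n : ℝ) ^ (2 : ℕ) := by positivity
      linarith
    · exact h
  refine ⟨b2, b, q, M, m, s, w, P, ((l * l : ℕ) : ℝ) ^ (-(δ1 / 4)), Pa, h1.trans hlk, hP2, hPpos,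
    ?_, ?_, a1, ?_⟩
  · rw [hpw]
    apply Real.rpow_le_rpow_of_exponent_le hl1R
    linarith
  · rw [hpw, div_le_iff₀ (by positivity)]
    have h5 : (l : ℝ) ^ (10 + δ1) = (l : ℝ) ^ (8 : ℕ) * (l : ℝ) ^ (2 + δ1 / 2) *
        (l : ℝ) ^ (δ1 / 2) := by
      rw [← Real.rpow_natCast, ← Real.rpow_add hlpos, ← Real.rpow_add hlpos]
      congr 1
      push_cast
      ring
    have h6 : (288 : ℝ) ≤ (l : ℝ) ^ (2 + δ1 / 2) := by
      calc (288 : ℝ) ≤ 17 ^ (2 : ℕ) := by norm_num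
        _ ≤ (l : ℝ) ^ (2 : ℕ) := pow_le_pow_left₀ (by norm_num) hlR _
        _ = (l : ℝ) ^ ((2 : ℕ) : ℝ) := (Real.rpow_natCast _ _).symm
        _ ≤ (l : ℝ) ^ (2 + δ1 / 2) := by
            apply Real.rpow_le_rpow_of_exponent_le hl1R
            push_cast
            linarith
    have h7 : (l : ℝ) ^ (2 * -(δ1 / 4)) * (l : ℝ) ^ (δ1 / 2) = 1 := by
      rw [← Real.rpow_add hlpos]
      rw [show 2 * -(δ1 / 4) + δ1 / 2 = 0 by ring, Real.rpow_zero]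
    rw [h5]
    have hP0 : (0 : ℝ) < P := by exact_mod_cast hPpos
    calc (n : ℝ) ^ (2 : ℕ) ≤ 144 * (l : ℝ) ^ (8 : ℕ) * P := hPlow
      _ = (l : ℝ) ^ (8 : ℕ) * P / 2 * 288 := by ring
      _ ≤ (l : ℝ) ^ (8 : ℕ) * P / 2 * (l : ℝ) ^ (2 + δ1 / 2) :=
          mul_le_mul_of_nonneg_left h6 (by positivity)
      _ = (l : ℝ) ^ (8 : ℕ) * P / 2 * (l : ℝ) ^ (2 + δ1 / 2) *
            ((l : ℝ) ^ (2 * -(δ1 / 4)) * (l : ℝ) ^ (δ1 / 2)) := by rw [h7, mul_one]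
      _ = _ := by ring
  · intro z hz
    apply a3
    refine lt_of_lt_of_le hz ?_
    rw [hpw]
    apply Real.rpow_le_rpow_of_exponent_le hl1R
    have : 0 ≤ δ1 / 4 * l := by positivity
    linarith

end Pool.Agent.H10x.NL.G2
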